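import Pool.Agent.H91.Mono.Crit

/-! One independent eigenvalue: definitions. -/

namespace Pool.Agent.H91S

open Polynomial Pool.Agent.H93Tate

/-- `x` is a simple root of `P` with `x ^ 2 ≠ q` that is independent of the other roots: every
product of roots of `P` (with repetitions) that is equal to a power of `q` contains `x` exactly as
often as `q / x`. -/
def Indep (q : ℂ) (P : ℚ[X]) (x : ℂ) : Prop :=
  aeval x P = 0 ∧ aeval x (derivative P) ≠ 0 ∧ x ^ 2 ≠ q ∧
    ∀ (xs : List ℂ) (T : ℕ), (∀ z ∈ xs, aeval z P = 0) → xs.prod = q ^ T →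
      xs.count x = xs.count (q / x)

/-- One simple root of `P` has slope different from `1 / 2`, and all roots except it and its
partner have slope `1 / 2`. -/
def K3Cond (p n : ℕ) [Fact p.Prime] (P : ℚ[X]) : Prop :=
  ∃ y : PadicAlgCl p, aeval y P = 0 ∧ aeval y (derivative P) ≠ 0 ∧ slope p n y ≠ 1 / 2 ∧
    ∀ z : PadicAlgCl p, aeval z P = 0 → z ≠ y → z * y ≠ (p : PadicAlgCl p) ^ n →
      slope p n z = 1 / 2

end Pool.Agent.H91S
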