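import Pool.Agent.H91.Mono.Ss2

/-! Absolute irreducibility from semisimplicity and a scalar commutant.

PROOF. `V` is a semisimple module over `A = E[Γ]` with `End_A V = E`. Jacobson density gives for
every `f : End_E V` an element of `A` equal to `f` on a basis: so `Γ` spans `End_E V`
(`span_top`). A `K`-subspace of `K ⊗ V` stable under `Γ.map (bcE K)` is stable under all
`f.baseChange K` (matrix units), so it is `⊥` or `⊤`. `scalK`: by `comm_descend`, a `c` commuting
with a finite-index subgroup commutes with `bcE K g` for every `g : V ≃ₗ[E] V`, so with all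
`f.baseChange K`. -/

set_option linter.unusedSectionVars false

namespace Pool.Agent.H91S

open TensorProduct Pool.Agent.H91.Mono

section Sp

variable {E : Type*} [Field E] {V : Type*} [AddCommGroup V] [Module E V]
  {Γ : Subgroup (V ≃ₗ[E] V)}

/-- the image of `Γ` in `End V` -/
def imSet (Γ : Subgroup (V ≃ₗ[E] V)) : Set (Module.End E V) :=
  {x : Module.End E V | ∃ γ ∈ Γ, x = ((γ : V ≃ₗ[E] V) : Module.End E V)}

theorem closure_imSet :
    (Submonoid.closure (imSet Γ) : Set (Module.End E V)) ⊆
      (Submodule.span E (imSet Γ) : Set (Module.End E V)) := by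
  intro x hx
  apply Submodule.subset_span
  rw [SetLike.mem_coe] at hx
  induction hx using Submonoid.closure_induction with
  | mem x hx => exact hx
  | one => exact ⟨1, Γ.one_mem, rfl⟩
  | mul x y _ _ hx hy =>
    obtain ⟨γ, hγ, rfl⟩ := hx
    obtain ⟨δ, hδ, rfl⟩ := hy
    exact ⟨γ * δ, Γ.mul_mem hγ hδ, rfl⟩

/-- the algebra generated by `Γ` -/
def alg (Γ : Subgroup (V ≃ₗ[E] V)) : Subalgebra E (Module.End E V) := Algebra.adjoin E (imSet Γ)

theorem alg_eq : Subalgebra.toSubmodule (alg Γ) = Submodule.span E (imSet Γ) :=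
  Algebra.adjoin_eq_span_of_subset E closure_imSet

theorem mem_alg {x : Module.End E V} : x ∈ alg Γ ↔ x ∈ Submodule.span E (imSet Γ) := by
  rw [← alg_eq]
  rfl

theorem alg_stab {W : Submodule E V} (hW : ∀ γ ∈ Γ, ∀ w ∈ W, (γ : V ≃ₗ[E] V) w ∈ W)
    {a : Module.End E V} (ha : a ∈ alg Γ) : ∀ w ∈ W, a w ∈ W := by
  rw [mem_alg] at ha
  induction ha using Submodule.span_induction with
  | mem x hx =>
    obtain ⟨γ, hγ, rfl⟩ := hx
    exact hW γ hγ
  | zero =>
    intro w _
    exact W.zero_mem
  | add x y _ _ hx hy =>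
    intro w hw
    exact W.add_mem (hx w hw) (hy w hw)
  | smul c x _ hx =>
    intro w hw
    exact W.smul_mem c (hx w hw)

theorem alg_ss
    (hss : ∀ W : Submodule E V, (∀ γ ∈ Γ, ∀ w ∈ W, (γ : V ≃ₗ[E] V) w ∈ W) →
      ∃ W' : Submodule E V, (∀ γ ∈ Γ, ∀ w ∈ W', (γ : V ≃ₗ[E] V) w ∈ W') ∧ IsCompl W W') :
    IsSemisimpleModule (alg Γ) V := by
  rw [isSemisimpleModule_iff]
  refine ⟨fun W => ?_⟩
  let W0 : Submodule E V :=
    { carrier := W
      add_mem' := fun h1 h2 => W.add_mem h1 h2
      zero_mem' := W.zero_mem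
      smul_mem' := fun c w hw => W.smul_mem (algebraMap E (alg Γ) c) hw }
  obtain ⟨W', hW', hc⟩ := hss W0 (fun γ hγ w hw => by
    have h1 : ((γ : V ≃ₗ[E] V) : Module.End E V) ∈ alg Γ :=
      Algebra.subset_adjoin ⟨γ, hγ, rfl⟩
    exact W.smul_mem (⟨_, h1⟩ : alg Γ) hw)
  let W1 : Submodule (alg Γ) V :=
    { carrier := W'
      add_mem' := fun h1 h2 => W'.add_mem h1 h2
      zero_mem' := W'.zero_mem
      smul_mem' := fun a w hw => alg_stab hW' a.2 w hw }
  refine ⟨W1, ?_⟩
  constructor
  · rw [Submodule.disjoint_def]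
    intro x hx hx'
    exact Submodule.disjoint_def.1 hc.disjoint x hx hx'
  · rw [Submodule.codisjoint_iff_exists_add_eq]
    intro z
    obtain ⟨x, y, hx, hy, hxy⟩ := Submodule.codisjoint_iff_exists_add_eq.1 hc.codisjoint z
    exact ⟨x, y, hx, hy, hxy⟩

end Sp

variable {E : Type*} [Field E] [CharZero E] {K : Type*} [Field K] [CharZero K] [Algebra E K]
  {V : Type*} [AddCommGroup V] [Module E V] [FiniteDimensional E V] {Γ : Subgroup (V ≃ₗ[E] V)}

theorem span_top
    (hss : ∀ W : Submodule E V, (∀ γ ∈ Γ, ∀ w ∈ W, (γ : V ≃ₗ[E] V) w ∈ W) →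
      ∃ W' : Submodule E V, (∀ γ ∈ Γ, ∀ w ∈ W', (γ : V ≃ₗ[E] V) w ∈ W') ∧ IsCompl W W')
    (hsc : ∀ c : Module.End E V, (∀ γ ∈ Γ, ∀ v, c ((γ : V ≃ₗ[E] V) v) = (γ : V ≃ₗ[E] V) (c v)) →
      ∃ a : E, c = a • (1 : Module.End E V)) :
    Submodule.span E {x : Module.End E V | ∃ γ ∈ Γ, x = ((γ : V ≃ₗ[E] V) : Module.End E V)} =
      ⊤ := by
  classical
  change Submodule.span E (imSet Γ) = ⊤
  haveI := alg_ss hss
  rw [eq_top_iff]
  intro f _
  have hφ : ∀ φ : Module.End (alg Γ) V, ∃ a : E, ∀ v, φ v = a • v := by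
    intro φ
    let c : Module.End E V :=
      { toFun := φ
        map_add' := map_add φ
        map_smul' := fun a v => by
          have h1 := map_smul φ (algebraMap E (alg Γ) a) v
          exact h1 }
    obtain ⟨a, ha⟩ := hsc c (fun γ hγ v => by
      have h1 : ((γ : V ≃ₗ[E] V) : Module.End E V) ∈ alg Γ :=
        Algebra.subset_adjoin ⟨γ, hγ, rfl⟩
      exact map_smul φ (⟨_, h1⟩ : alg Γ) v)
    refine ⟨a, fun v => ?_⟩
    have h1 := congrArg (fun x : Module.End E V => x v) ha
    exact h1
  let f' : Module.End (Module.End (alg Γ) V) V :=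
    { toFun := f
      map_add' := map_add f
      map_smul' := fun φ v => by
        obtain ⟨a, ha⟩ := hφ φ
        change f (φ v) = φ (f v)
        rw [ha, ha, map_smul] }
  let b := Module.finBasis E V
  obtain ⟨r, hr⟩ := jacobson_density f' (Finset.univ.image b)
  have hfr : f = (r : Module.End E V) := by
    refine b.ext fun i => ?_
    have h1 := hr (b i) (Finset.mem_image_of_mem b (Finset.mem_univ i))
    exact h1
  rw [hfr]
  exact mem_alg.1 r.2

theorem bc_unit {ι : Type*} [Fintype ι] [DecidableEq ι] (b : Module.Basis ι E V) (i j : ι)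
    (w : K ⊗[E] V) :
    ((b.coord i).smulRight (b j)).baseChange K w =
      (Algebra.TensorProduct.basis K b).repr w i • Algebra.TensorProduct.basis K b j := by
  induction w using TensorProduct.induction_on with
  | zero => simp
  | tmul a v =>
    rw [LinearMap.baseChange_tmul, LinearMap.smulRight_apply,
      Algebra.TensorProduct.basis_repr_tmul, Algebra.TensorProduct.basis_apply,
      Finsupp.smul_apply, Finsupp.mapRange_apply, TensorProduct.tmul_smul,
      TensorProduct.smul_tmul', TensorProduct.smul_tmul', Module.Basis.coord_apply]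
    congr 1
    rw [smul_eq_mul, smul_eq_mul, mul_one, Algebra.smul_def, mul_comm]
  | add x y hx hy =>
    rw [map_add, hx, hy, map_add, Finsupp.add_apply, add_smul]

theorem irrK (hspan : Submodule.span E {x : Module.End E V | ∃ γ ∈ Γ,
      x = ((γ : V ≃ₗ[E] V) : Module.End E V)} = ⊤)
    (W : Submodule K (K ⊗[E] V))
    (hW : ∀ γ ∈ Γ.map (bcE K), ∀ w ∈ W, (γ : K ⊗[E] V ≃ₗ[K] K ⊗[E] V) w ∈ W) :
    W = ⊥ ∨ W = ⊤ := by
  classical
  have hst : ∀ f : Module.End E V, ∀ w ∈ W, f.baseChange K w ∈ W := by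
    intro f
    have hf : f ∈ Submodule.span E {x : Module.End E V | ∃ γ ∈ Γ,
      x = ((γ : V ≃ₗ[E] V) : Module.End E V)} := by rw [hspan]; trivial
    induction hf using Submodule.span_induction with
    | mem x hx =>
      obtain ⟨γ, hγ, rfl⟩ := hx
      intro w hw
      exact hW (bcE K γ) ⟨γ, hγ, rfl⟩ w hw
    | zero =>
      intro w _
      rw [LinearMap.baseChange_zero]
      exact W.zero_mem
    | add x y _ _ hx hy =>
      intro w hw
      rw [LinearMap.baseChange_add]
      exact W.add_mem (hx w hw) (hy w hw)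
    | smul c x _ hx =>
      intro w hw
      rw [LinearMap.baseChange_smul, LinearMap.smul_apply, ← algebraMap_smul K c]
      exact W.smul_mem _ (hx w hw)
  by_cases hbot : W = ⊥
  · exact Or.inl hbot
  right
  obtain ⟨w, hw, hw0⟩ := Submodule.exists_mem_ne_zero_of_ne_bot hbot
  let b := Module.finBasis E V
  let bK := Algebra.TensorProduct.basis K b
  have hex : ∃ i, bK.repr w i ≠ 0 := by
    by_contra hcon
    push Not at hcon
    apply hw0
    apply bK.repr.injective
    ext i
    rw [hcon i, map_zero, Finsupp.zero_apply]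
  obtain ⟨i, hi⟩ := hex
  rw [eq_top_iff, ← bK.span_eq, Submodule.span_le]
  rintro _ ⟨j, rfl⟩
  have h1 := hst ((b.coord i).smulRight (b j)) w hw
  rw [bc_unit] at h1
  exact (Submodule.smul_mem_iff W hi).1 h1

theorem exists_unit_shift (f : Module.End E V) :
    ∃ (t : E) (g : V ≃ₗ[E] V), ∀ v, g v = f v - t • v := by
  obtain ⟨t, ht⟩ := f.finite_hasEigenvalue.infinite_compl.nonempty
  have hinj : Function.Injective (f - t • (1 : Module.End E V)) := by
    rw [← LinearMap.ker_eq_bot]
    by_contra hcon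
    apply ht
    change Module.End.HasEigenvalue f t
    rw [Module.End.hasEigenvalue_iff]
    intro h1
    apply hcon
    rw [← h1, Module.End.eigenspace_def]
  refine ⟨t, LinearEquiv.ofInjectiveEndo _ hinj, fun v => ?_⟩
  rfl

theorem scalK (hsc : ∀ c : Module.End E V, Comm Γ c → ∃ a : E, c = a • (1 : Module.End E V))
    (c : Module.End K (K ⊗[E] V)) (hc : Comm (Γ.map (bcE K)) c) :
    ∃ a : K, c = a • (1 : Module.End K (K ⊗[E] V)) := by
  classical
  have hcomm : ∀ (f : Module.End E V) (w : K ⊗[E] V),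
      c (f.baseChange K w) = f.baseChange K (c w) := by
    intro f w
    obtain ⟨t, g, hg⟩ := exists_unit_shift f
    have h1 := comm_descend K Γ g (fun c' hc' v => by
      obtain ⟨a, rfl⟩ := hsc c' hc'
      simp) c hc
    have h2 := congrArg (fun x : Module.End K (K ⊗[E] V) => x w) h1
    have h3 : ∀ x : K ⊗[E] V, f.baseChange K x = bcE K g x + (algebraMap E K t) • x := by
      intro x
      induction x using TensorProduct.induction_on with
      | zero => simp
      | tmul a v =>
        rw [LinearMap.baseChange_tmul, bcE_tmul, hg, TensorProduct.tmul_sub, algebraMap_smul,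
          TensorProduct.tmul_smul, sub_add_cancel]
      | add x y hx hy =>
        rw [map_add, hx, hy, map_add, smul_add]
        abel
    have h4 : c (bcE K g w) = bcE K g (c w) := h2
    rw [h3, h3, map_add, map_smul, h4]
  let b := Module.finBasis E V
  let bK := Algebra.TensorProduct.basis K b
  have key : ∀ i j, c (bK j) = bK.repr (c (bK i)) i • bK j := by
    intro i j
    have h1 := hcomm ((b.coord i).smulRight (b j)) (bK i)
    rw [bc_unit, bc_unit] at h1
    change c (bK.repr (bK i) i • bK j) = bK.repr (c (bK i)) i • bK j at h1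
    rw [bK.repr_self, Finsupp.single_eq_same, one_smul] at h1
    exact h1
  rcases isEmpty_or_nonempty (Fin (Module.finrank E V)) with he | ⟨⟨i0⟩⟩
  · refine ⟨0, bK.ext fun i => ?_⟩
    exact he.elim i
  · refine ⟨bK.repr (c (bK i0)) i0, bK.ext fun j => ?_⟩
    rw [key i0 j]
    rfl

end Pool.Agent.H91S
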