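import Pool.Agent.H91S.Defs
import Pool.Agent.H91.Mono.Ss2

/-! One independent eigenvalue: the element of the Lie algebra.

`K` is algebraically closed, `F` is semisimple, so there is an eigenbasis `b` of `V`, indexed by
`Fin (finrank K V)`, with eigenvalues `lam k`, the images of roots `y k` of `P` in the splitting
field. The simple roots `x'` and `q / x'` are `y i` and `y j` for exactly one `i` and one `j`.
A relation `∏ lam k ^ m k = ∏ lam k ^ m' k` becomes a product of roots equal to a power of `q`;
counting `x` and `q / x` in it gives `m i + m' j = m j + m' i`, and absolute values give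
`Σ m = Σ m'`. -/

set_option linter.unusedSectionVars false

namespace Pool.Agent.H91S

open Polynomial TensorProduct Pool.Agent.H93Tate Pool.Agent.H91.Mono

variable {p n : ℕ} [hp : Fact p.Prime] {P : ℚ[X]}

/-- an eigenbasis of a semisimple endomorphism -/
private lemma eigenbasis {K V : Type*} [Field K] [IsAlgClosed K] [AddCommGroup V] [Module K V]
    [FiniteDimensional K V] (s : Module.End K V) (hs : s.IsSemisimple) :
    ∃ (b : Module.Basis (Fin (Module.finrank K V)) K V) (lam : Fin (Module.finrank K V) → K),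
      ∀ k, s (b k) = lam k • b k := by
  classical
  let eigenDecomp := DirectSum.isInternal_submodule_of_iSupIndep_of_iSup_eq_top
    s.eigenspaces_iSupIndep hs.iSup_eigenspace_eq_top
  let I := (ν : K) × Fin (Module.finrank K (s.eigenspace ν))
  let v : Module.Basis I K V :=
    eigenDecomp.collectedBasis fun μ ↦ Module.finBasis K (s.eigenspace μ)
  have : Fintype I := FiniteDimensional.fintypeBasisIndex v
  have hcard : Fintype.card I = Module.finrank K V := (Module.finrank_eq_card_basis v).symm
  let e : I ≃ Fin (Module.finrank K V) := Fintype.equivFinOfCardEq hcard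
  refine ⟨v.reindex e, fun k => (e.symm k).1, fun k => ?_⟩
  rw [Module.Basis.reindex_apply]
  exact Module.End.mem_eigenspace_iff.mp (eigenDecomp.collectedBasis_mem _ (e.symm k))

private lemma charpoly_eig {K V ι : Type*} [Field K] [AddCommGroup V] [Module K V]
    [FiniteDimensional K V] [Fintype ι] [DecidableEq ι] (s : Module.End K V)
    (b : Module.Basis ι K V) (lam : ι → K) (h : ∀ k, s (b k) = lam k • b k) :
    LinearMap.charpoly s = ∏ k, (X - C (lam k)) := by
  rw [← LinearMap.charpoly_toMatrix s b]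
  have h1 : LinearMap.toMatrix b b s = Matrix.diagonal lam := by
    ext i j
    rw [LinearMap.toMatrix_apply, h, map_smul, Module.Basis.repr_self, Finsupp.smul_apply,
      Finsupp.single_apply, Matrix.diagonal_apply]
    by_cases hij : i = j
    · subst hij
      simp
    · rw [if_neg hij, if_neg (fun h => hij h.symm), smul_zero]
  rw [h1, Matrix.charpoly_diagonal]

private lemma uniq {K ι : Type*} [Field K] [Fintype ι] (lam : ι → K) (Q : K[X])
    (hQ : Q = ∏ k, (X - C (lam k))) (μ : K) (h0 : Q.eval μ = 0)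
    (h1 : (derivative Q).eval μ ≠ 0) : ∃ i, lam i = μ ∧ ∀ k, lam k = μ → k = i := by
  classical
  have h2 : ∃ i, lam i = μ := by
    rw [hQ, eval_prod, Finset.prod_eq_zero_iff] at h0
    obtain ⟨i, _, hi⟩ := h0
    refine ⟨i, ?_⟩
    rw [eval_sub, eval_X, eval_C, sub_eq_zero] at hi
    exact hi.symm
  obtain ⟨i, hi⟩ := h2
  refine ⟨i, hi, fun k hk => ?_⟩
  by_contra hne
  apply h1
  rw [hQ, ← Finset.mul_prod_erase Finset.univ _ (Finset.mem_univ i),
    ← Finset.mul_prod_erase (Finset.univ.erase i) _
      (Finset.mem_erase.2 ⟨hne, Finset.mem_univ k⟩)]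
  simp [derivative_mul, hi, hk]

theorem eig (hn : 0 < n) (hweil : ∀ z : ℂ, aeval z P = 0 → ‖z‖ ^ 2 = (p : ℝ) ^ n) {x : ℂ}
    (hx : Indep ((p : ℂ) ^ n) P x)
    {K : Type*} [Field K] [CharZero K] [IsAlgClosed K] {V : Type*}
    [AddCommGroup V] [Module K V] [FiniteDimensional K V] (ψ : V →ₗ[K] V →ₗ[K] K)
    (Γ : Subgroup (V ≃ₗ[K] V)) (F : V ≃ₗ[K] V) (hF : F ∈ Γ)
    (hss : Module.End.IsSemisimple (F : Module.End K V))
    (hchar : LinearMap.charpoly (F : V →ₗ[K] V) = P.map (algebraMap ℚ K))
    (hmult : ∀ u v, ψ (F u) (F v) = (p : K) ^ n * ψ u v) :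
    ∃ (b : Module.Basis (Fin (Module.finrank K V)) K V) (i j : Fin (Module.finrank K V)), i ≠ j ∧
      dg b (fun k => if k = i then 1 else if k = j then -1 else 0) ∈ lie Γ ∧
      (∀ k, k ≠ j → ψ (b i) (b k) = 0) ∧ (∀ k, k ≠ j → ψ (b k) (b i) = 0) ∧
      (∀ k, k ≠ i → ψ (b j) (b k) = 0) ∧ (∀ k, k ≠ i → ψ (b k) (b j) = 0) ∧
      ∀ ν : K, ν ≠ 0 → InCl Γ (ν • (1 : Module.End K V)) := by
  classical
  obtain ⟨hx0, hx1, hx2, hx3⟩ := hx
  obtain ⟨b, lam, hb⟩ := eigenbasis (F : Module.End K V) hss
  have hcp : P.map (algebraMap ℚ K) = ∏ k, (X - C (lam k)) := by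
    rw [← hchar]
    exact charpoly_eig _ b lam hb
  have hP0 : P ≠ 0 := by
    intro h0
    have h1 : (∏ k, (X - C (lam k)) : K[X]) ≠ 0 :=
      Finset.prod_ne_zero_iff.2 fun k _ => X_sub_C_ne_zero _
    rw [← hcp, h0, Polynomial.map_zero] at h1
    exact h1 rfl
  let L := P.SplittingField
  let jC : L →ₐ[ℚ] ℂ := IsAlgClosed.lift
  let jE : L →ₐ[ℚ] K := IsAlgClosed.lift
  have hjC : Function.Injective jC := jC.toRingHom.injective
  have hjE : Function.Injective jE := jE.toRingHom.injective
  have hp0 : (0 : ℝ) < (p : ℝ) ^ n := pow_pos (by exact_mod_cast hp.out.pos) n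
  have hpC : jC ((p : L) ^ n) = (p : ℂ) ^ n := by rw [map_pow, map_natCast]
  have hpE : jE ((p : L) ^ n) = (p : K) ^ n := by rw [map_pow, map_natCast]
  have hpL : (p : L) ^ n ≠ 0 := pow_ne_zero _ (by exact_mod_cast hp.out.ne_zero)
  -- roots in the splitting field
  have hne : ∀ z : L, aeval z P = 0 → z ≠ 0 := by
    intro z hz h0
    have h1 := hweil (jC z) (by rw [aeval_algHom_apply, hz, map_zero])
    rw [h0, map_zero, norm_zero] at h1
    have h2 : (0 : ℝ) ^ 2 = 0 := by norm_num
    rw [h2] at h1
    exact hp0.ne h1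
  have hconj : ∀ z : L, aeval z P = 0 → ∀ Q : ℚ[X],
      (aeval ((p : L) ^ n / z) Q = 0 ↔ aeval z Q = 0) := by
    intro z hz Q
    have hz0 := hne z hz
    have hzC : jC z ≠ 0 := by rw [Ne, map_eq_zero]; exact hz0
    have h1 : (starRingEnd ℂ) (jC z) = jC ((p : L) ^ n / z) := by
      have h4 := hweil (jC z) (by rw [aeval_algHom_apply, hz, map_zero])
      rw [map_div₀, hpC, eq_div_iff hzC, mul_comm, Complex.mul_conj,
        Complex.normSq_eq_norm_sq, h4]
      push_cast
      rfl
    have hc : (starRingEnd ℂ) (aeval (jC z) Q) = aeval ((starRingEnd ℂ) (jC z)) Q := by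
      rw [aeval_def, hom_eval₂, aeval_def]
      congr 1
      exact (RingHom.ext fun q => by simp)
    rw [h1, aeval_algHom_apply, aeval_algHom_apply] at hc
    constructor
    · intro h
      rw [h, map_zero, map_eq_zero, map_eq_zero] at hc
      exact hc
    · intro h
      rw [h, map_zero, map_zero] at hc
      exact (map_eq_zero jC).1 hc.symm
  obtain ⟨x', hx'0, hx'x⟩ : ∃ x' : L, aeval x' P = 0 ∧ jC x' = x := by
    have h1 := (SplittingField.splits P).image_rootSet jC
    have h2 : x ∈ P.rootSet ℂ := mem_rootSet.2 ⟨hP0, hx0⟩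
    rw [← h1] at h2
    obtain ⟨z, hz, hzx⟩ := h2
    exact ⟨z, (mem_rootSet.1 hz).2, hzx⟩
  have hx'1 : aeval x' (derivative P) ≠ 0 := by
    intro h
    apply hx1
    rw [← hx'x, aeval_algHom_apply, h, map_zero]
  have hx'ne := hne x' hx'0
  have hlam : ∀ k, ∃ z : L, aeval z P = 0 ∧ jE z = lam k := by
    intro k
    have h0 : aeval (lam k) P = 0 := by
      rw [← eval_map_algebraMap, hcp, eval_prod]
      apply Finset.prod_eq_zero (Finset.mem_univ k)
      rw [eval_sub, eval_X, eval_C, sub_self]
    have h1 := (SplittingField.splits P).image_rootSet jE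
    have h2 : lam k ∈ P.rootSet K := mem_rootSet.2 ⟨hP0, h0⟩
    rw [← h1] at h2
    obtain ⟨z, hz, hzx⟩ := h2
    exact ⟨z, (mem_rootSet.1 hz).2, hzx⟩
  choose y hy0 hy1 using hlam
  have huniq : ∀ z : L, aeval z P = 0 → aeval z (derivative P) ≠ 0 →
      ∃ i, y i = z ∧ ∀ k, y k = z → k = i := by
    intro z hz0 hz1
    obtain ⟨i, hi, hi'⟩ := uniq lam (P.map (algebraMap ℚ K)) hcp (jE z)
      (by rw [eval_map_algebraMap, aeval_algHom_apply, hz0, map_zero])
      (by
        rw [derivative_map, eval_map_algebraMap, aeval_algHom_apply]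
        intro h
        exact hz1 ((map_eq_zero jE).1 h))
    refine ⟨i, hjE ((hy1 i).trans hi), fun k hk => hi' k ?_⟩
    rw [← hy1, hk]
  obtain ⟨i, hi, hi'⟩ := huniq x' hx'0 hx'1
  obtain ⟨j, hj, hj'⟩ := huniq ((p : L) ^ n / x') ((hconj x' hx'0 P).2 hx'0)
    (fun h => hx'1 ((hconj x' hx'0 _).1 h))
  have hij : i ≠ j := by
    intro h
    rw [← h, hi, eq_div_iff hx'ne] at hj
    apply hx2
    rw [← hx'x, ← map_pow, pow_two, hj, hpC]
  have hyne : ∀ k, y k ≠ 0 := fun k => hne _ (hy0 k)
  -- the four coincidences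
  have e1 : ∀ k, x = jC (y k) ↔ k = i := by
    intro k
    constructor
    · intro h
      apply hi'
      apply hjC
      rw [hx'x, h]
    · intro h
      rw [h, hi, hx'x]
  have e2 : ∀ k, x = (p : ℂ) ^ n / jC (y k) ↔ k = j := by
    intro k
    have h0 : (p : ℂ) ^ n / jC (y k) = jC ((p : L) ^ n / y k) := by rw [map_div₀, hpC]
    constructor
    · intro h
      apply hj'
      rw [h0, ← hx'x] at h
      have h1 := hjC h
      rw [h1, div_div_cancel₀ hpL]
    · intro h
      rw [h0, h, hj, div_div_cancel₀ hpL, hx'x]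
  have e3 : ∀ k, (p : ℂ) ^ n / x = jC (y k) ↔ k = j := by
    intro k
    have h0 : (p : ℂ) ^ n / x = jC ((p : L) ^ n / x') := by rw [map_div₀, hpC, hx'x]
    rw [h0]
    constructor
    · intro h
      exact hj' k (hjC h).symm
    · intro h
      rw [h, hj]
  have e4 : ∀ k, (p : ℂ) ^ n / x = (p : ℂ) ^ n / jC (y k) ↔ k = i := by
    intro k
    have h0 : (p : ℂ) ^ n / x = jC ((p : L) ^ n / x') := by rw [map_div₀, hpC, hx'x]
    have h0' : (p : ℂ) ^ n / jC (y k) = jC ((p : L) ^ n / y k) := by rw [map_div₀, hpC]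
    rw [h0, h0']
    constructor
    · intro h
      apply hi'
      have h1 := hjC h
      have h2 : (p : L) ^ n / ((p : L) ^ n / x') = (p : L) ^ n / ((p : L) ^ n / y k) := by
        rw [h1]
      rw [div_div_cancel₀ hpL, div_div_cancel₀ hpL] at h2
      exact h2.symm
    · intro h
      rw [h, hi]
  -- relations
  have hrel : ∀ m m' : Fin (Module.finrank K V) → ℕ,
      ∏ k, lam k ^ m k = ∏ k, lam k ^ m' k →
      m i + m' j = m j + m' i ∧ ∑ k, m k = ∑ k, m' k := by
    intro m m' hm
    have hL : ∏ k, y k ^ m k = ∏ k, y k ^ m' k := by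
      apply hjE
      simp only [map_prod, map_pow, hy1]
      exact hm
    constructor
    · let M : Multiset ℂ := ∑ k, (m k • {jC (y k)} + m' k • {(p : ℂ) ^ n / jC (y k)})
      have hMprod : M.prod = ((p : ℂ) ^ n) ^ (∑ k, m' k) := by
        have h1 : M.prod = ∏ k, (jC (y k) ^ m k * ((p : ℂ) ^ n / jC (y k)) ^ m' k) := by
          rw [Multiset.prod_sum]
          apply Finset.prod_congr rfl
          intro k _
          rw [Multiset.prod_add, Multiset.prod_nsmul, Multiset.prod_nsmul,
            Multiset.prod_singleton, Multiset.prod_singleton]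
        rw [h1, Finset.prod_mul_distrib]
        have h2 : ∏ k, jC (y k) ^ m k = ∏ k, jC (y k) ^ m' k := by
          have h3 := congrArg jC hL
          simp only [map_prod, map_pow] at h3
          exact h3
        rw [h2, ← Finset.prod_mul_distrib, ← Finset.prod_pow_eq_pow_sum]
        apply Finset.prod_congr rfl
        intro k _
        rw [← mul_pow, mul_div_cancel₀]
        rw [Ne, map_eq_zero]
        exact hyne k
      have hMmem : ∀ z ∈ M, aeval z P = 0 := by
        intro z hz
        rw [Multiset.mem_sum] at hz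
        obtain ⟨k, _, hk⟩ := hz
        rw [Multiset.mem_add] at hk
        rcases hk with hk | hk
        · have h1 := Multiset.mem_of_mem_nsmul hk
          rw [Multiset.mem_singleton] at h1
          rw [h1, aeval_algHom_apply, hy0, map_zero]
        · have h1 := Multiset.mem_of_mem_nsmul hk
          rw [Multiset.mem_singleton] at h1
          have h0' : (p : ℂ) ^ n / jC (y k) = jC ((p : L) ^ n / y k) := by rw [map_div₀, hpC]
          rw [h1, h0', aeval_algHom_apply, (hconj (y k) (hy0 k) P).2 (hy0 k), map_zero]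
      have h1 := hx3 M.toList (∑ k, m' k)
        (fun z hz => hMmem z (Multiset.mem_toList.1 hz)) (by rw [Multiset.prod_toList, hMprod])
      rw [← Multiset.coe_count, ← Multiset.coe_count, Multiset.coe_toList] at h1
      have h2 : Multiset.count x M = m i + m' j := by
        rw [Multiset.count_sum']
        simp only [Multiset.count_add, Multiset.count_nsmul, Multiset.count_singleton, e1, e2]
        rw [Finset.sum_add_distrib]
        simp
      have h3 : Multiset.count ((p : ℂ) ^ n / x) M = m j + m' i := by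
        rw [Multiset.count_sum']
        simp only [Multiset.count_add, Multiset.count_nsmul, Multiset.count_singleton, e3, e4]
        rw [Finset.sum_add_distrib]
        simp
      rw [h2, h3] at h1
      exact h1
    · have hnorm : ∀ k, ‖jC (y k)‖ ^ 2 = (p : ℝ) ^ n := fun k => hweil _ (by
        rw [aeval_algHom_apply, hy0, map_zero])
      have key : ∀ l : Fin (Module.finrank K V) → ℕ,
          ‖jC (∏ k, y k ^ l k)‖ ^ 2 = ((p : ℝ) ^ n) ^ (∑ k, l k) := by
        intro l
        rw [map_prod, norm_prod, ← Finset.prod_pow, ← Finset.prod_pow_eq_pow_sum]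
        apply Finset.prod_congr rfl
        intro k _
        rw [map_pow, norm_pow, ← pow_mul, mul_comm, pow_mul, hnorm]
      have h1 := key m
      rw [hL, key m'] at h1
      exact (pow_right_injective₀ (lt_trans one_pos (one_lt_pow hn)) (one_lt_pow hn).ne' h1).symm
  -- the form
  have hform : ∀ k l, y k * y l ≠ (p : L) ^ n → ψ (b k) (b l) = 0 := by
    intro k l hkl
    have h1 := hmult (b k) (b l)
    have e1 : F (b k) = lam k • b k := hb k
    have e2 : F (b l) = lam l • b l := hb l
    rw [e1, e2, map_smul, map_smul, LinearMap.smul_apply, smul_eq_mul, smul_eq_mul] at h1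
    have h2 : (lam k * lam l - (p : K) ^ n) * ψ (b k) (b l) = 0 := by linear_combination h1
    rcases mul_eq_zero.1 h2 with h3 | h3
    · exfalso
      apply hkl
      apply hjE
      rw [map_mul, hy1, hy1, hpE]
      linear_combination h3
    · exact h3
  have hi2 : ∀ k, k ≠ j → y i * y k ≠ (p : L) ^ n := by
    intro k hk h
    apply hk
    apply hj'
    rw [eq_div_iff hx'ne, mul_comm, ← hi, h]
  have hj2 : ∀ k, k ≠ i → y j * y k ≠ (p : L) ^ n := by
    intro k hk h
    apply hk
    apply hi'
    rw [hj, div_mul_eq_mul_div, div_eq_iff hx'ne] at h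
    exact mul_left_cancel₀ hpL h
  refine ⟨b, i, j, hij, ?_, fun k hk => hform i k (hi2 k hk),
    fun k hk => hform k i (by rw [mul_comm]; exact hi2 k hk),
    fun k hk => hform j k (hj2 k hk), fun k hk => hform k j (by rw [mul_comm]; exact hj2 k hk), ?_⟩
  · apply lie_torus hF hb
    intro m m' hm
    obtain ⟨h1, -⟩ := hrel m m' hm
    have key : ∀ l : Fin (Module.finrank K V) → ℕ,
        ∑ k, (l k : K) * (if k = i then 1 else if k = j then -1 else 0) = (l i : K) - l j := by
      intro l
      have h2 : ∀ k, (l k : K) * (if k = i then 1 else if k = j then -1 else 0) =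
          (if k = i then (l k : K) else 0) - (if k = j then (l k : K) else 0) := by
        intro k
        by_cases h3 : k = i
        · have h4 : ¬ k = j := fun h => hij (h3.symm.trans h)
          rw [if_pos h3, if_pos h3, if_neg h4, mul_one, sub_zero]
        · by_cases h4 : k = j
          · rw [if_neg h3, if_neg h3, if_pos h4, if_pos h4]
            ring
          · rw [if_neg h3, if_neg h3, if_neg h4, if_neg h4]
            ring
      simp only [h2, Finset.sum_sub_distrib]
      simp
    have h3 := key (fun k => m k)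
    have h4 := key (fun k => m' k)
    rw [h3, h4]
    have h5 : (m i : K) + m' j = m j + m' i := by exact_mod_cast h1
    linear_combination h5
  · intro ν hν
    have h1 : ν • (1 : Module.End K V) = dg b (fun _ => ν) := by
      apply b.ext
      intro k
      rw [dg_apply, LinearMap.smul_apply, Module.End.one_apply]
    rw [h1]
    apply inCl_torus hF hb
    intro m m' hm
    obtain ⟨-, h2⟩ := hrel m m' hm
    rw [Finset.prod_pow_eq_pow_sum, Finset.prod_pow_eq_pow_sum, h2]

end Pool.Agent.H91S
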