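import Pool.Agent.H91S.JordanP

/-! The semisimple part of an element of the group lies in the Zariski closure. -/

set_option linter.unusedSectionVars false

namespace Pool.Agent.H91S

open Pool.Agent.H91.Mono

variable {K : Type*} [Field K] [CharZero K] {V : Type*} [AddCommGroup V] [Module K V]

theorem jordan_cl [IsAlgClosed K] [FiniteDimensional K V] (Γ : Subgroup (V ≃ₗ[K] V))
    (F : V ≃ₗ[K] V) (hF : F ∈ Γ) :
    ∃ s : V ≃ₗ[K] V, Module.End.IsSemisimple (s : Module.End K V) ∧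
      LinearMap.charpoly (s : V →ₗ[K] V) = LinearMap.charpoly (F : V →ₗ[K] V) ∧
      InCl Γ (s : Module.End K V) ∧ InCl Γ ((s⁻¹ : V ≃ₗ[K] V) : Module.End K V) ∧
      ∀ (ψ : V →ₗ[K] V →ₗ[K] K) (q : K), (∀ u v, ψ (F u) (F v) = q * ψ u v) →
        ∀ u v, ψ (s u) (s v) = q * ψ u v :=
  jordan_cl' Γ F hF

/-- Adding elements of the closure changes neither the closure nor the Lie algebra. -/
theorem closure_ext (Γ Δ : Subgroup (V ≃ₗ[K] V)) (hΔ : ∀ δ ∈ Δ, InCl Γ (δ : Module.End K V)) :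
    (∀ g, InCl Δ g → InCl Γ g) ∧ lie Δ ≤ lie Γ := by
  constructor
  · intro g hg f hf
    exact hg f fun δ hδ => hΔ δ hδ f hf
  · intro x hx f hf
    exact hx f fun δ hδ => hΔ δ hδ f hf

end Pool.Agent.H91S
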