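import Pool.Agent.H91S.Eig
import Pool.Agent.H91S.Jordan

/-! One independent eigenvalue: the Lie algebra element without semisimplicity of the Frobenius. -/

set_option linter.unusedSectionVars false

namespace Pool.Agent.H91S

open Polynomial Pool.Agent.H93Tate Pool.Agent.H91.Mono

variable {p n : ℕ} [hp : Fact p.Prime] {P : ℚ[X]}

theorem eigJ (hn : 0 < n) (hweil : ∀ z : ℂ, aeval z P = 0 → ‖z‖ ^ 2 = (p : ℝ) ^ n) {x : ℂ}
    (hx : Indep ((p : ℂ) ^ n) P x)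
    {K : Type*} [Field K] [CharZero K] [IsAlgClosed K] {V : Type*}
    [AddCommGroup V] [Module K V] [FiniteDimensional K V] (ψ : V →ₗ[K] V →ₗ[K] K)
    (Γ : Subgroup (V ≃ₗ[K] V)) (F : V ≃ₗ[K] V) (hF : F ∈ Γ)
    (hchar : LinearMap.charpoly (F : V →ₗ[K] V) = P.map (algebraMap ℚ K))
    (hmult : ∀ u v, ψ (F u) (F v) = (p : K) ^ n * ψ u v) :
    ∃ (b : Module.Basis (Fin (Module.finrank K V)) K V) (i j : Fin (Module.finrank K V)), i ≠ j ∧
      dg b (fun k => if k = i then 1 else if k = j then -1 else 0) ∈ lie Γ ∧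
      (∀ k, k ≠ j → ψ (b i) (b k) = 0) ∧ (∀ k, k ≠ j → ψ (b k) (b i) = 0) ∧
      (∀ k, k ≠ i → ψ (b j) (b k) = 0) ∧ (∀ k, k ≠ i → ψ (b k) (b j) = 0) ∧
      ∀ ν : K, ν ≠ 0 → InCl Γ (ν • (1 : Module.End K V)) := by
  obtain ⟨s, hs, hsc, hcl, hcli, hsm⟩ := jordan_cl Γ F hF
  have hΔ : ∀ δ ∈ Γ ⊔ Subgroup.zpowers s, InCl Γ (δ : Module.End K V) := by
    have key : ∀ δ ∈ Γ ⊔ Subgroup.zpowers s, InCl Γ ((δ : V ≃ₗ[K] V) : Module.End K V) ∧
        InCl Γ ((δ⁻¹ : V ≃ₗ[K] V) : Module.End K V) := by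
      intro δ hδ
      rw [Subgroup.zpowers_eq_closure, ← Subgroup.closure_eq Γ, ← Subgroup.closure_union] at hδ
      induction hδ using Subgroup.closure_induction with
      | mem x hx =>
        rcases hx with hx | hx
        · exact ⟨inCl_of_mem hx, inCl_of_mem (Γ.inv_mem hx)⟩
        · rw [Set.mem_singleton_iff] at hx
          subst hx
          exact ⟨hcl, hcli⟩
      | one =>
        refine ⟨inCl_one, ?_⟩
        rw [inv_one]
        exact inCl_one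
      | mul x y _ _ hx hy =>
        refine ⟨inCl_mul hx.1 hy.1, ?_⟩
        rw [mul_inv_rev]
        exact inCl_mul hy.2 hx.2
      | inv x _ hx =>
        refine ⟨hx.2, ?_⟩
        rw [inv_inv]
        exact hx.1
    exact fun δ hδ => (key δ hδ).1
  obtain ⟨h1, h2⟩ := closure_ext Γ (Γ ⊔ Subgroup.zpowers s) hΔ
  obtain ⟨b, i, j, hij, hh, a1, a2, a3, a4, hν⟩ := eig hn hweil hx ψ (Γ ⊔ Subgroup.zpowers s) s
    (le_sup_right (a := Γ) (Subgroup.mem_zpowers s)) hs (hsc.trans hchar) (hsm ψ _ hmult)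
  exact ⟨b, i, j, hij, h2 hh, a1, a2, a3, a4, fun ν h0 => h1 _ (hν ν h0)⟩

end Pool.Agent.H91S
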