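import Mathlib

/-! Linear independence of exponential polynomials. -/

set_option linter.unusedSectionVars false

namespace Pool.Agent.H91S

open Polynomial

variable {K : Type*} [Field K] [CharZero K]

private lemma ExpPoly_zero {p : K[X]} (h : ∀ m : ℕ, p.eval (m : K) = 0) : p = 0 := by
  refine Polynomial.eq_zero_of_infinite_isRoot p ?_
  refine Set.Infinite.mono (s := Set.range fun m : ℕ => (m : K)) ?_ ?_
  · rintro _ ⟨m, rfl⟩
    exact h m
  · exact Set.infinite_range_of_injective Nat.cast_injective

private lemma ExpPoly_lead {p : K[X]} {a b : K} (hab : a ≠ b)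
    (h : C a * taylor 1 p - C b * p = 0) : p = 0 := by
  have h1 : C a * taylor 1 p = C b * p := sub_eq_zero.1 h
  have h2 := congrArg (fun q : K[X] => q.coeff p.natDegree) h1
  simp only [coeff_C_mul] at h2
  have h3 : (taylor 1 p).coeff p.natDegree = p.leadingCoeff := by
    have h4 : (taylor 1 p).natDegree = p.natDegree := natDegree_taylor p 1
    rw [← h4]
    exact leadingCoeff_taylor (1 : K) p
  rw [h3, coeff_natDegree] at h2
  have h5 : (a - b) * p.leadingCoeff = 0 := by
    rw [sub_mul, h2, sub_self]
  rcases mul_eq_zero.1 h5 with h6 | h6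
  · exact absurd (sub_eq_zero.1 h6) hab
  · exact leadingCoeff_eq_zero.1 h6

theorem exp_poly' (s : Finset K) (h0 : ∀ χ ∈ s, χ ≠ 0) (c : K → Polynomial K)
    (h : ∀ m : ℕ, ∑ χ ∈ s, χ ^ m * (c χ).eval (m : K) = 0) : ∀ χ ∈ s, c χ = 0 := by
  classical
  induction s using Finset.induction_on generalizing c with
  | empty => simp
  | insert a s ha ih =>
    have ha0 : a ≠ 0 := h0 a (Finset.mem_insert_self a s)
    have key : ∀ n : ℕ, ∀ c : K → Polynomial K, (c a ≠ 0 → (c a).natDegree < n) →
        (∀ m : ℕ, ∑ χ ∈ insert a s, χ ^ m * (c χ).eval (m : K) = 0) → ∀ χ ∈ s, c χ = 0 := by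
      intro n
      induction n with
      | zero =>
        intro c hn hc
        have hca : c a = 0 := by
          by_contra h
          exact absurd (hn h) (Nat.not_lt_zero _)
        refine ih (fun χ hχ => h0 χ (Finset.mem_insert_of_mem hχ)) c fun m => ?_
        have h1 := hc m
        rw [Finset.sum_insert ha, hca, eval_zero, mul_zero, zero_add] at h1
        exact h1
      | succ n ihn =>
        intro c hn hc χ hχ
        have hχa : χ ≠ a := fun h => ha (h ▸ hχ)
        refine ExpPoly_lead hχa (ihn (fun χ => C χ * taylor 1 (c χ) - C a * c χ) ?_ ?_ χ hχ)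
        · intro hne
          have hca : c a ≠ 0 := by
            intro h
            apply hne
            simp only [h, map_zero, mul_zero, sub_zero]
          have h1 : (C a * taylor 1 (c a) - C a * c a).degree < (c a).degree := by
            rw [← mul_sub, degree_C_mul ha0]
            have h2 : (taylor 1 (c a)).degree = (c a).degree := degree_taylor (c a) 1
            rw [← h2]
            refine degree_sub_lt_left h2 ?_ (leadingCoeff_taylor (1 : K) (c a))
            intro h3
            exact hca ((taylor_eq_zero 1 (c a)).1 h3)
          have h2 := natDegree_lt_natDegree hne h1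
          have h3 := hn hca
          omega
        · intro m
          have h1 := hc m
          have h2 := hc (m + 1)
          have h3 : ∑ χ ∈ insert a s, χ ^ m * (C χ * taylor 1 (c χ) - C a * c χ).eval (m : K) =
              ∑ χ ∈ insert a s, χ ^ (m + 1) * (c χ).eval ((m + 1 : ℕ) : K) -
                a * ∑ χ ∈ insert a s, χ ^ m * (c χ).eval (m : K) := by
            rw [Finset.mul_sum, ← Finset.sum_sub_distrib]
            refine Finset.sum_congr rfl fun χ _ => ?_
            rw [eval_sub, eval_mul, eval_mul, eval_C, eval_C, taylor_eval, Nat.cast_add,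
              Nat.cast_one]
            ring
          rw [h3, h1, h2, mul_zero, sub_zero]
    have hs := key ((c a).natDegree + 1) c (fun _ => Nat.lt_succ_self _) h
    intro χ hχ
    rcases Finset.mem_insert.1 hχ with h1 | h1
    · rw [h1]
      refine ExpPoly_zero fun m => ?_
      have h2 := h m
      rw [Finset.sum_insert ha, Finset.sum_eq_zero, add_zero] at h2
      · rcases mul_eq_zero.1 h2 with h3 | h3
        · exact absurd h3 (pow_ne_zero _ ha0)
        · exact h3
      · intro χ hχ
        rw [hs χ hχ, eval_zero, mul_zero]
    · exact hs χ h1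

end Pool.Agent.H91S
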