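import Pool.Agent.H91S.GenSoA

/-! Eichler transformations generate the special orthogonal group over an algebraically closed
field.

PROOF. `S₀ = Submonoid.closure {EE ψ e w | ψ w e = 0, ψ w w = 0} ≤ S`. Fix `e` with `ψ e e ≠ 0`,
`r v = -nr ψ v` (the reflection in `v`).
(1) for `u ≠ 0`, `ψ u e = 0` there is `w`, `ψ w e = 0`, `ψ w w = 0`, `ψ u w ≠ 0` (needs
`3 ≤ finrank`): if `ψ u u = 0` take `y ⊥ e` with `ψ u y ≠ 0`, `w = y - (ψ y y / (2 ψ u y)) u`; if
`ψ u u ≠ 0` take `z ⊥ e, u` with `ψ z z ≠ 0` and `α` with `ψ u u + α² ψ z z = 0`,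
`w = u + α z`.
(2) `exists_move` (Odd2) for `S₀` and any nonisotropic vector; elements of `S₀` are isometries with
an inverse in `S₀` (`EE_inv`), and `S₀` is stable under conjugation by isometries
(`r * EE e w * r⁻¹ = EE (r e) (r w)`).
(3) for nonisotropic `v`: scale to `ψ v v = ψ e e` (`nr_smul`), `h v = ± e`, `r v = h' * r e * h`, so
`r e * r v = (r e * h' * r e) * h ∈ S₀` and `r v * r e = h' * (r e * h * r e) ∈ S₀`.
(4) `C = {g | g ∈ S₀ ∨ r e * g ∈ S₀}` contains 1 and is closed under left multiplication by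
reflections, hence contains all isometries: same induction as in `iso_mem` (Odd2), which gives
directly `iso_mem'` with hypothesis `∀ v, ψ v v ≠ 0 → ∀ g, g ∈ C → -nr ψ v * g ∈ C` (copy).
(5) determinants: `det (EE e w) = 1` (`EE e w = EE e (w/2) * EE e (w/2)` and an isometry has
determinant `± 1`, or: unipotent), `det (r e) = -1` (matrix in an orthogonal basis containing
`e`, or `det (1 + u vᵀ) = 1 + vᵀ u`); so if `det g = 1` then `g ∈ S₀`. -/

set_option linter.unusedSectionVars false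

namespace Pool.Agent.H91S

open Pool.Agent.H91O

variable {K : Type*} [Field K] [CharZero K] {V : Type*} [AddCommGroup V] [Module K V]
variable {ψ : V →ₗ[K] V →ₗ[K] K}

theorem gen_so [IsAlgClosed K] [FiniteDimensional K V] (hsym : ∀ u v, ψ u v = ψ v u)
    (hnd : ∀ v, (∀ w, ψ v w = 0) → v = 0) (h3 : 3 ≤ Module.finrank K V)
    (S : Submonoid (Module.End K V))
    (hS : ∀ e w, ψ w e = 0 → ψ w w = 0 → EE ψ e w ∈ S) (g : Module.End K V)
    (hg : ∀ x y, ψ (g x) (g y) = ψ x y) (hdet : LinearMap.det g = 1) : g ∈ S := by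
  exact GSo.gen_soA hsym hnd h3 S hS g hg hdet

end Pool.Agent.H91S
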