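import Pool.Agent.H91O.Odd2

/-! Eichler transformations generate the special orthogonal group over an algebraically closed
field. -/

set_option autoImplicit false
set_option linter.unusedSectionVars false

namespace Pool.Agent.H91S.GSo

open Pool.Agent.H91O

variable {K : Type*} [Field K] [CharZero K] {V : Type*} [AddCommGroup V] [Module K V]
variable {ψ : V →ₗ[K] V →ₗ[K] K}

/-- Cartan-Dieudonné, weak form, for a set stable under reflections. -/
lemma iso_mem' [FiniteDimensional K V] (hsym : ∀ u v, ψ u v = ψ v u)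
    (hnd : ∀ v, (∀ w, ψ v w = 0) → v = 0) (S : Set (Module.End K V))
    (hone : (1 : Module.End K V) ∈ S)
    (hback : ∀ v, ψ v v ≠ 0 → ∀ g : Module.End K V, -nr ψ v * g ∈ S → g ∈ S)
    (g : Module.End K V) (hg : ∀ x y, ψ (g x) (g y) = ψ x y) : g ∈ S := by
  classical
  have hsymm : LinearMap.IsSymm (ψ : LinearMap.BilinForm K V) := ⟨fun x y => hsym x y⟩
  let _ : Invertible (2 : K) := invertibleOfNonzero two_ne_zero
  obtain ⟨f, hf⟩ := LinearMap.BilinForm.exists_orthogonal_basis hsymm
  have hfo : ∀ i j, i ≠ j → ψ (f i) (f j) = 0 := fun i j hij => hf hij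
  have hff : ∀ i, ψ (f i) (f i) ≠ 0 := by
    intro i h0
    apply f.ne_zero i
    apply hnd
    intro w
    rw [← f.sum_repr w, map_sum]
    apply Finset.sum_eq_zero
    intro j _
    rw [map_smul]
    by_cases hj : i = j
    · rw [← hj, h0, smul_zero]
    · rw [hfo i j hj, smul_zero]
  have hr2 : ∀ v, ψ v v ≠ 0 → -nr ψ v * -nr ψ v = 1 := by
    intro v hv
    ext x
    rw [neg_mul_neg, Module.End.mul_apply, nr_apply, nr_apply, Module.End.one_apply]
    simp only [map_sub, map_smul, LinearMap.sub_apply, LinearMap.smul_apply, smul_eq_mul]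
    have h1 : (2 / ψ v v * (2 / ψ v v * ψ x v * ψ v v - ψ x v)) = 2 / ψ v v * ψ x v := by
      field_simp
      ring
    rw [h1]
    abel
  have hriso : ∀ v, ψ v v ≠ 0 → ∀ x y, ψ ((-nr ψ v) x) ((-nr ψ v) y) = ψ x y := by
    intro v hv x y
    rw [LinearMap.neg_apply, LinearMap.neg_apply, nr_apply, nr_apply]
    simp only [map_sub, map_smul, map_neg, LinearMap.sub_apply, LinearMap.smul_apply,
      LinearMap.neg_apply, smul_eq_mul, hsym v y]
    field_simp
    ring
  have key : ∀ (s : Finset (Fin (Module.finrank K V))) (g : Module.End K V),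
      (∀ x y, ψ (g x) (g y) = ψ x y) → (∀ j, j ∉ s → g (f j) = f j) → g ∈ S := by
    intro s
    induction s using Finset.induction_on with
    | empty =>
      intro g _ h2
      have : g = 1 := by
        apply f.ext
        intro j
        rw [h2 j (Finset.notMem_empty j)]
        rfl
      rw [this]
      exact hone
    | insert a s has ih =>
      intro g hg h2
      obtain ⟨x, hx⟩ : ∃ x : V, x = f a := ⟨_, rfl⟩
      obtain ⟨y, hy⟩ : ∃ y : V, y = g (f a) := ⟨_, rfl⟩
      have hyy : ψ y y = ψ x x := by rw [hy, hx, hg]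
      have hxx : ψ x x ≠ 0 := by rw [hx]; exact hff a
      have hjx : ∀ j, j ∉ insert a s → ψ (f j) x = 0 := by
        intro j hj
        rw [hx]
        apply hfo
        rintro rfl
        exact hj (Finset.mem_insert_self _ _)
      have hjy : ∀ j, j ∉ insert a s → ψ (f j) y = 0 := by
        intro j hj
        rw [← hjx j hj, hy, hx, ← hg (f j) (f a), h2 j hj]
      -- reflection fixing the earlier vectors
      have hfixv : ∀ v, (∀ j, j ∉ insert a s → ψ (f j) v = 0) → ∀ j, j ∉ insert a s →
          (-nr ψ v) (f j) = f j := by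
        intro v hv j hj
        rw [LinearMap.neg_apply, nr_apply, hv j hj, mul_zero, zero_smul, zero_sub, neg_neg]
      by_cases hA : ψ (x - y) (x - y) = 0
      · have hB : ψ (x + y) (x + y) ≠ 0 := by
          intro hB
          have h3 : (4 : K) * ψ x x = 0 := by
            simp only [map_add, map_sub, LinearMap.add_apply, LinearMap.sub_apply] at hA hB
            linear_combination hA + hB + (-2) * hyy
          rcases mul_eq_zero.1 h3 with h4 | h4
          · norm_num at h4
          · exact hxx h4
        apply hback (x + y) hB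
        apply hback x hxx
        apply ih
        · intro u v
          rw [Module.End.mul_apply, Module.End.mul_apply, Module.End.mul_apply,
            Module.End.mul_apply, hriso x hxx, hriso _ hB, hg]
        · intro j hj
          by_cases hja : j = a
          · subst hja
            rw [Module.End.mul_apply, Module.End.mul_apply, ← hy]
            have h5 : (-nr ψ (x + y)) y = -x := by
              rw [LinearMap.neg_apply, nr_apply]
              have h6 : 2 / ψ (x + y) (x + y) * ψ y (x + y) = 1 := by
                rw [div_mul_eq_mul_div, div_eq_one_iff_eq hB]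
                simp only [map_add, LinearMap.add_apply, hsym y x]
                linear_combination hyy
              rw [h6, one_smul]
              abel
            rw [h5, LinearMap.neg_apply, nr_apply, ← hx]
            have h7 : 2 / ψ x x * ψ (-x) x = -2 := by
              rw [map_neg, LinearMap.neg_apply]
              field_simp
            rw [h7]
            module
          · have hj' : j ∉ insert a s := by
              intro h8
              rcases Finset.mem_insert.1 h8 with h9 | h9
              · exact hja h9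
              · exact hj h9
            rw [Module.End.mul_apply, Module.End.mul_apply, h2 j hj',
              hfixv (x + y) (fun j hj => by rw [map_add, hjx j hj, hjy j hj, add_zero]) j hj',
              hfixv x hjx j hj']
      · apply hback (x - y) hA
        apply ih
        · intro u v
          rw [Module.End.mul_apply, Module.End.mul_apply, hriso _ hA, hg]
        · intro j hj
          by_cases hja : j = a
          · subst hja
            rw [Module.End.mul_apply, ← hy]
            rw [LinearMap.neg_apply, nr_apply]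
            have h6 : 2 / ψ (x - y) (x - y) * ψ y (x - y) = -1 := by
              rw [div_mul_eq_mul_div, div_eq_iff hA]
              simp only [map_sub, LinearMap.sub_apply, hsym y x]
              linear_combination (-1) * hyy
            rw [h6, ← hx]
            module
          · have hj' : j ∉ insert a s := by
              intro h8
              rcases Finset.mem_insert.1 h8 with h9 | h9
              · exact hja h9
              · exact hj h9
            rw [Module.End.mul_apply, h2 j hj',
              hfixv (x - y) (fun j hj => by rw [map_sub, hjx j hj, hjy j hj, sub_zero]) j hj']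
  exact key Finset.univ g hg (fun j hj => absurd (Finset.mem_univ j) hj)


/-- the reflection in `v` -/
noncomputable def rf (ψ : V →ₗ[K] V →ₗ[K] K) (v : V) : Module.End K V := -nr ψ v

lemma rf_apply (v x : V) : rf ψ v x = x - (2 / ψ v v * ψ x v) • v := by
  rw [rf, LinearMap.neg_apply, nr_apply, neg_sub]

lemma rf_sq {v : V} (hv : ψ v v ≠ 0) : rf ψ v * rf ψ v = 1 := by
  ext x
  rw [Module.End.mul_apply, rf_apply, rf_apply, Module.End.one_apply]
  simp only [map_sub, map_smul, LinearMap.sub_apply, LinearMap.smul_apply, smul_eq_mul]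
  have h1 : (2 / ψ v v * (ψ x v - 2 / ψ v v * ψ x v * ψ v v)) = -(2 / ψ v v * ψ x v) := by
    field_simp
    ring
  rw [h1]
  module

lemma rf_iso (hsym : ∀ u v, ψ u v = ψ v u) {v : V} (hv : ψ v v ≠ 0) (x y : V) :
    ψ (rf ψ v x) (rf ψ v y) = ψ x y := by
  rw [rf_apply, rf_apply]
  simp only [map_sub, map_smul, LinearMap.sub_apply, LinearMap.smul_apply, smul_eq_mul, hsym v y]
  field_simp
  ring

lemma det_rf [FiniteDimensional K V] {v : V} (hv : ψ v v ≠ 0) :
    LinearMap.det (rf ψ v) = -1 := by
  have h1 : rf ψ v = LinearMap.transvection ((-(2 / ψ v v)) • ψ.flip v) v := by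
    ext x
    rw [rf_apply, LinearMap.transvection.apply, LinearMap.smul_apply, LinearMap.flip_apply,
      smul_eq_mul]
    module
  rw [h1, LinearMap.transvection.det, LinearMap.smul_apply, LinearMap.flip_apply, smul_eq_mul]
  field_simp
  norm_num

lemma det_EE [FiniteDimensional K V] (hsym : ∀ u v, ψ u v = ψ v u) {e w : V} (h1 : ψ w e = 0)
    (h2 : ψ w w = 0) : LinearMap.det (EE ψ e w) = 1 := by
  have h4 : ψ e w = 0 := by rw [hsym, h1]
  have h3 : EE ψ e w = LinearMap.transvection (-ψ.flip w) (e + (ψ e e / 2) • w) *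
      LinearMap.transvection (ψ.flip e) w := by
    ext x
    rw [EE_apply hsym h1 h2, Module.End.mul_apply, LinearMap.transvection.apply,
      LinearMap.transvection.apply]
    simp only [LinearMap.neg_apply, LinearMap.flip_apply, map_add, map_smul,
      LinearMap.add_apply, LinearMap.smul_apply, smul_eq_mul, h2]
    module
  rw [h3, map_mul, LinearMap.transvection.det, LinearMap.transvection.det]
  simp [h1, h2, h4]

/-- the monoid generated by the Eichler transformations -/
noncomputable def S0 (ψ : V →ₗ[K] V →ₗ[K] K) : Submonoid (Module.End K V) :=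
  Submonoid.closure {x | ∃ e w, ψ w e = 0 ∧ ψ w w = 0 ∧ x = EE ψ e w}

lemma S0_EE {e w : V} (h1 : ψ w e = 0) (h2 : ψ w w = 0) : EE ψ e w ∈ S0 ψ :=
  Submonoid.subset_closure ⟨e, w, h1, h2, rfl⟩

lemma S0_det [FiniteDimensional K V] (hsym : ∀ u v, ψ u v = ψ v u) {h : Module.End K V}
    (hh : h ∈ S0 ψ) : LinearMap.det h = 1 := by
  induction hh using Submonoid.closure_induction with
  | mem x hx =>
    obtain ⟨e, w, h1, h2, rfl⟩ := hx
    exact det_EE hsym h1 h2
  | one => exact map_one _
  | mul x y _ _ hx hy => rw [map_mul, hx, hy, one_mul]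

lemma S0_conj (r r' : Module.End K V) (hr : ∀ x y, ψ (r x) (r y) = ψ x y) (hsym : ∀ u v, ψ u v = ψ v u)
    (h1 : r * r' = 1) (h2 : r' * r = 1) {h : Module.End K V} (hh : h ∈ S0 ψ) :
    r * h * r' ∈ S0 ψ := by
  induction hh using Submonoid.closure_induction with
  | mem x hx =>
    obtain ⟨e, w, h3, h4, rfl⟩ := hx
    have h5 : r * EE ψ e w * r' = EE ψ (r e) (r w) := by
      have h6 : ψ (r w) (r e) = 0 := by rw [hr, h3]
      have h7 : ψ (r w) (r w) = 0 := by rw [hr, h4]
      have h8 : ∀ v, r (r' v) = v := fun v => by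
        rw [← Module.End.mul_apply, h1, Module.End.one_apply]
      have h9 : ∀ v z, ψ (r' v) z = ψ v (r z) := fun v z => by
        rw [← hr (r' v) z, h8]
      ext v
      rw [Module.End.mul_apply, Module.End.mul_apply, EE_apply hsym h3 h4, EE_apply hsym h6 h7]
      simp only [map_add, map_sub, map_smul, h8, h9, hr]
    rw [h5]
    exact S0_EE (by rw [hr, h3]) (by rw [hr, h4])
  | one =>
    rw [mul_one, h1]
    exact one_mem _
  | mul x y _ _ hx hy =>
    have h5 : r * (x * y) * r' = (r * x * r') * (r * y * r') := by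
      calc r * (x * y) * r' = r * x * 1 * y * r' := by simp only [mul_one, mul_assoc]
        _ = r * x * (r' * r) * y * r' := by rw [h2]
        _ = _ := by simp only [mul_assoc]
    rw [h5]
    exact mul_mem hx hy

/-- a nonisotropic vector of the form `x`, `t` or `x + t` -/
lemma exists_aniso (hsym : ∀ u v, ψ u v = ψ v u) {x t : V} (h : ψ x t ≠ 0) :
    ∃ z, (z = x ∨ z = t ∨ z = x + t) ∧ ψ z z ≠ 0 := by
  by_contra hcon
  push Not at hcon
  have h1 := hcon x (Or.inl rfl)
  have h2 := hcon t (Or.inr (Or.inl rfl))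
  have h3 := hcon (x + t) (Or.inr (Or.inr rfl))
  simp only [map_add, LinearMap.add_apply, h1, h2, hsym t x] at h3
  apply h
  have h4 : (2 : K) * ψ x t = 0 := by linear_combination h3
  rcases mul_eq_zero.1 h4 with h5 | h5
  · norm_num at h5
  · exact h5

lemma exists_iso_vec [IsAlgClosed K] [FiniteDimensional K V] (hsym : ∀ u v, ψ u v = ψ v u)
    (hnd : ∀ v, (∀ w, ψ v w = 0) → v = 0) (h3 : 3 ≤ Module.finrank K V) {e : V}
    (he : ψ e e ≠ 0) (u : V) (hu : u ≠ 0) (hue : ψ u e = 0) :
    ∃ w, ψ w e = 0 ∧ ψ w w = 0 ∧ ψ u w ≠ 0 := by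
  have hndu : ∀ x : V, x ≠ 0 → ∃ t, ψ x t ≠ 0 := by
    intro x hx
    by_contra hcon
    push Not at hcon
    exact hx (hnd x hcon)
  have heu : ψ e u = 0 := by rw [hsym, hue]
  by_cases huu : ψ u u = 0
  · obtain ⟨y0, hy0⟩ := hndu u hu
    obtain ⟨y, hy⟩ : ∃ y : V, y = y0 - (ψ y0 e / ψ e e) • e := ⟨_, rfl⟩
    have hye : ψ y e = 0 := by
      rw [hy]
      simp only [map_sub, map_smul, LinearMap.sub_apply, LinearMap.smul_apply, smul_eq_mul]
      field_simp
      ring
    have huy : ψ u y ≠ 0 := by
      rw [hy, map_sub, map_smul, hue, smul_zero, sub_zero]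
      exact hy0
    refine ⟨y - (ψ y y / (2 * ψ u y)) • u, ?_, ?_, ?_⟩
    · simp only [map_sub, map_smul, LinearMap.sub_apply, LinearMap.smul_apply, smul_eq_mul, hye,
        hue]
      ring
    · simp only [map_sub, map_smul, LinearMap.sub_apply, LinearMap.smul_apply, smul_eq_mul, huu,
        hsym y u]
      field_simp
      ring
    · rw [map_sub, map_smul, huu, smul_zero, sub_zero]
      exact huy
  · -- the projection to the complement of `e`, `u`
    obtain ⟨P, hP⟩ : ∃ P : V → V, ∀ x, P x = x - (ψ x e / ψ e e) • e - (ψ x u / ψ u u) • u :=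
      ⟨_, fun _ => rfl⟩
    have hPe : ∀ x, ψ (P x) e = 0 := by
      intro x
      rw [hP]
      simp only [map_sub, map_smul, LinearMap.sub_apply, LinearMap.smul_apply, smul_eq_mul, hue]
      field_simp
      ring
    have hPu : ∀ x, ψ (P x) u = 0 := by
      intro x
      rw [hP]
      simp only [map_sub, map_smul, LinearMap.sub_apply, LinearMap.smul_apply, smul_eq_mul, heu]
      field_simp
      ring
    obtain ⟨x, hx⟩ : ∃ x, P x ≠ 0 := by
      by_contra hcon
      push Not at hcon
      have h4 : (⊤ : Submodule K V) ≤ Submodule.span K ({e, u} : Set V) := by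
        intro x _
        have h5 := hcon x
        rw [hP, sub_sub, sub_eq_zero] at h5
        rw [h5]
        exact Submodule.add_mem _ (Submodule.smul_mem _ _ (Submodule.subset_span (by simp)))
          (Submodule.smul_mem _ _ (Submodule.subset_span (by simp)))
      have h6 : Module.finrank K V ≤ 2 := by
        have h7 := Submodule.finrank_mono h4
        rw [finrank_top] at h7
        classical
        have h8 : Module.finrank K (Submodule.span K (({e, u} : Finset V) : Set V)) ≤
          ({e, u} : Finset V).card := finrank_span_finset_le_card _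
        have h9 : ({e, u} : Finset V).card ≤ 2 := Finset.card_le_two
        rw [Finset.coe_insert, Finset.coe_singleton] at h8
        omega
      omega
    obtain ⟨t, ht⟩ := hndu _ hx
    have ht' : ψ (P x) (P t) ≠ 0 := by
      rw [hP t, map_sub, map_sub, map_smul, map_smul, hPe, hPu, smul_zero, smul_zero, sub_zero,
        sub_zero]
      exact ht
    obtain ⟨z, hz, hzz⟩ := exists_aniso hsym ht'
    have hze : ψ z e = 0 ∧ ψ z u = 0 := by
      rcases hz with rfl | rfl | rfl
      · exact ⟨hPe _, hPu _⟩
      · exact ⟨hPe _, hPu _⟩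
      · simp only [map_add, LinearMap.add_apply, hPe, hPu, add_zero, and_self]
    obtain ⟨α, hα⟩ := IsAlgClosed.exists_pow_nat_eq (-(ψ u u / ψ z z)) (n := 2) (by norm_num)
    refine ⟨u + α • z, ?_, ?_, ?_⟩
    · simp only [map_add, map_smul, LinearMap.add_apply, LinearMap.smul_apply, smul_eq_mul, hue,
        hze.1]
      ring
    · simp only [map_add, map_smul, LinearMap.add_apply, LinearMap.smul_apply, smul_eq_mul,
        hze.2, hsym u z]
      have h5 : α ^ 2 * ψ z z = -ψ u u := by
        rw [hα]
        field_simp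
      linear_combination h5
    · rw [map_add, map_smul, hsym u z, hze.2, smul_zero, add_zero]
      exact huu

/-- products of two reflections, one of them fixed -/
lemma rf_rf_mem [IsAlgClosed K] (hsym : ∀ u v, ψ u v = ψ v u) {e : V} (he : ψ e e ≠ 0)
    (hw : ∀ u, u ≠ 0 → ψ u e = 0 → ∃ w, ψ w e = 0 ∧ ψ w w = 0 ∧ ψ u w ≠ 0) {v : V}
    (hv : ψ v v ≠ 0) : rf ψ e * rf ψ v ∈ S0 ψ ∧ rf ψ v * rf ψ e ∈ S0 ψ := by
  obtain ⟨a, ha⟩ := IsAlgClosed.exists_pow_nat_eq (ψ e e / ψ v v) (n := 2) (by norm_num)
  have ha0 : a ≠ 0 := by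
    rintro rfl
    have h1 : ψ e e / ψ v v ≠ 0 := div_ne_zero he hv
    apply h1
    rw [← ha]
    norm_num
  have hav : ψ (a • v) (a • v) = ψ e e := by
    simp only [map_smul, LinearMap.smul_apply, smul_eq_mul]
    rw [← mul_assoc, ← sq, ha]
    field_simp
  have hrv : rf ψ v = rf ψ (a • v) := by rw [rf, rf, nr_smul v ha0 hv]
  obtain ⟨h, h', hh, hh', hinv, hiso, hmv⟩ := exists_move hsym he (S0 ψ)
    (fun w h1 h2 => S0_EE h1 h2) hw _ hav
  have key : rf ψ (a • v) = h' * rf ψ (h (a • v)) * h := by
    ext x
    rw [Module.End.mul_apply, Module.End.mul_apply, rf_apply, rf_apply, hiso, hiso,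
      LinearMap.map_sub h', LinearMap.map_smul h']
    have h1 : ∀ y, h' (h y) = y := fun y => by
      rw [← Module.End.mul_apply, hinv, Module.End.one_apply]
    rw [h1, h1]
  have key2 : rf ψ v = h' * rf ψ e * h := by
    rw [hrv, key]
    rcases hmv with h1 | h1
    · rw [h1]
    · rw [h1, rf, nr_neg, ← rf]
  have hc : ∀ k ∈ S0 ψ, rf ψ e * k * rf ψ e ∈ S0 ψ := fun k hk =>
    S0_conj _ _ (rf_iso hsym he) hsym (rf_sq he) (rf_sq he) hk
  constructor
  · have h1 : rf ψ e * rf ψ v = (rf ψ e * h' * rf ψ e) * h := by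
      rw [key2]; simp only [mul_assoc]
    rw [h1]
    exact mul_mem (hc _ hh') hh
  · have h1 : rf ψ v * rf ψ e = h' * (rf ψ e * h * rf ψ e) := by
      rw [key2]; simp only [mul_assoc]
    rw [h1]
    exact mul_mem hh' (hc _ hh)

theorem gen_soA [IsAlgClosed K] [FiniteDimensional K V] (hsym : ∀ u v, ψ u v = ψ v u)
    (hnd : ∀ v, (∀ w, ψ v w = 0) → v = 0) (h3 : 3 ≤ Module.finrank K V)
    (S : Submonoid (Module.End K V))
    (hS : ∀ e w, ψ w e = 0 → ψ w w = 0 → EE ψ e w ∈ S) (g : Module.End K V)
    (hg : ∀ x y, ψ (g x) (g y) = ψ x y) (hdet : LinearMap.det g = 1) : g ∈ S := by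
  have hle : S0 ψ ≤ S := by
    rw [S0, Submonoid.closure_le]
    rintro x ⟨e, w, h1, h2, rfl⟩
    exact hS e w h1 h2
  obtain ⟨e, he⟩ : ∃ e, ψ e e ≠ 0 := by
    have h4 : Nontrivial V := Module.nontrivial_of_finrank_pos (R := K) (by omega)
    obtain ⟨x, hx⟩ := exists_ne (0 : V)
    have h5 : ∃ t, ψ x t ≠ 0 := by
      by_contra hcon
      push Not at hcon
      exact hx (hnd x hcon)
    obtain ⟨t, ht⟩ := h5
    obtain ⟨z, -, hz⟩ := exists_aniso hsym ht
    exact ⟨z, hz⟩
  have hw := fun u (h1 : u ≠ 0) (h2 : ψ u e = 0) => exists_iso_vec hsym hnd h3 he u h1 h2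
  have hC : g ∈ {k : Module.End K V | k ∈ S0 ψ ∨ rf ψ e * k ∈ S0 ψ} := by
    refine iso_mem' hsym hnd _ (Or.inl (one_mem _)) (fun v hv k hk => ?_) g hg
    change -nr ψ v * k ∈ S0 ψ ∨ rf ψ e * (-nr ψ v * k) ∈ S0 ψ at hk
    change k ∈ S0 ψ ∨ rf ψ e * k ∈ S0 ψ
    obtain ⟨h1, h2⟩ := rf_rf_mem hsym he hw hv
    rcases hk with hk | hk
    · right
      have h4 : rf ψ e * k = (rf ψ e * rf ψ v) * (-nr ψ v * k) := by
        calc rf ψ e * k = rf ψ e * (rf ψ v * rf ψ v) * k := by rw [rf_sq hv, mul_one]
          _ = _ := by rw [← rf]; simp only [mul_assoc]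
      rw [h4]
      exact mul_mem h1 hk
    · left
      have h4 : k = (rf ψ v * rf ψ e) * (rf ψ e * (-nr ψ v * k)) := by
        calc k = rf ψ v * (rf ψ e * rf ψ e) * rf ψ v * k := by
              rw [rf_sq he, mul_one, rf_sq hv, one_mul]
          _ = _ := by rw [← rf]; simp only [mul_assoc]
      rw [h4]
      exact mul_mem h2 hk
  rcases hC with h1 | h1
  · exact hle h1
  · exfalso
    have h2 := S0_det hsym h1
    rw [map_mul, det_rf he, hdet] at h2
    norm_num at h2

end Pool.Agent.H91S.GSo
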