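import Mathlib

/-! Symplectic transvections generate the symplectic group.

PROOF. Induction on `finrank V - finrank (Fix g)`, `Fix g = ker (g - 1)`. If `g ≠ 1` choose
`v ∉ Fix g`. `tr u s x = x + s ψ(x,u) u`; `tr u s * tr u (-s) = 1`; `tr` preserves `ψ`.
Case 1: `ψ v (g v) ≠ 0`. `u = v - g v`, `s = 1 / ψ (g v) v`: `tr u s (g v) = v` and `tr u s x = x` for
`x ∈ Fix g` (`ψ(x, g v) = ψ(g x, g v) = ψ(x, v)`). So `tr u s * g` fixes `Fix g` and `v`.
Case 2: `ψ v (g v) = 0`. Let `Y = {y | ∀ x ∈ Fix g, ψ x y = 0}`. `v ∉ Fix g = Y^⊥` so some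
`y₁ ∈ Y` has `ψ v y₁ ≠ 0`, similarly `y₂ ∈ Y` with `ψ (g v) y₂ ≠ 0`; one of `y₁, y₂, y₁ + y₂` has
both nonzero (char 0: use `y₁ + t y₂`). `w = v + y`: `ψ(x,w) = ψ(x,v) = ψ(x,gv)` for `x ∈ Fix g`,
`ψ v w ≠ 0`, `ψ (g v) w ≠ 0`. Two transvections `g v ↦ w ↦ v` as in case 1, both fixing
`Fix g`. -/

set_option linter.unusedSectionVars false

namespace Pool.Agent.H91S

variable {K : Type*} [Field K] [CharZero K] {V : Type*} [AddCommGroup V] [Module K V]

/-- symplectic transvection -/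
noncomputable def tr (ψ : V →ₗ[K] V →ₗ[K] K) (u : V) (s : K) : Module.End K V :=
  1 + s • (ψ.flip u).smulRight u

lemma tr_apply (ψ : V →ₗ[K] V →ₗ[K] K) (u : V) (s : K) (v : V) :
    tr ψ u s v = v + s • ψ v u • u := rfl

variable {ψ : V →ₗ[K] V →ₗ[K] K}

private lemma GenSp_neg (halt : ∀ v, ψ v v = 0) (x y : V) : ψ x y = - ψ y x := by
  have h := halt (x + y)
  simp only [map_add, LinearMap.add_apply, halt, zero_add, add_zero] at h
  rw [add_comm] at h
  exact eq_neg_of_add_eq_zero_left h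

private lemma GenSp_inv (halt : ∀ v, ψ v v = 0) (u : V) (s : K) (x : V) :
    tr ψ u (-s) (tr ψ u s x) = x := by
  rw [tr_apply, tr_apply, map_add, map_smul, map_smul, LinearMap.add_apply, LinearMap.smul_apply,
    LinearMap.smul_apply, halt, smul_zero, smul_zero, add_zero, neg_smul, add_assoc, add_neg_cancel,
    add_zero]

private lemma GenSp_iso (halt : ∀ v, ψ v v = 0) (u : V) (s : K) (x y : V) :
    ψ (tr ψ u s x) (tr ψ u s y) = ψ x y := by
  rw [tr_apply, tr_apply]
  simp only [map_add, map_smul, LinearMap.add_apply, LinearMap.smul_apply, halt, smul_eq_mul,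
    mul_zero, add_zero]
  rw [GenSp_neg halt u y]
  ring

private lemma GenSp_move (halt : ∀ v, ψ v v = 0) (a b : V) (h : ψ a b ≠ 0) :
    ∃ u s, tr ψ u s a = b ∧ ∀ x, ψ x a = ψ x b → tr ψ u s x = x := by
  refine ⟨b - a, (ψ a b)⁻¹, ?_, fun x hx => ?_⟩
  · rw [tr_apply, map_sub, halt, sub_zero, smul_smul, inv_mul_cancel₀ h, one_smul]
    abel
  · rw [tr_apply, map_sub, hx, sub_self, zero_smul, smul_zero, add_zero]

private lemma GenSp_sep [FiniteDimensional K V] (halt : ∀ v, ψ v v = 0)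
    (hnd : ∀ v, (∀ w, ψ v w = 0) → v = 0) (F : Submodule K V) (v : V) (hv : v ∉ F) :
    ∃ y, (∀ x ∈ F, ψ x y = 0) ∧ ψ v y ≠ 0 := by
  obtain ⟨φ, hφ, hφF⟩ := F.exists_le_ker_of_notMem hv
  have hinj : Function.Injective ψ.flip := by
    rw [injective_iff_map_eq_zero]
    intro y hy
    refine hnd y fun w => ?_
    rw [GenSp_neg halt]
    have := LinearMap.congr_fun hy w
    rw [LinearMap.flip_apply, LinearMap.zero_apply] at this
    rw [this, neg_zero]
  have hsurj : Function.Surjective ψ.flip := by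
    refine (LinearMap.injective_iff_surjective_of_finrank_eq_finrank ?_).1 hinj
    exact (Subspace.dual_finrank_eq).symm
  obtain ⟨y, hy⟩ := hsurj φ
  refine ⟨y, fun x hx => ?_, ?_⟩
  · have := hφF hx
    rw [LinearMap.mem_ker] at this
    rw [← LinearMap.flip_apply, hy, this]
  · rw [← LinearMap.flip_apply, hy]
    exact hφ

/-- an element of `S` with inverse in `S` that fixes `F` pointwise and moves `a` to `b` -/
private lemma GenSp_step [FiniteDimensional K V] (halt : ∀ v, ψ v v = 0)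
    (hnd : ∀ v, (∀ w, ψ v w = 0) → v = 0) (S : Submonoid (Module.End K V))
    (hS : ∀ u s, tr ψ u s ∈ S) (F : Submodule K V) (a b : V) (ha : a ∉ F) (hb : b ∉ F)
    (hab : ∀ x ∈ F, ψ x a = ψ x b) :
    ∃ t ∈ S, ∃ t' ∈ S, t' * t = 1 ∧ t a = b ∧ (∀ x ∈ F, t x = x) ∧
      (∀ x y, ψ (t x) (t y) = ψ x y) := by
  have one : ∀ a b : V, ψ a b ≠ 0 → (∀ x ∈ F, ψ x a = ψ x b) →
      ∃ t ∈ S, ∃ t' ∈ S, t' * t = 1 ∧ t a = b ∧ (∀ x ∈ F, t x = x) ∧
        (∀ x y, ψ (t x) (t y) = ψ x y) := by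
    intro a b h hab
    obtain ⟨u, s, h1, h2⟩ := GenSp_move halt a b h
    exact ⟨tr ψ u s, hS u s, tr ψ u (-s), hS u (-s), LinearMap.ext fun x => GenSp_inv halt u s x,
      h1, fun x hx => h2 x (hab x hx), GenSp_iso halt u s⟩
  by_cases h : ψ a b = 0
  · obtain ⟨y₁, h1, h1'⟩ := GenSp_sep halt hnd F a ha
    obtain ⟨y₂, h2, h2'⟩ := GenSp_sep halt hnd F b hb
    obtain ⟨y, hy, hya, hyb⟩ : ∃ y, (∀ x ∈ F, ψ x y = 0) ∧ ψ a y ≠ 0 ∧ ψ b y ≠ 0 := by
      by_cases h3 : ψ b y₁ = 0
      · by_cases h4 : ψ a y₂ = 0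
        · refine ⟨y₁ + y₂, fun x hx => ?_, ?_, ?_⟩
          · rw [map_add, h1 x hx, h2 x hx, add_zero]
          · rw [map_add, h4, add_zero]
            exact h1'
          · rw [map_add, h3, zero_add]
            exact h2'
        · exact ⟨y₂, h2, h4, h2'⟩
      · exact ⟨y₁, h1, h1', h3⟩
    have hw1 : ψ a (b + y) ≠ 0 := by
      rw [map_add, h, zero_add]
      exact hya
    have hw2 : ψ (b + y) b ≠ 0 := by
      rw [map_add, LinearMap.add_apply, halt, zero_add, GenSp_neg halt]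
      exact neg_ne_zero.2 hyb
    obtain ⟨t, ht, t', ht', e1, e2, e3, e4⟩ := one a (b + y) hw1 fun x hx => by
      rw [map_add, hy x hx, add_zero]
      exact hab x hx
    obtain ⟨r, hr, r', hr', f1, f2, f3, f4⟩ := one (b + y) b hw2 fun x hx => by
      rw [map_add, hy x hx, add_zero]
    refine ⟨r * t, S.mul_mem hr ht, t' * r', S.mul_mem ht' hr', ?_, ?_, fun x hx => ?_,
      fun x y => ?_⟩
    · rw [mul_assoc, ← mul_assoc r' r t, f1, one_mul, e1]
    · rw [Module.End.mul_apply, e2, f2]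
    · rw [Module.End.mul_apply, e3 x hx, f3 x hx]
    · rw [Module.End.mul_apply, Module.End.mul_apply, f4, e4]
  · exact one a b h hab

theorem gen_sp [FiniteDimensional K V] (halt : ∀ v, ψ v v = 0)
    (hnd : ∀ v, (∀ w, ψ v w = 0) → v = 0) (S : Submonoid (Module.End K V))
    (hS : ∀ u s, tr ψ u s ∈ S) (g : Module.End K V) (hg : ∀ x y, ψ (g x) (g y) = ψ x y) :
    g ∈ S := by
  induction hd : Module.finrank K V - Module.finrank K (LinearMap.ker (g - 1))
    using Nat.strong_induction_on generalizing g with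
  | _ d ih =>
  by_cases hF : LinearMap.ker (g - 1) = ⊤
  · have : g = 1 := by
      rw [LinearMap.ker_eq_top] at hF
      exact sub_eq_zero.1 hF
    rw [this]
    exact S.one_mem
  · obtain ⟨v, -, hv⟩ : ∃ v ∈ (⊤ : Submodule K V), v ∉ LinearMap.ker (g - 1) := by
      have h1 : LinearMap.ker (g - 1) < ⊤ := lt_top_iff_ne_top.2 hF
      exact Set.exists_of_ssubset h1
    have hfix : ∀ x, x ∈ LinearMap.ker (g - 1) ↔ g x = x := by
      intro x
      rw [LinearMap.mem_ker, LinearMap.sub_apply, Module.End.one_apply, sub_eq_zero]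
    have hginj : ∀ x y, g x = g y → x = y := by
      intro x y hxy
      rw [← sub_eq_zero]
      refine hnd _ fun w => ?_
      rw [← hg, map_sub, hxy, sub_self, map_zero, LinearMap.zero_apply]
    have hgv : g v ∉ LinearMap.ker (g - 1) := by
      rw [hfix] at hv ⊢
      exact fun h => hv (hginj _ _ h)
    obtain ⟨t, ht, t', ht', e1, e2, e3, e4⟩ := GenSp_step halt hnd S hS (LinearMap.ker (g - 1))
      (g v) v hgv hv fun x hx => by
        rw [hfix] at hx
        conv_lhs => rw [← hx]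
        exact hg x v
    have h2 : LinearMap.ker (g - 1) < LinearMap.ker (t * g - 1) := by
      refine lt_of_le_of_ne (fun x hx => ?_) fun h => ?_
      · rw [LinearMap.mem_ker, LinearMap.sub_apply, Module.End.one_apply, sub_eq_zero,
          Module.End.mul_apply, (hfix x).1 hx, e3 x hx]
      · apply hv
        rw [h, LinearMap.mem_ker, LinearMap.sub_apply, Module.End.one_apply, sub_eq_zero,
          Module.End.mul_apply, e2]
    have h3 := Submodule.finrank_lt_finrank_of_lt h2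
    have h4 := Submodule.finrank_le (LinearMap.ker (t * g - 1))
    have h5 := ih _ (by omega) (t * g) (fun x y => by
      rw [Module.End.mul_apply, Module.End.mul_apply, e4, hg]) rfl
    have h6 : g = t' * (t * g) := by rw [← mul_assoc, e1, one_mul]
    rw [h6]
    exact S.mul_mem ht' h5

end Pool.Agent.H91S
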