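import Mathlib

/-! Jordan decomposition: characteristic polynomial and multiplier of the semisimple part. -/

set_option linter.unusedSectionVars false

namespace Pool.Agent.H91S

variable {K : Type*} [Field K] [CharZero K] {V : Type*} [AddCommGroup V] [Module K V]

lemma jor_apply [FiniteDimensional K V] {F s n : Module.End K V} (h : F = n + s)
    (hn : IsNilpotent n) (hs : s.IsSemisimple) (hc : Commute n s) {μ : K} {v : V}
    (hv : v ∈ F.maxGenEigenspace μ) : s v = μ • v := by
  refine Module.End.apply_eq_of_mem_of_comm_of_isFinitelySemisimple_of_isNil hv ?_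
    hs.isFinitelySemisimple ?_
  · rw [h]
    exact hc.add_left (Commute.refl s)
  · rw [h, add_sub_cancel_right]
    exact hn

lemma jor_pow {n t : Module.End K V} (hc : Commute n t) (k : ℕ) :
    ∀ v, t v = 0 → ((n + t) ^ k) v = (n ^ k) v := by
  induction k with
  | zero => intro v _; rw [pow_zero, pow_zero]
  | succ k ih =>
    intro v hv
    have h1 : t (n v) = 0 := by
      rw [← Module.End.mul_apply, ← hc.eq, Module.End.mul_apply, hv, map_zero]
    rw [pow_succ, pow_succ, Module.End.mul_apply, Module.End.mul_apply, LinearMap.add_apply, hv,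
      add_zero, ih _ h1]

lemma jor_maxGen [FiniteDimensional K V] {F s n : Module.End K V} (h : F = n + s)
    (hn : IsNilpotent n) (hs : s.IsSemisimple) (hc : Commute n s) (μ : K) :
    F.maxGenEigenspace μ = s.maxGenEigenspace μ := by
  apply le_antisymm
  · intro v hv
    have h1 := jor_apply h hn hs hc hv
    rw [Module.End.mem_maxGenEigenspace]
    refine ⟨1, ?_⟩
    rw [pow_one, LinearMap.sub_apply, h1, LinearMap.smul_apply, Module.End.one_apply, sub_self]
  · intro v hv
    have h1 : s v = μ • v := by
      refine jor_apply (F := s) (n := 0) (zero_add s).symm ⟨1, pow_one _⟩ hs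
        (Commute.zero_left s) hv
    obtain ⟨k, hk⟩ := hn
    rw [Module.End.mem_maxGenEigenspace]
    refine ⟨k, ?_⟩
    have h2 : F - μ • (1 : Module.End K V) = n + (s - μ • (1 : Module.End K V)) := by
      rw [h, add_sub_assoc]
    have h3 : Commute n (s - μ • (1 : Module.End K V)) :=
      hc.sub_right ((Commute.one_right n).smul_right μ)
    rw [h2, jor_pow h3, hk, LinearMap.zero_apply]
    rw [LinearMap.sub_apply, h1, LinearMap.smul_apply, Module.End.one_apply, sub_self]

lemma jor_charpoly [IsAlgClosed K] [FiniteDimensional K V] {F s n : Module.End K V}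
    (h : F = n + s) (hn : IsNilpotent n) (hs : s.IsSemisimple) (hc : Commute n s) :
    LinearMap.charpoly s = LinearMap.charpoly F := by
  classical
  have h1 : (LinearMap.charpoly s).roots = (LinearMap.charpoly F).roots := by
    ext μ
    rw [Polynomial.count_roots, Polynomial.count_roots, ← LinearMap.finrank_maxGenEigenspace_eq,
      ← LinearMap.finrank_maxGenEigenspace_eq, jor_maxGen h hn hs hc μ]
  have h2 := (IsAlgClosed.splits (LinearMap.charpoly s)).eq_prod_roots_of_monic
    (LinearMap.charpoly_monic s)
  have h3 := (IsAlgClosed.splits (LinearMap.charpoly F)).eq_prod_roots_of_monic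
    (LinearMap.charpoly_monic F)
  rw [h2, h3, h1]

lemma jor_orth (ψ : V →ₗ[K] V →ₗ[K] K) (q : K) (F : Module.End K V)
    (hF : ∀ u v, ψ (F u) (F v) = q * ψ u v) {a b : K} (hab : a * b ≠ q) (m : ℕ) :
    ∀ k l : ℕ, k + l = m → ∀ u v, ((F - a • (1 : Module.End K V)) ^ k) u = 0 →
      ((F - b • (1 : Module.End K V)) ^ l) v = 0 → ψ u v = 0 := by
  induction m using Nat.strong_induction_on with
  | _ m ih =>
  intro k l hkl u v hu hv
  rcases k with _ | k
  · rw [pow_zero, Module.End.one_apply] at hu
    rw [hu, map_zero, LinearMap.zero_apply]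
  rcases l with _ | l
  · rw [pow_zero, Module.End.one_apply] at hv
    rw [hv, map_zero]
  obtain ⟨u', hu'⟩ : ∃ u' : V, u' = (F - a • (1 : Module.End K V)) u := ⟨_, rfl⟩
  obtain ⟨v', hv'⟩ : ∃ v' : V, v' = (F - b • (1 : Module.End K V)) v := ⟨_, rfl⟩
  have hFu : F u = a • u + u' := by
    rw [hu', LinearMap.sub_apply, LinearMap.smul_apply, Module.End.one_apply]
    abel
  have hFv : F v = b • v + v' := by
    rw [hv', LinearMap.sub_apply, LinearMap.smul_apply, Module.End.one_apply]
    abel
  have hu2 : ((F - a • (1 : Module.End K V)) ^ k) u' = 0 := by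
    rw [hu', ← Module.End.mul_apply, ← pow_succ, hu]
  have hv2 : ((F - b • (1 : Module.End K V)) ^ l) v' = 0 := by
    rw [hv', ← Module.End.mul_apply, ← pow_succ, hv]
  have e1 := ih (k + (l + 1)) (by omega) k (l + 1) rfl u' v hu2 hv
  have e2 := ih (k + 1 + l) (by omega) (k + 1) l rfl u v' hu hv2
  have e3 := ih (k + l) (by omega) k l rfl u' v' hu2 hv2
  have e4 := hF u v
  rw [hFu, hFv] at e4
  simp only [map_add, map_smul, LinearMap.add_apply, LinearMap.smul_apply, smul_eq_mul, e1, e2,
    e3] at e4
  have e5 : (a * b - q) * ψ u v = 0 := by linear_combination e4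
  exact (mul_eq_zero.1 e5).resolve_left (sub_ne_zero.2 hab)

lemma jor_mult [IsAlgClosed K] [FiniteDimensional K V] {F s n : Module.End K V}
    (h : F = n + s) (hn : IsNilpotent n) (hs : s.IsSemisimple) (hc : Commute n s)
    (ψ : V →ₗ[K] V →ₗ[K] K) (q : K) (hF : ∀ u v, ψ (F u) (F v) = q * ψ u v) (u v : V) :
    ψ (s u) (s v) = q * ψ u v := by
  have hu : u ∈ ⨆ μ : K, F.maxGenEigenspace μ := by
    rw [Module.End.iSup_maxGenEigenspace_eq_top]
    trivial
  have hv : v ∈ ⨆ μ : K, F.maxGenEigenspace μ := by
    rw [Module.End.iSup_maxGenEigenspace_eq_top]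
    trivial
  refine Submodule.iSup_induction _ (motive := fun u => ψ (s u) (s v) = q * ψ u v) hu ?_ ?_ ?_
  · intro a u hu
    refine Submodule.iSup_induction _ (motive := fun v => ψ (s u) (s v) = q * ψ u v) hv ?_ ?_ ?_
    · intro b v hv
      rw [jor_apply h hn hs hc hu, jor_apply h hn hs hc hv]
      rw [Module.End.mem_maxGenEigenspace] at hu hv
      obtain ⟨k, hk⟩ := hu
      obtain ⟨l, hl⟩ := hv
      by_cases hab : a * b = q
      · rw [← hab]
        simp only [map_smul, LinearMap.smul_apply, smul_eq_mul]
        ring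
      · rw [map_smul, map_smul, LinearMap.smul_apply,
          jor_orth ψ q F hF hab (k + l) k l rfl u v hk hl]
        simp
    · simp
    · intro x y hx hy
      rw [map_add, map_add, map_add, mul_add, hx, hy]
  · simp
  · intro x y hx hy
    rw [map_add, map_add, map_add, LinearMap.add_apply, LinearMap.add_apply, mul_add, hx, hy]

end Pool.Agent.H91S
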