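import Pool.Agent.H91.Mono.Ss2
import Pool.Agent.H91S.ExpPoly

/-! If all powers of `s (1 + N)` (`s` semisimple invertible, `N` nilpotent, commuting) lie in the
Zariski closure of `Γ`, so does `s`. -/

set_option linter.unusedSectionVars false

namespace Pool.Agent.H91S

open Pool.Agent.H91.Mono Polynomial

variable {K : Type*} [Field K] [CharZero K] {V : Type*} [AddCommGroup V] [Module K V]

/-- evaluation `∑ c_χ χ ↦ ∑ c_χ(t) χ ^ m` -/
private noncomputable def JE (m t : ℕ) : MonoidAlgebra (Polynomial K) Kˣ →+* K :=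
  MonoidAlgebra.liftNCRingHom (Polynomial.evalRingHom (t : K))
    ((powMonoidHom m).comp (Units.coeHom K)) (fun _ _ => Commute.all _ _)

private lemma JE_single (m t : ℕ) (χ : Kˣ) (c : Polynomial K) :
    JE m t (MonoidAlgebra.single χ c) = c.eval (t : K) * (χ : K) ^ m := by
  unfold JE
  exact MonoidAlgebra.liftNC_single _ _ _ _

private lemma JE_sum (m t : ℕ) (r : MonoidAlgebra (Polynomial K) Kˣ) :
    JE m t r = ∑ χ ∈ r.coeff.support, (χ : K) ^ m * (r.coeff χ).eval (t : K) := by
  have h1 : r = ∑ χ ∈ r.coeff.support, MonoidAlgebra.single χ (r.coeff χ) := by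
    apply MonoidAlgebra.coeff_injective
    rw [MonoidAlgebra.coeff_sum]
    exact (Finsupp.sum_single r.coeff).symm
  conv_lhs => rw [h1]
  rw [map_sum]
  apply Finset.sum_congr rfl
  intro χ _
  rw [mul_comm]
  exact JE_single m t χ (r.coeff χ)

private lemma JE_zero (r : MonoidAlgebra (Polynomial K) Kˣ) (h : ∀ m : ℕ, JE m m r = 0) :
    r = 0 := by
  classical
  have h1 := exp_poly' (r.coeff.support.map ⟨Units.val, Units.val_injective⟩) (by
    intro χ hχ
    rw [Finset.mem_map] at hχ
    obtain ⟨u, -, rfl⟩ := hχ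
    exact u.ne_zero) (fun χ => if hχ : χ = 0 then 0 else r.coeff (Units.mk0 χ hχ)) (by
    intro m
    rw [Finset.sum_map]
    refine Eq.trans ?_ (h m)
    rw [JE_sum]
    apply Finset.sum_congr rfl
    intro u _
    have h2 : ((⟨Units.val, Units.val_injective⟩ : Kˣ ↪ K) u) = (u : K) := rfl
    rw [h2, dif_neg u.ne_zero, Units.mk0_val])
  apply MonoidAlgebra.coeff_injective
  ext1 u
  by_cases hu : u ∈ r.coeff.support
  · have h2 := h1 (u : K) (Finset.mem_map.2 ⟨u, hu, rfl⟩)
    rw [dif_neg u.ne_zero, Units.mk0_val] at h2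
    rw [h2]
    rfl
  · rw [Finsupp.notMem_support_iff] at hu
    rw [hu]
    rfl

private noncomputable def Jbin (k : ℕ) : Polynomial K :=
  C ((k.factorial : K)⁻¹) * descPochhammer K k

private lemma Jbin_eval (k t : ℕ) : (Jbin k : Polynomial K).eval (t : K) = (t.choose k : K) := by
  rw [Jbin, eval_mul, eval_C, descPochhammer_eval_eq_descFactorial,
    Nat.descFactorial_eq_factorial_mul_choose]
  push_cast
  rw [← mul_assoc, inv_mul_cancel₀ (by exact_mod_cast k.factorial_ne_zero), one_mul]

private lemma Jpow {N : Module.End K V} {n : ℕ} (hN : N ^ n = 0) (t : ℕ) :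
    (1 + N) ^ t = ∑ k ∈ Finset.range n, (t.choose k : K) • N ^ k := by
  have h0 : (1 + N) ^ t = ∑ k ∈ Finset.range (t + 1), (t.choose k : K) • N ^ k := by
    rw [add_comm, (Commute.one_right N).add_pow]
    apply Finset.sum_congr rfl
    intro k _
    rw [one_pow, mul_one, ← nsmul_eq_mul', Nat.cast_smul_eq_nsmul]
  rw [h0]
  have h1 : ∀ k, n ≤ k → (t.choose k : K) • N ^ k = 0 := by
    intro k hk
    rw [pow_eq_zero_of_le hk hN, smul_zero]
  have h2 : ∀ k, t + 1 ≤ k → (t.choose k : K) • N ^ k = 0 := by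
    intro k hk
    rw [Nat.choose_eq_zero_of_lt hk, Nat.cast_zero, zero_smul]
  rcases le_total n (t + 1) with h | h
  · symm
    apply Finset.sum_subset (Finset.range_mono h)
    intro k _ hk
    exact h1 k (by simpa using hk)
  · apply Finset.sum_subset (Finset.range_mono h)
    intro k _ hk
    exact h2 k (by simpa using hk)

theorem incl_of_pow_dg {ι : Type*} [Fintype ι] [DecidableEq ι] (Γ : Subgroup (V ≃ₗ[K] V))
    (b : Module.Basis ι K V) (lam : ι → K) (hlam : ∀ i, lam i ≠ 0) (N : Module.End K V)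
    (hc : Commute (dg b lam) N) (hN : IsNilpotent N)
    (h : ∀ m : ℕ, InCl Γ ((dg b lam * (1 + N)) ^ m)) : InCl Γ (dg b lam) := by
  obtain ⟨n, hN⟩ := hN
  have key : ∀ f : MvPolynomial (Module.Dual K (Module.End K V)) K,
      ∃ r : MonoidAlgebra (Polynomial K) Kˣ, ∀ m t : ℕ,
        ev (dg b lam ^ m * (1 + N) ^ t) f = JE m t r := by
    intro f
    induction f using MvPolynomial.induction_on with
    | C c =>
      refine ⟨MonoidAlgebra.single 1 (C c), fun m t => ?_⟩
      rw [JE_single, eval_C, Units.val_one, one_pow, mul_one]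
      simp [ev]
    | add p q hp hq =>
      obtain ⟨r, hr⟩ := hp
      obtain ⟨r', hr'⟩ := hq
      exact ⟨r + r', fun m t => by rw [map_add, map_add, hr, hr']⟩
    | mul_X p φ hp =>
      obtain ⟨r, hr⟩ := hp
      refine ⟨r * ∑ i, ∑ k ∈ Finset.range n, MonoidAlgebra.single (Units.mk0 (lam i) (hlam i))
        (C (φ (dg b (Pi.single i 1) * N ^ k)) * Jbin k), fun m t => ?_⟩
      rw [map_mul, map_mul, hr, ev_X]
      congr 1
      rw [map_sum, ← dg_pow, dg_eq_sum, Finset.sum_mul, map_sum]
      apply Finset.sum_congr rfl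
      intro i _
      rw [map_sum, Jpow hN, Finset.mul_sum, map_sum]
      apply Finset.sum_congr rfl
      intro k _
      rw [JE_single, eval_mul, eval_C, Jbin_eval, Units.val_mk0, smul_mul_assoc, mul_smul_comm,
        map_smul, map_smul, smul_eq_mul, smul_eq_mul, Pi.pow_apply]
      ring
  intro f hf
  obtain ⟨r, hr⟩ := key f
  have h0 : r = 0 := by
    apply JE_zero
    intro m
    rw [← hr]
    have h1 : dg b lam ^ m * (1 + N) ^ m = (dg b lam * (1 + N)) ^ m := by
      rw [Commute.mul_pow]
      exact (Commute.one_right _).add_right hc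
    rw [h1]
    exact h m f hf
  have h1 := hr 1 0
  rw [pow_one, pow_zero, mul_one, h0, map_zero] at h1
  exact h1

private lemma JA_eigenbasis {K V : Type*} [Field K] [IsAlgClosed K] [AddCommGroup V] [Module K V]
    [FiniteDimensional K V] (s : Module.End K V) (hs : s.IsSemisimple) :
    ∃ (b : Module.Basis (Fin (Module.finrank K V)) K V) (lam : Fin (Module.finrank K V) → K),
      ∀ k, s (b k) = lam k • b k := by
  classical
  let eigenDecomp := DirectSum.isInternal_submodule_of_iSupIndep_of_iSup_eq_top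
    s.eigenspaces_iSupIndep hs.iSup_eigenspace_eq_top
  let I := (ν : K) × Fin (Module.finrank K (s.eigenspace ν))
  let v : Module.Basis I K V :=
    eigenDecomp.collectedBasis fun μ ↦ Module.finBasis K (s.eigenspace μ)
  have : Fintype I := FiniteDimensional.fintypeBasisIndex v
  have hcard : Fintype.card I = Module.finrank K V := (Module.finrank_eq_card_basis v).symm
  let e : I ≃ Fin (Module.finrank K V) := Fintype.equivFinOfCardEq hcard
  refine ⟨v.reindex e, fun k => (e.symm k).1, fun k => ?_⟩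
  rw [Module.Basis.reindex_apply]
  exact Module.End.mem_eigenspace_iff.mp (eigenDecomp.collectedBasis_mem _ (e.symm k))

theorem incl_of_pow_mul [IsAlgClosed K] [FiniteDimensional K V] (Γ : Subgroup (V ≃ₗ[K] V))
    (s N : Module.End K V) (hs : s.IsSemisimple) (hu : IsUnit s) (hc : Commute s N)
    (hN : IsNilpotent N) (h : ∀ m : ℕ, InCl Γ ((s * (1 + N)) ^ m)) : InCl Γ s := by
  obtain ⟨b, lam, hb⟩ := JA_eigenbasis s hs
  have h1 : s = dg b lam := by
    apply b.ext
    intro k
    rw [hb, dg_apply]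
  subst h1
  refine incl_of_pow_dg Γ b lam (fun i hi => ?_) N hc hN h
  have h2 : dg b lam (b i) = 0 := by rw [dg_apply, hi, zero_smul]
  have h3 := (Module.End.isUnit_iff _).1 hu
  have h4 : b i = 0 := h3.1 (by rw [h2, map_zero])
  exact b.ne_zero i h4

theorem incl_of_pow [IsAlgClosed K] [FiniteDimensional K V] (Γ : Subgroup (V ≃ₗ[K] V))
    (s n : Module.End K V) (hs : s.IsSemisimple) (hu : IsUnit s) (hn : IsNilpotent n)
    (hc : Commute n s) (h : ∀ m : ℕ, InCl Γ ((n + s) ^ m)) : InCl Γ s := by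
  obtain ⟨u, rfl⟩ := hu
  have h1 : Commute n (↑u⁻¹ : Module.End K V) := hc.units_inv_right
  have h2 : Commute (u : Module.End K V) (↑u⁻¹ * n : Module.End K V) := by
    refine Commute.mul_right ?_ hc.symm
    show (u : Module.End K V) * ↑u⁻¹ = ↑u⁻¹ * u
    rw [Units.mul_inv, Units.inv_mul]
  refine incl_of_pow_mul Γ (u : Module.End K V) (↑u⁻¹ * n) hs u.isUnit h2 ?_ ?_
  · exact h1.symm.isNilpotent_mul_left hn
  · intro m
    have h3 : (u : Module.End K V) * (1 + ↑u⁻¹ * n) = n + u := by
      rw [mul_add, mul_one, Units.mul_inv_cancel_left, add_comm]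
    rw [h3]
    exact h m

end Pool.Agent.H91S
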