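import Pool.Agent.H91.Mono.Ss2

/-! Irreducibility under the Lie algebra.

PROOF. Let `e = b i`. (a) `p = (h^2 + h)/2` maps every `Stab` subspace `W` into `W ∩ K e` (`h` = the given
element: eigenvalues 1 on `b i`, -1 on `b j`, 0 else), so if `W` is `Stab` then `e ∈ W` or
`b.repr w i = 0` for all `w ∈ W`.
(b) Let `M` be a minimal nonzero `Stab` subspace. The sum of its translates is stable under `Γ`
(`stab_map`), so `= ⊤` by `hirr`; so `e` lies in some translate `U = γ M`, which is minimal.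
(c) Let `T = {γ U}`. If `γ e ∈ sSup T'` for `T' ⊆ T`, some `δ U ∈ T'` contains `γ e` (a), so
`γ U = δ U`. So `T` is `sSupIndep`, hence finite (`WellFoundedGT.finite_of_sSupIndep`),
`sSup T = ⊤` (`hirr`).
(d) `Γ` permutes `T`, the kernel `Δ` has finite index and preserves `U` and
`C = sSup (T \ {U})`, a complement of `U`; the projection onto `U` along `C` commutes with `Δ`,
so it is a scalar by `hsc`, so `U = ⊤` (as `e ≠ 0`). Then every nonzero `Stab` subspace is `⊤`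
because `U = ⊤` is minimal. -/

set_option linter.unusedSectionVars false

namespace Pool.Agent.H91S

open Pool.Agent.H91.Mono
open scoped Classical

variable {K : Type*} [Field K] [CharZero K] {V : Type*} [AddCommGroup V] [Module K V]
  [FiniteDimensional K V]
variable {ι : Type*} [Fintype ι] [DecidableEq ι] {Γ : Subgroup (V ≃ₗ[K] V)}

/-- the coordinate vector lies in every stable subspace with a nonzero coordinate -/
theorem irr_coord (b : Module.Basis ι K V) {i j : ι}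
    (hh : dg b (fun k => if k = i then 1 else if k = j then -1 else 0) ∈ lie Γ)
    {W : Submodule K V} (hW : Stab Γ W) {w : V} (hw : w ∈ W) (hi : b.repr w i ≠ 0) :
    b i ∈ W := by
  set x : ι → K := fun k => if k = i then 1 else if k = j then -1 else 0 with hx
  have h1 := hW _ hh _ hw
  have h2 := hW _ hh _ h1
  have hre : ∀ (y : ι → K) (v : V), dg b y v = ∑ k, (y k * b.repr v k) • b k := by
    intro y v
    conv_lhs => rw [← b.sum_repr v]
    rw [map_sum]
    apply Finset.sum_congr rfl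
    intro k _
    rw [map_smul, dg_apply, smul_smul, mul_comm]
  have h3 : dg b x w + dg b x (dg b x w) = (2 * b.repr w i) • b i := by
    rw [← Module.End.mul_apply (dg b x), ← dg_mul, hre, hre, ← Finset.sum_add_distrib,
      Finset.sum_eq_single i]
    · rw [← add_smul]
      congr 1
      simp only [Pi.mul_apply]
      have : x i = 1 := by simp [x]
      rw [this]
      ring
    · intro k _ hk
      rw [← add_smul]
      have : x k + x k * x k = 0 := by
        by_cases h5 : k = j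
        · simp only [x]; rw [if_neg hk, if_pos h5]; ring
        · simp only [x]; rw [if_neg hk, if_neg h5]; ring
      have h6 : x k * b.repr w k + (x * x) k * b.repr w k = 0 := by
        rw [Pi.mul_apply]
        linear_combination (b.repr w k) * this
      rw [h6, zero_smul]
    · simp
  have h4 := W.add_mem h1 h2
  rw [h3] at h4
  have h5 : (2 * b.repr w i) ≠ 0 := mul_ne_zero two_ne_zero hi
  have h6 := W.smul_mem (2 * b.repr w i)⁻¹ h4
  rwa [smul_smul, inv_mul_cancel₀ h5, one_smul] at h6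

theorem irr_stab_sSup {S : Set (Submodule K V)} (h : ∀ W ∈ S, Stab Γ W) : Stab Γ (sSup S) := by
  intro x hx
  have h1 : sSup S ≤ (sSup S).comap x := by
    apply sSup_le
    intro W hW w hw
    exact (le_sSup hW : W ≤ sSup S) (h W hW x hx w hw)
  intro w hw
  exact h1 hw

theorem irr_stab_inf {W W' : Submodule K V} (h : Stab Γ W) (h' : Stab Γ W') :
    Stab Γ (W ⊓ W') := fun x hx w hw => ⟨h x hx w hw.1, h' x hx w hw.2⟩

theorem irr_map_inv (γ : V ≃ₗ[K] V) (W : Submodule K V) :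
    (W.map (γ : V →ₗ[K] V)).map ((γ⁻¹ : V ≃ₗ[K] V) : V →ₗ[K] V) = W := by
  rw [← Submodule.map_comp]
  have : ((γ⁻¹ : V ≃ₗ[K] V) : V →ₗ[K] V) ∘ₗ (γ : V →ₗ[K] V) = LinearMap.id := by
    ext v
    exact γ.symm_apply_apply v
  rw [this, Submodule.map_id]

theorem irr_map_inv' (γ : V ≃ₗ[K] V) (W : Submodule K V) :
    (W.map ((γ⁻¹ : V ≃ₗ[K] V) : V →ₗ[K] V)).map (γ : V →ₗ[K] V) = W := by
  have := irr_map_inv γ⁻¹ W
  rwa [inv_inv] at this

/-- minimal nonzero stable subspaces -/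
def IrrMin (Γ : Subgroup (V ≃ₗ[K] V)) (U : Submodule K V) : Prop :=
  U ≠ ⊥ ∧ Stab Γ U ∧ ∀ W, Stab Γ W → W ≤ U → W = ⊥ ∨ W = U

theorem IrrMin.map {U : Submodule K V} (hU : IrrMin Γ U) {γ : V ≃ₗ[K] V} (hγ : γ ∈ Γ) :
    IrrMin Γ (U.map (γ : V →ₗ[K] V)) := by
  refine ⟨?_, stab_map hU.2.1 hγ, ?_⟩
  · intro h
    apply hU.1
    rw [← irr_map_inv γ U, h, Submodule.map_bot]
  · intro W hW hle
    have h1 : W.map ((γ⁻¹ : V ≃ₗ[K] V) : V →ₗ[K] V) ≤ U := by
      rw [← irr_map_inv γ U]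
      exact Submodule.map_mono hle
    rcases hU.2.2 _ (stab_map hW (Γ.inv_mem hγ)) h1 with h2 | h2
    · left
      rw [← irr_map_inv' γ W, h2, Submodule.map_bot]
    · right
      rw [← irr_map_inv' γ W, h2]

theorem IrrMin.le {U : Submodule K V} (hU : IrrMin Γ U) {v : V} (hv : v ∈ U) (hv0 : v ≠ 0)
    {W : Submodule K V} (hW : Stab Γ W) (hvW : v ∈ W) : U ≤ W := by
  rcases hU.2.2 _ (irr_stab_inf hU.2.1 hW) inf_le_left with h | h
  · exfalso
    apply hv0
    have : v ∈ U ⊓ W := ⟨hv, hvW⟩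
    rw [h] at this
    exact (Submodule.mem_bot K).1 this
  · exact inf_eq_left.1 h

/-- the set of translates -/
def irrT (Γ : Subgroup (V ≃ₗ[K] V)) (U : Submodule K V) : Set (Submodule K V) :=
  Set.range fun γ : Γ => U.map ((γ : V ≃ₗ[K] V) : V →ₗ[K] V)

theorem irrT_self (U : Submodule K V) : U ∈ irrT Γ U := by
  refine ⟨1, ?_⟩
  show U.map ((((1 : Γ) : V ≃ₗ[K] V)) : V →ₗ[K] V) = U
  exact Submodule.map_id _

theorem irrT_map {U A : Submodule K V} (hA : A ∈ irrT Γ U) (δ : Γ) :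
    A.map ((δ : V ≃ₗ[K] V) : V →ₗ[K] V) ∈ irrT Γ U := by
  obtain ⟨γ, rfl⟩ := hA
  refine ⟨δ * γ, ?_⟩
  show U.map (((δ * γ : Γ) : V ≃ₗ[K] V) : V →ₗ[K] V) =
    (U.map ((γ : V ≃ₗ[K] V) : V →ₗ[K] V)).map ((δ : V ≃ₗ[K] V) : V →ₗ[K] V)
  rw [← Submodule.map_comp]
  rfl

theorem irrT_top (hirr : ∀ W : Submodule K V, (∀ γ ∈ Γ, ∀ w ∈ W, (γ : V ≃ₗ[K] V) w ∈ W) →
      W = ⊥ ∨ W = ⊤) {U : Submodule K V} (hU : U ≠ ⊥) : sSup (irrT Γ U) = ⊤ := by
  have hst : ∀ γ ∈ Γ, ∀ w ∈ sSup (irrT Γ U), (γ : V ≃ₗ[K] V) w ∈ sSup (irrT Γ U) := by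
    intro γ hγ
    have h1 : sSup (irrT Γ U) ≤ (sSup (irrT Γ U)).comap (γ : V →ₗ[K] V) := by
      apply sSup_le
      intro A hA
      rw [← Submodule.map_le_iff_le_comap]
      exact le_sSup (irrT_map hA ⟨γ, hγ⟩)
    intro w hw
    exact h1 hw
  rcases hirr (sSup (irrT Γ U)) hst with h | h
  · exfalso
    apply hU
    rw [eq_bot_iff, ← h]
    exact le_sSup (irrT_self U)
  · exact h

theorem irr_exists {S : Set (Submodule K V)} (φ : V →ₗ[K] K) {v : V} (hv : v ∈ sSup S)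
    (hφ : φ v ≠ 0) : ∃ W ∈ S, ∃ w ∈ W, φ w ≠ 0 := by
  by_contra hcon
  push Not at hcon
  have h1 : sSup S ≤ LinearMap.ker φ := sSup_le fun W hW w hw => hcon W hW w hw
  exact hφ (h1 hv)

theorem irr_abs {e : V} (φ : V →ₗ[K] K) (he : φ e ≠ 0)
    (hp : ∀ W : Submodule K V, Stab Γ W → ∀ w ∈ W, φ w ≠ 0 → e ∈ W)
    (hirr : ∀ W : Submodule K V, (∀ γ ∈ Γ, ∀ w ∈ W, (γ : V ≃ₗ[K] V) w ∈ W) → W = ⊥ ∨ W = ⊤)
    (hsc : ∀ c : Module.End K V, Comm Γ c → ∃ a : K, c = a • (1 : Module.End K V))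
    (W : Submodule K V) (hW : Stab Γ W) : W = ⊥ ∨ W = ⊤ := by
  have he0 : e ≠ 0 := by
    rintro rfl
    exact he (map_zero φ)
  -- a minimal stable subspace
  obtain ⟨M, hM⟩ : ∃ M, IrrMin Γ M := by
    obtain ⟨M, hM⟩ := exists_minimal_of_wellFoundedLT
      (fun W : Submodule K V => Stab Γ W ∧ W ≠ ⊥)
      ⟨⊤, fun _ _ _ _ => Submodule.mem_top, fun h => he0 (by
        have : e ∈ (⊤ : Submodule K V) := Submodule.mem_top
        rw [h] at this
        exact (Submodule.mem_bot K).1 this)⟩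
    refine ⟨M, hM.prop.2, hM.prop.1, ?_⟩
    intro W hW hle
    by_cases h : W = ⊥
    · exact Or.inl h
    · exact Or.inr (le_antisymm hle (hM.le_of_le ⟨hW, h⟩ hle))
  -- a minimal stable subspace which contains `e`
  obtain ⟨U, hU, heU⟩ : ∃ U, IrrMin Γ U ∧ e ∈ U := by
    have h1 : e ∈ sSup (irrT Γ M) := by
      rw [irrT_top hirr hM.1]
      exact Submodule.mem_top
    obtain ⟨A, ⟨γ, rfl⟩, w, hw, hφw⟩ := irr_exists φ h1 he
    have h2 := hM.map γ.2
    exact ⟨_, h2, hp _ h2.2.1 w hw hφw⟩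
  have hTmin : ∀ A ∈ irrT Γ U, IrrMin Γ A := by
    rintro _ ⟨γ, rfl⟩
    exact hU.map γ.2
  -- independence
  have hind : sSupIndep (irrT Γ U) := by
    rintro A ⟨γ, rfl⟩
    have hA : IrrMin Γ (U.map ((γ : V ≃ₗ[K] V) : V →ₗ[K] V)) := hU.map γ.2
    have hS : Stab Γ (sSup (irrT Γ U \ {U.map ((γ : V ≃ₗ[K] V) : V →ₗ[K] V)})) :=
      irr_stab_sSup fun W hW => (hTmin W hW.1).2.1
    rcases hA.2.2 _ (irr_stab_inf hA.2.1 hS) inf_le_left with h | h
    · exact disjoint_iff.2 h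
    · exfalso
      have heA : (γ : V ≃ₗ[K] V) e ∈ U.map ((γ : V ≃ₗ[K] V) : V →ₗ[K] V) :=
        Submodule.mem_map_of_mem heU
      have h1 : (γ : V ≃ₗ[K] V) e ∈ sSup (irrT Γ U \ {U.map ((γ : V ≃ₗ[K] V) : V →ₗ[K] V)}) :=
        (inf_eq_left.1 h) heA
      obtain ⟨B, hB, w, hw, hφw⟩ := irr_exists
        (φ ∘ₗ (((γ : V ≃ₗ[K] V)⁻¹ : V ≃ₗ[K] V) : V →ₗ[K] V)) h1 (by
          show φ ((γ : V ≃ₗ[K] V)⁻¹ ((γ : V ≃ₗ[K] V) e)) ≠ 0
          have : (γ : V ≃ₗ[K] V)⁻¹ ((γ : V ≃ₗ[K] V) e) = e :=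
            (γ : V ≃ₗ[K] V).symm_apply_apply e
          rwa [this])
      have hBm := hTmin B hB.1
      have h2 : e ∈ B.map (((γ : V ≃ₗ[K] V)⁻¹ : V ≃ₗ[K] V) : V →ₗ[K] V) :=
        hp _ (stab_map hBm.2.1 (Γ.inv_mem γ.2)) _ (Submodule.mem_map_of_mem hw) hφw
      have h3 : (γ : V ≃ₗ[K] V) e ∈ B := by
        have := Submodule.mem_map_of_mem (f := ((γ : V ≃ₗ[K] V) : V →ₗ[K] V)) h2
        rwa [irr_map_inv'] at this
      have h4 : (γ : V ≃ₗ[K] V) e ≠ 0 := by
        intro h5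
        exact he0 ((γ : V ≃ₗ[K] V).map_eq_zero_iff.1 h5)
      have h5 := hA.le heA h4 hBm.2.1 h3
      rcases hBm.2.2 _ hA.2.1 h5 with h6 | h6
      · exact hA.1 h6
      · exact hB.2 h6.symm
  have hfin : (irrT Γ U).Finite := WellFoundedGT.finite_of_sSupIndep hind
  -- the kernel of the action on the translates
  let act : MulAction Γ (irrT Γ U) :=
    { smul := fun δ A => ⟨A.1.map ((δ : V ≃ₗ[K] V) : V →ₗ[K] V), irrT_map A.2 δ⟩
      one_smul := by
        intro A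
        apply Subtype.ext
        show A.1.map (((1 : Γ) : V ≃ₗ[K] V) : V →ₗ[K] V) = A.1
        exact Submodule.map_id _
      mul_smul := by
        intro γ δ A
        apply Subtype.ext
        show A.1.map (((γ * δ : Γ) : V ≃ₗ[K] V) : V →ₗ[K] V) =
          (A.1.map ((δ : V ≃ₗ[K] V) : V →ₗ[K] V)).map ((γ : V ≃ₗ[K] V) : V →ₗ[K] V)
        rw [← Submodule.map_comp]
        rfl }
  have : Finite (irrT Γ U) := hfin
  have hfix : ∀ γ : Γ, γ ∈ (MulAction.toPermHom Γ (irrT Γ U)).ker → ∀ A ∈ irrT Γ U,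
      A.map ((γ : V ≃ₗ[K] V) : V →ₗ[K] V) = A := by
    intro γ hγ A hA
    rw [MonoidHom.mem_ker] at hγ
    have h1 := congrArg (fun f : Equiv.Perm (irrT Γ U) => (f ⟨A, hA⟩).1) hγ
    exact h1
  set C := sSup (irrT Γ U \ {U}) with hC
  have hcompl : IsCompl U C := by
    refine ⟨hind (irrT_self U), ?_⟩
    rw [codisjoint_iff, ← top_le_iff, ← irrT_top hirr hU.1]
    apply sSup_le
    intro A hA
    by_cases h : A = U
    · rw [h]; exact le_sup_left
    · exact le_sup_of_le_right (le_sSup ⟨hA, h⟩)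
  have hcomm : Comm Γ (U.projection C hcompl) := by
    refine ⟨(MulAction.toPermHom Γ (irrT Γ U)).ker, Subgroup.finiteIndex_ker _, ?_⟩
    intro γ hγ v
    have hUγ : ∀ u ∈ U, (γ : V ≃ₗ[K] V) u ∈ U := by
      intro u hu
      have := Submodule.mem_map_of_mem (f := ((γ : V ≃ₗ[K] V) : V →ₗ[K] V)) hu
      rw [hfix γ hγ U (irrT_self U)] at this
      exact this
    have hCγ : ∀ u ∈ C, (γ : V ≃ₗ[K] V) u ∈ C := by
      have h1 : C ≤ C.comap ((γ : V ≃ₗ[K] V) : V →ₗ[K] V) := by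
        apply sSup_le
        intro A hA
        rw [← Submodule.map_le_iff_le_comap, hfix γ hγ A hA.1]
        exact le_sSup hA
      intro u hu
      exact h1 hu
    obtain ⟨u, hu, c, hc, rfl⟩ : ∃ u ∈ U, ∃ c ∈ C, u + c = v := by
      have : v ∈ U ⊔ C := by rw [hcompl.sup_eq_top]; exact Submodule.mem_top
      exact Submodule.mem_sup.1 this
    rw [map_add, map_add, map_add, Submodule.projection_apply_of_mem_left hcompl hu,
      Submodule.projection_apply_of_mem_left hcompl (hUγ u hu),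
      (Submodule.projection_apply_eq_zero_iff hcompl).2 hc,
      (Submodule.projection_apply_eq_zero_iff hcompl).2 (hCγ c hc), add_zero, add_zero]
  obtain ⟨a, ha⟩ := hsc _ hcomm
  have ha1 : a = 1 := by
    have h1 : U.projection C hcompl e = a • e := by rw [ha]; rfl
    rw [Submodule.projection_apply_of_mem_left hcompl heU] at h1
    have h2 : (1 - a) • e = 0 := by rw [sub_smul, one_smul, ← h1, sub_self]
    rcases smul_eq_zero.1 h2 with h3 | h3
    · exact (sub_eq_zero.1 h3).symm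
    · exact absurd h3 he0
  have hUtop : U = ⊤ := by
    rw [eq_top_iff]
    intro v _
    have h1 : U.projection C hcompl v = v := by rw [ha, ha1, one_smul]; rfl
    rw [← h1]
    exact Submodule.projection_apply_mem hcompl v
  rw [hUtop] at hU
  exact hU.2.2 W hW le_top

theorem stab_irr (b : Module.Basis ι K V) {i j : ι} (hij : i ≠ j)
    (hh : dg b (fun k => if k = i then 1 else if k = j then -1 else 0) ∈ lie Γ)
    (hirr : ∀ W : Submodule K V, (∀ γ ∈ Γ, ∀ w ∈ W, (γ : V ≃ₗ[K] V) w ∈ W) → W = ⊥ ∨ W = ⊤)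
    (hsc : ∀ c : Module.End K V, Comm Γ c → ∃ a : K, c = a • (1 : Module.End K V))
    (W : Submodule K V) (hW : Stab Γ W) : W = ⊥ ∨ W = ⊤ := by
  refine irr_abs (e := b i) (b.coord i) ?_ ?_ hirr hsc W hW
  · simp
  · intro W' hW' w hw hφ
    exact irr_coord b hh hW' hw hφ

end Pool.Agent.H91S
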