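import Pool.Agent.H91.Mono.Ss2

/-! The Lie algebra of a group of similitudes (no eigenbasis). Same proof as `PSetup.lie_form`
(H91O/Odd1.lean) with the polynomial
`∑ k, ∑ l, C (ψ (b k) (b l)) * X (coefF (b.coord k) u) * X (coefF (b.coord l) v)` in any basis. -/

set_option linter.unusedSectionVars false

namespace Pool.Agent.H91S

open MvPolynomial Pool.Agent.H91.Mono

variable {K : Type*} [Field K] [CharZero K] {V : Type*} [AddCommGroup V] [Module K V]
  [FiniteDimensional K V] {ψ : V →ₗ[K] V →ₗ[K] K} {Γ : Subgroup (V ≃ₗ[K] V)}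

private lemma Skew_bil {ι : Type*} [Fintype ι] (b : Module.Basis ι K V) (p q : V) :
    ψ p q = ∑ k, ∑ l, ψ (b k) (b l) * b.repr p k * b.repr q l := by
  conv_lhs => rw [← b.sum_repr p, ← b.sum_repr q]
  rw [map_sum ψ, LinearMap.sum_apply]
  apply Finset.sum_congr rfl
  intro k _
  rw [map_sum]
  apply Finset.sum_congr rfl
  intro l _
  simp only [map_smul, LinearMap.smul_apply, smul_eq_mul]
  ring

private lemma Skew_pd_sum {ι : Type*} (x : Module.End K V) (s : Finset ι)
    (f : ι → MvPolynomial (Module.Dual K (Module.End K V)) K) :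
    pd x (∑ k ∈ s, f k) = ∑ k ∈ s, pd x (f k) := by
  simp [pd]

theorem lie_skew_gen
    (hsim : ∀ γ ∈ Γ, ∃ μ : K, ∀ u v, ψ ((γ : V ≃ₗ[K] V) u) ((γ : V ≃ₗ[K] V) v) = μ * ψ u v)
    {x : Module.End K V} (hx : x ∈ lie Γ) {u v : V} (huv : ψ u v = 0) :
    ψ (x u) v + ψ u (x v) = 0 := by
  let b := Module.finBasis K V
  have h1 := hx (∑ k, ∑ l, C (ψ (b k) (b l)) * X (coefF (b.coord k) u) *
      X (coefF (b.coord l) v)) (by
    intro γ hγ
    have h2 : ev (γ : Module.End K V) (∑ k, ∑ l, C (ψ (b k) (b l)) *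
        X (coefF (b.coord k) u) * X (coefF (b.coord l) v)) = ψ (γ u) (γ v) := by
      rw [Skew_bil b, map_sum]
      apply Finset.sum_congr rfl
      intro k _
      rw [map_sum]
      apply Finset.sum_congr rfl
      intro l _
      rw [map_mul, map_mul, ev_X, ev_X]
      simp [ev, coefF]
    obtain ⟨μ, hμ⟩ := hsim γ hγ
    rw [h2, hμ u v, huv, mul_zero])
  rw [Skew_pd_sum] at h1
  rw [Skew_bil b (x u), Skew_bil b u, ← Finset.sum_add_distrib, ← h1]
  apply Finset.sum_congr rfl
  intro k _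
  rw [← Finset.sum_add_distrib, Skew_pd_sum]
  apply Finset.sum_congr rfl
  intro l _
  rw [pd_mul, pd_mul, pd_C, pd_X, pd_X, ev_X, map_mul, ev_X]
  have h3 : ev (1 : Module.End K V) (C (ψ (b k) (b l))) = ψ (b k) (b l) := by simp [ev]
  rw [h3]
  simp only [coefF_apply, Module.Basis.coord_apply, Module.End.one_apply]
  ring

end Pool.Agent.H91S
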