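import Pool.Agent.H91O.Odd2

/-! An irreducible Lie algebra of orthogonal similitudes containing `e ∧ f` (a hyperbolic pair)
contains the whole orthogonal Lie algebra.

PROOF. Every `x ∈ L` has a multiplier: `ψ (x u) v + ψ u (x v) = λ ψ u v` (`exists_mul`), so
`[x, XX u w] = XX (x u) w + XX u (x w) - λ XX u w` (`comm_XX`). `H = XX e f` has the eigenvalues
`-c, 0, c` on `XX e a`, `XX a b`, `XX f a` for `a, b` orthogonal to `e`, `f`, which separates the three
parts (`sep3`). `Af` = the `a` orthogonal to `e`, `f` with `XX f a ∈ L`. -/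

set_option linter.unusedSectionVars false

namespace Pool.Agent.H91S

open Pool.Agent.H91O

variable {K : Type*} [Field K] [CharZero K] {V : Type*} [AddCommGroup V] [Module K V]
variable {ψ : V →ₗ[K] V →ₗ[K] K}

lemma XX_swap (a b : V) : XX ψ a b = -XX ψ b a := by
  ext v
  rw [LinearMap.neg_apply, XX_apply, XX_apply]
  abel

lemma XX_self (a : V) : XX ψ a a = 0 := by
  ext v
  rw [XX_apply, sub_self]
  rfl

lemma XX_add_left (a a' b : V) : XX ψ (a + a') b = XX ψ a b + XX ψ a' b := by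
  rw [XX_swap (a + a') b, XX_add, XX_swap a b, XX_swap a' b]
  abel

lemma XX_smul_left (k : K) (a b : V) : XX ψ (k • a) b = k • XX ψ a b := by
  rw [XX_swap (k • a) b, XX_smul, XX_swap a b, smul_neg]

lemma XX_skew (hsym : ∀ u v, ψ u v = ψ v u) (a b u v : V) :
    ψ (XX ψ a b u) v + ψ u (XX ψ a b v) = 0 * ψ u v := by
  rw [XX_apply, XX_apply]
  simp only [map_sub, map_smul, LinearMap.sub_apply, LinearMap.smul_apply, smul_eq_mul]
  rw [hsym v a, hsym v b]
  ring

lemma comm_XX {x : Module.End K V} {lam : K}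
    (hx : ∀ u v, ψ (x u) v + ψ u (x v) = lam * ψ u v) (u w : V) :
    x * XX ψ u w - XX ψ u w * x = XX ψ (x u) w + XX ψ u (x w) - lam • XX ψ u w := by
  ext v
  have h1 := hx v u
  have h2 := hx v w
  have h3 : ψ (x v) u = lam * ψ v u - ψ v (x u) := by linear_combination h1
  have h4 : ψ (x v) w = lam * ψ v w - ψ v (x w) := by linear_combination h2
  simp only [LinearMap.sub_apply, Module.End.mul_apply, LinearMap.add_apply,
    LinearMap.smul_apply, XX_apply, map_sub, map_smul, h3, h4]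
  module

lemma exists_mul {e f : V} (hef : ψ e f ≠ 0) {x : Module.End K V}
    (hsk : ∀ u v, ψ u v = 0 → ψ (x u) v + ψ u (x v) = 0) :
    ∃ lam : K, ∀ u v, ψ (x u) v + ψ u (x v) = lam * ψ u v := by
  obtain ⟨c, hc⟩ : ∃ c, c = ψ e f := ⟨_, rfl⟩
  obtain ⟨lam, hlam⟩ : ∃ lam, lam = (ψ (x e) f + ψ e (x f)) / c := ⟨_, rfl⟩
  have hc0 : c ≠ 0 := by rw [hc]; exact hef
  have h0 : ψ (x e) f + ψ e (x f) = lam * ψ e f := by
    rw [hlam, ← hc]
    field_simp
  have h1 : ∀ v, ψ (x e) v + ψ e (x v) = lam * ψ e v := by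
    intro v
    have h2 := hsk e (v - (ψ e v / c) • f) (by
      rw [map_sub, map_smul, smul_eq_mul, ← hc]
      field_simp
      ring)
    simp only [map_sub, map_smul, smul_eq_mul] at h2
    have h3 : ψ e v / c * ψ e f = ψ e v := by rw [← hc]; field_simp
    linear_combination h2 + (ψ e v / c) * h0 + lam * h3
  have h2 : ∀ u, ψ (x u) f + ψ u (x f) = lam * ψ u f := by
    intro u
    have h3 := hsk (u - (ψ u f / c) • e) f (by
      rw [map_sub, map_smul, LinearMap.sub_apply, LinearMap.smul_apply, smul_eq_mul, ← hc]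
      field_simp
      ring)
    simp only [map_sub, map_smul, LinearMap.sub_apply, LinearMap.smul_apply, smul_eq_mul] at h3
    have h4 : ψ u f / c * ψ e f = ψ u f := by rw [← hc]; field_simp
    linear_combination h3 + (ψ u f / c) * h0 + lam * h4
  refine ⟨lam, fun u v => ?_⟩
  obtain ⟨a, ha⟩ : ∃ a, a = (c - ψ u f) / c := ⟨_, rfl⟩
  have ha' : ψ (u + a • e) f = c := by
    rw [map_add, map_smul, LinearMap.add_apply, LinearMap.smul_apply, smul_eq_mul, ← hc, ha]
    field_simp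
    ring
  obtain ⟨b, hb⟩ : ∃ b, b = -(ψ (u + a • e) v / c) := ⟨_, rfl⟩
  have h3 := hsk (u + a • e) (v + b • f) (by
    rw [map_add, map_smul, smul_eq_mul, ha', hb]
    field_simp
    ring)
  have h5 : ψ (u + a • e) (v + b • f) = 0 := by
    rw [map_add, map_smul, smul_eq_mul, ha', hb]
    field_simp
    ring
  simp only [map_add, map_smul, LinearMap.add_apply, LinearMap.smul_apply, smul_eq_mul] at h3 h5
  linear_combination h3 - a * h1 v - b * h2 u - a * b * h0 - lam * h5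

lemma sep3 (L : Submodule K (Module.End K V))
    (hbr : ∀ x ∈ L, ∀ y ∈ L, x * y - y * x ∈ L) {H P Q R : Module.End K V} {c : K} (hc : c ≠ 0)
    (hH : H ∈ L) (hP : H * P - P * H = -(c • P)) (hQ : H * Q - Q * H = 0)
    (hR : H * R - R * H = c • R) (h : P + Q + R ∈ L) : P ∈ L ∧ R ∈ L := by
  have h1 := hbr _ hH _ h
  have e1 : H * (P + Q + R) - (P + Q + R) * H = c • (R - P) := by
    rw [mul_add, mul_add, add_mul, add_mul, smul_sub, ← hR]
    have h2 : c • P = P * H - H * P := by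
      rw [← neg_eq_iff_eq_neg.2 hP, neg_sub]
    have h3 : H * Q = Q * H := sub_eq_zero.1 hQ
    rw [h2, h3]
    abel
  rw [e1, L.smul_mem_iff hc] at h1
  have h2 := hbr _ hH _ h1
  have e2 : H * (R - P) - (R - P) * H = c • (R + P) := by
    rw [mul_sub, sub_mul, smul_add, ← hR]
    have h2 : c • P = P * H - H * P := by
      rw [← neg_eq_iff_eq_neg.2 hP, neg_sub]
    rw [h2]
    abel
  rw [e2, L.smul_mem_iff hc] at h2
  have h20 : (2 : K) ≠ 0 := two_ne_zero
  constructor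
  · rw [← L.smul_mem_iff h20]
    have h3 := L.sub_mem h2 h1
    have e3 : R + P - (R - P) = (2 : K) • P := by module
    rwa [e3] at h3
  · rw [← L.smul_mem_iff h20]
    have h3 := L.add_mem h2 h1
    have e3 : R + P + (R - P) = (2 : K) • R := by module
    rwa [e3] at h3

/-- the part orthogonal to `e` and `f` -/
noncomputable def md (ψ : V →ₗ[K] V →ₗ[K] K) (c : K) (e f v : V) : V :=
  v - (ψ v f / c) • e - (ψ v e / c) • f

structure HP (ψ : V →ₗ[K] V →ₗ[K] K) (L : Submodule K (Module.End K V)) (c : K) (e f : V) :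
    Prop where
  sym : ∀ u v, ψ u v = ψ v u
  br : ∀ x ∈ L, ∀ y ∈ L, x * y - y * x ∈ L
  mul : ∀ x ∈ L, ∃ lam : K, ∀ u v, ψ (x u) v + ψ u (x v) = lam * ψ u v
  ee : ψ e e = 0
  ff : ψ f f = 0
  ef : ψ e f = c
  c0 : c ≠ 0
  hh : XX ψ e f ∈ L

variable {L : Submodule K (Module.End K V)} {c : K} {e f : V}

lemma HP.fe (h : HP ψ L c e f) : ψ f e = c := by rw [h.sym, h.ef]

lemma HP.swap (h : HP ψ L c e f) : HP ψ L c f e :=
  ⟨h.sym, h.br, h.mul, h.ff, h.ee, h.fe, h.c0, by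
    rw [XX_swap]
    exact L.neg_mem h.hh⟩

lemma md_comm (v : V) : md ψ c f e v = md ψ c e f v := by
  unfold md
  abel

lemma md_dec (v : V) : v = (ψ v f / c) • e + md ψ c e f v + (ψ v e / c) • f := by
  unfold md
  abel

lemma HP.md_e (h : HP ψ L c e f) (v : V) : ψ (md ψ c e f v) e = 0 := by
  unfold md
  simp only [map_sub, map_smul, LinearMap.sub_apply, LinearMap.smul_apply, smul_eq_mul, h.ee,
    h.fe]
  have := h.c0
  field_simp
  ring

lemma HP.md_f (h : HP ψ L c e f) (v : V) : ψ (md ψ c e f v) f = 0 := by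
  rw [← md_comm]
  exact h.swap.md_e v

lemma HP.br' (h : HP ψ L c e f) {x : Module.End K V} (hx : x ∈ L) {u w : V}
    (hu : XX ψ u w ∈ L) : XX ψ (x u) w + XX ψ u (x w) ∈ L := by
  obtain ⟨lam, hlam⟩ := h.mul x hx
  have h1 := h.br x hx _ hu
  rw [comm_XX hlam] at h1
  have h2 := L.add_mem h1 (L.smul_mem lam hu)
  rwa [sub_add_cancel] at h2

lemma HP.H_e (h : HP ψ L c e f) : XX ψ e f e = -(c • e) := by
  rw [XX_apply, h.ee, h.ef]
  module

lemma HP.H_f (h : HP ψ L c e f) : XX ψ e f f = c • f := by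
  rw [XX_apply, h.ff, h.fe]
  module

lemma H_0 {a : V} (ha : ψ a e = 0) (ha' : ψ a f = 0) : XX ψ e f a = 0 := by
  rw [XX_apply, ha, ha']
  module

lemma HP.wtE (h : HP ψ L c e f) {a : V} (ha : ψ a e = 0) (ha' : ψ a f = 0) :
    XX ψ e f * XX ψ e a - XX ψ e a * XX ψ e f = -(c • XX ψ e a) := by
  rw [comm_XX (XX_skew h.sym e f), h.H_e, H_0 ha ha', ← neg_smul, XX_smul_left]
  have : XX ψ e (0 : V) = 0 := by
    have h1 := XX_smul (ψ := ψ) e (0 : V) (0 : K)
    simpa using h1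
  rw [this]
  module

lemma HP.wtF (h : HP ψ L c e f) {a : V} (ha : ψ a e = 0) (ha' : ψ a f = 0) :
    XX ψ e f * XX ψ f a - XX ψ f a * XX ψ e f = c • XX ψ f a := by
  rw [comm_XX (XX_skew h.sym e f), h.H_f, H_0 ha ha', XX_smul_left]
  have : XX ψ f (0 : V) = 0 := by
    have h1 := XX_smul (ψ := ψ) f (0 : V) (0 : K)
    simpa using h1
  rw [this]
  module

lemma HP.wt0 (h : HP ψ L c e f) {a b : V} (ha : ψ a e = 0) (ha' : ψ a f = 0)
    (hb : ψ b e = 0) (hb' : ψ b f = 0) :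
    XX ψ e f * XX ψ a b - XX ψ a b * XX ψ e f = 0 := by
  rw [comm_XX (XX_skew h.sym e f), H_0 ha ha', H_0 hb hb']
  have h1 : XX ψ a (0 : V) = 0 := by
    have h1 := XX_smul (ψ := ψ) a (0 : V) (0 : K)
    simpa using h1
  have h2 : XX ψ (0 : V) b = 0 := by
    have h1 := XX_smul_left (ψ := ψ) (0 : K) (0 : V) b
    simpa using h1
  rw [h1, h2]
  module

lemma HP.P1 (h : HP ψ L c e f) {x : Module.End K V} (hx : x ∈ L) :
    XX ψ f (md ψ c e f (x e)) ∈ L := by
  have h1 := h.br' hx h.hh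
  have e1 : XX ψ (x e) f = (ψ (x e) f / c) • XX ψ e f - XX ψ f (md ψ c e f (x e)) := by
    conv_lhs => rw [md_dec (ψ := ψ) (c := c) (e := e) (f := f) (x e)]
    rw [XX_add_left, XX_add_left, XX_smul_left, XX_smul_left, XX_self,
      XX_swap (md ψ c e f (x e)) f]
    module
  have e2 : XX ψ e (x f) = XX ψ e (md ψ c e f (x f)) + (ψ (x f) e / c) • XX ψ e f := by
    conv_lhs => rw [md_dec (ψ := ψ) (c := c) (e := e) (f := f) (x f)]
    rw [XX_add, XX_add, XX_smul, XX_smul, XX_self]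
    module
  rw [e1, e2] at h1
  have h2 : XX ψ e (md ψ c e f (x f)) + 0 + -XX ψ f (md ψ c e f (x e)) ∈ L := by
    have h3 := L.sub_mem h1 (L.smul_mem (ψ (x e) f / c + ψ (x f) e / c) h.hh)
    convert h3 using 1
    module
  have h3 := (sep3 L h.br h.c0 h.hh (h.wtE (h.md_e _) (h.md_f _)) (by simp) (by
    rw [mul_neg, neg_mul, smul_neg, ← h.wtF (h.md_e (x e)) (h.md_f (x e))]
    abel) h2).2
  rw [← L.neg_mem_iff]
  exact h3

lemma HP.P2 (h : HP ψ L c e f) {x : Module.End K V} (hx : x ∈ L) {a : V} (ha : ψ a e = 0)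
    (ha' : ψ a f = 0) (haL : XX ψ f a ∈ L) : XX ψ f (md ψ c e f (x a)) ∈ L := by
  have h1 := h.br' hx haL
  have e1 : XX ψ (x f) a = (ψ (x f) f / c) • XX ψ e a + XX ψ (md ψ c e f (x f)) a +
      (ψ (x f) e / c) • XX ψ f a := by
    conv_lhs => rw [md_dec (ψ := ψ) (c := c) (e := e) (f := f) (x f)]
    rw [XX_add_left, XX_add_left, XX_smul_left, XX_smul_left]
  have e2 : XX ψ f (x a) = XX ψ f (md ψ c e f (x a)) - (ψ (x a) f / c) • XX ψ e f := by
    conv_lhs => rw [md_dec (ψ := ψ) (c := c) (e := e) (f := f) (x a)]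
    rw [XX_add, XX_add, XX_smul, XX_smul, XX_self, XX_swap f e]
    module
  rw [e1, e2] at h1
  have h2 : (ψ (x f) f / c) • XX ψ e a + XX ψ (md ψ c e f (x f)) a +
      XX ψ f (md ψ c e f (x a)) ∈ L := by
    have h3 := L.add_mem (L.sub_mem h1 (L.smul_mem (ψ (x f) e / c) haL))
      (L.smul_mem (ψ (x a) f / c) h.hh)
    convert h3 using 1
    module
  refine (sep3 L h.br h.c0 h.hh ?_ (h.wt0 (h.md_e _) (h.md_f _) ha ha')
    (h.wtF (h.md_e _) (h.md_f _)) h2).2
  rw [mul_smul_comm, smul_mul_assoc, ← smul_sub, h.wtE ha ha']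
  module

/-- the `a` orthogonal to `e`, `f` with `XX f a ∈ L` -/
def Af (ψ : V →ₗ[K] V →ₗ[K] K) (L : Submodule K (Module.End K V)) (e f : V) :
    Submodule K V where
  carrier := {a | ψ a e = 0 ∧ ψ a f = 0 ∧ XX ψ f a ∈ L}
  zero_mem' := by
    refine ⟨by simp, by simp, ?_⟩
    have h1 := XX_smul (ψ := ψ) f (0 : V) (0 : K)
    rw [smul_zero, zero_smul] at h1
    rw [h1]
    exact L.zero_mem
  add_mem' := by
    rintro a b ⟨h1, h2, h3⟩ ⟨h4, h5, h6⟩
    refine ⟨by rw [map_add, LinearMap.add_apply, h1, h4, add_zero],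
      by rw [map_add, LinearMap.add_apply, h2, h5, add_zero], ?_⟩
    rw [XX_add]
    exact L.add_mem h3 h6
  smul_mem' := by
    rintro k a ⟨h1, h2, h3⟩
    refine ⟨by rw [map_smul, LinearMap.smul_apply, h1, smul_zero],
      by rw [map_smul, LinearMap.smul_apply, h2, smul_zero], ?_⟩
    rw [XX_smul]
    exact L.smul_mem _ h3

lemma mem_Af {a : V} : a ∈ Af ψ L e f ↔ ψ a e = 0 ∧ ψ a f = 0 ∧ XX ψ f a ∈ L := Iff.rfl

lemma HP.A1 (h : HP ψ L c e f) {x : Module.End K V} (hx : x ∈ L) :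
    md ψ c e f (x e) ∈ Af ψ L e f := ⟨h.md_e _, h.md_f _, h.P1 hx⟩

lemma HP.A2 (h : HP ψ L c e f) {x : Module.End K V} (hx : x ∈ L) {a : V}
    (ha : a ∈ Af ψ L e f) : md ψ c e f (x a) ∈ Af ψ L e f :=
  ⟨h.md_e _, h.md_f _, h.P2 hx ha.1 ha.2.1 ha.2.2⟩

lemma HP.P3 (h : HP ψ L c e f) {a a' : V} (ha : a ∈ Af ψ L e f) (ha' : a' ∈ Af ψ L f e) :
    XX ψ a a' ∈ L := by
  have h1 := h.br' ha.2.2 ha'.2.2
  have e1 : XX ψ f a e = c • a := by
    rw [XX_apply, h.ef, h.sym e a, ha.1]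
    module
  have e2 : XX ψ f a a' = -(ψ a' a) • f := by
    rw [XX_apply, ha'.1]
    module
  rw [e1, e2, XX_smul_left, XX_smul] at h1
  rw [← L.smul_mem_iff h.c0]
  have h2 := L.add_mem h1 (L.smul_mem (ψ a' a) h.hh)
  convert h2 using 1
  module

lemma HP.P4 (h : HP ψ L c e f) {a b a' : V} (ha : a ∈ Af ψ L e f) (hb : b ∈ Af ψ L e f)
    (ha' : a' ∈ Af ψ L f e) (hab : ψ b a ≠ 0) : a' ∈ Af ψ L e f := by
  have h1 := h.br' (h.P3 ha ha') hb.2.2
  have e1 : XX ψ a a' f = 0 := by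
    rw [XX_apply, h.sym f a, h.sym f a', ha.2.1, ha'.1]
    module
  have e2 : XX ψ a a' b = ψ b a • a' - ψ b a' • a := XX_apply _ _ _
  have e3 : XX ψ (0 : V) b = 0 := by
    have h1 := XX_smul_left (ψ := ψ) (0 : K) (0 : V) b
    simpa using h1
  rw [e1, e2, e3, zero_add] at h1
  refine ⟨ha'.2.1, ha'.1, ?_⟩
  rw [← L.smul_mem_iff hab]
  have h2 := L.add_mem h1 (L.smul_mem (ψ b a') ha.2.2)
  have e4 : XX ψ f (ψ b a • a' - ψ b a' • a) + ψ b a' • XX ψ f a = ψ b a • XX ψ f a' := by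
    rw [← XX_smul, ← XX_add, sub_add_cancel, XX_smul]
  rwa [e4] at h2

lemma HP.ne (h : HP ψ L c e f) : e ≠ 0 := by
  intro h0
  apply h.c0
  rw [← h.ef, h0, map_zero, LinearMap.zero_apply]

/-- everything orthogonal to `e`, `f` is in `Af e f ⊔ Af f e` -/
lemma HP.top (h : HP ψ L c e f)
    (hirr : ∀ W : Submodule K V, (∀ x ∈ L, ∀ w ∈ W, x w ∈ W) → W = ⊥ ∨ W = ⊤) (v : V)
    (hv : ψ v e = 0) (hv' : ψ v f = 0) : v ∈ Af ψ L e f ⊔ Af ψ L f e := by
  obtain ⟨W, hW⟩ : ∃ W : Submodule K V,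
      W = K ∙ e ⊔ K ∙ f ⊔ (Af ψ L e f ⊔ Af ψ L f e) := ⟨_, rfl⟩
  have he : e ∈ W := by
    rw [hW]
    exact Submodule.mem_sup_left (Submodule.mem_sup_left (Submodule.mem_span_singleton_self e))
  have hf : f ∈ W := by
    rw [hW]
    exact Submodule.mem_sup_left (Submodule.mem_sup_right (Submodule.mem_span_singleton_self f))
  have hA : Af ψ L e f ≤ W := by
    rw [hW]
    exact le_sup_left.trans le_sup_right
  have hA' : Af ψ L f e ≤ W := by
    rw [hW]
    exact le_sup_right.trans le_sup_right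
  have hmd : ∀ u, md ψ c e f u ∈ W → u ∈ W := by
    intro u hu
    rw [md_dec (ψ := ψ) (c := c) (e := e) (f := f) u]
    exact W.add_mem (W.add_mem (W.smul_mem _ he) hu) (W.smul_mem _ hf)
  have hst : ∀ x ∈ L, ∀ w ∈ W, x w ∈ W := by
    intro x hx
    have h1 : W ≤ W.comap x := by
      conv_lhs => rw [hW]
      refine sup_le (sup_le ?_ ?_) (sup_le ?_ ?_)
      · rw [Submodule.span_singleton_le_iff_mem]
        exact hmd _ (hA (h.A1 hx))
      · rw [Submodule.span_singleton_le_iff_mem]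
        refine hmd _ (hA' ?_)
        rw [← md_comm]
        exact h.swap.A1 hx
      · intro a ha
        exact hmd _ (hA (h.A2 hx ha))
      · intro a ha
        refine hmd _ (hA' ?_)
        rw [← md_comm]
        exact h.swap.A2 hx ha
    exact h1
  have hWtop : W = ⊤ := by
    rcases hirr W hst with h1 | h1
    · rw [h1, Submodule.mem_bot] at he
      exact absurd he h.ne
    · exact h1
  have hvW : v ∈ W := by rw [hWtop]; trivial
  rw [hW, Submodule.mem_sup] at hvW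
  obtain ⟨y, hy, z, hz, hyz⟩ := hvW
  rw [Submodule.mem_sup] at hy
  obtain ⟨y1, hy1, y2, hy2, rfl⟩ := hy
  obtain ⟨k1, rfl⟩ := Submodule.mem_span_singleton.1 hy1
  obtain ⟨k2, rfl⟩ := Submodule.mem_span_singleton.1 hy2
  have hze : ψ z e = 0 ∧ ψ z f = 0 := by
    rw [Submodule.mem_sup] at hz
    obtain ⟨z1, hz1, z2, hz2, rfl⟩ := hz
    constructor
    · rw [map_add, LinearMap.add_apply, hz1.1, hz2.2.1, add_zero]
    · rw [map_add, LinearMap.add_apply, hz1.2.1, hz2.1, add_zero]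
  have h1 : k2 * c = 0 := by
    rw [← hyz] at hv
    simp only [map_add, map_smul, LinearMap.add_apply, LinearMap.smul_apply, smul_eq_mul, h.ee,
      h.fe, hze.1] at hv
    linear_combination hv
  have h2 : k1 * c = 0 := by
    rw [← hyz] at hv'
    simp only [map_add, map_smul, LinearMap.add_apply, LinearMap.smul_apply, smul_eq_mul, h.ff,
      h.ef, hze.2] at hv'
    linear_combination hv'
  have h3 : k2 = 0 := (mul_eq_zero.1 h1).resolve_right h.c0
  have h4 : k1 = 0 := (mul_eq_zero.1 h2).resolve_right h.c0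
  rw [← hyz, h3, h4, zero_smul, zero_smul, add_zero, zero_add]
  exact hz

/-- `ψ` is not zero on `Af e f` -/
lemma HP.exists_ne (h : HP ψ L c e f)
    (hirr : ∀ W : Submodule K V, (∀ x ∈ L, ∀ w ∈ W, x w ∈ W) → W = ⊥ ∨ W = ⊤) :
    ∃ a ∈ Af ψ L e f, ∃ b ∈ Af ψ L e f, ψ b a ≠ 0 := by
  by_contra hcon
  push Not at hcon
  obtain ⟨W, hW⟩ : ∃ W : Submodule K V, W = K ∙ e ⊔ Af ψ L e f := ⟨_, rfl⟩
  have he : e ∈ W := by
    rw [hW]
    exact Submodule.mem_sup_left (Submodule.mem_span_singleton_self e)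
  have hA : Af ψ L e f ≤ W := by
    rw [hW]
    exact le_sup_right
  have hmd : ∀ u, md ψ c e f u ∈ W → ψ u e = 0 → u ∈ W := by
    intro u hu hue
    rw [md_dec (ψ := ψ) (c := c) (e := e) (f := f) u, hue, zero_div, zero_smul, add_zero]
    exact W.add_mem (W.smul_mem _ he) hu
  have hst : ∀ x ∈ L, ∀ w ∈ W, x w ∈ W := by
    intro x hx
    obtain ⟨lam, hlam⟩ := h.mul x hx
    have hxe : ψ (x e) e = 0 := by
      have h1 := hlam e e
      rw [h.ee, mul_zero, h.sym e (x e)] at h1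
      have h2 : (2 : K) * ψ (x e) e = 0 := by linear_combination h1
      exact (mul_eq_zero.1 h2).resolve_left two_ne_zero
    have h1 : W ≤ W.comap x := by
      conv_lhs => rw [hW]
      refine sup_le ?_ ?_
      · rw [Submodule.span_singleton_le_iff_mem]
        exact hmd _ (hA (h.A1 hx)) hxe
      · intro a ha
        refine hmd _ (hA (h.A2 hx ha)) ?_
        have h2 := hlam a e
        rw [ha.1, mul_zero] at h2
        have h3 : ψ a (x e) = 0 := by
          rw [md_dec (ψ := ψ) (c := c) (e := e) (f := f) (x e), hxe, zero_div, zero_smul,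
            add_zero, map_add, map_smul, ha.1, smul_zero, zero_add]
          exact hcon _ (h.A1 hx) _ ha
        rwa [h3, add_zero] at h2
    exact h1
  rcases hirr W hst with h1 | h1
  · rw [h1, Submodule.mem_bot] at he
    exact h.ne he
  · have hf : f ∈ W := by rw [h1]; trivial
    rw [hW, Submodule.mem_sup] at hf
    obtain ⟨y, hy, z, hz, hyz⟩ := hf
    obtain ⟨k, rfl⟩ := Submodule.mem_span_singleton.1 hy
    apply h.c0
    rw [← h.fe, ← hyz, map_add, map_smul, LinearMap.add_apply, LinearMap.smul_apply, h.ee,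
      hz.1, smul_zero, add_zero]

lemma HP.all (h : HP ψ L c e f)
    (hirr : ∀ W : Submodule K V, (∀ x ∈ L, ∀ w ∈ W, x w ∈ W) → W = ⊥ ∨ W = ⊤) (v : V)
    (hv : ψ v e = 0) (hv' : ψ v f = 0) : v ∈ Af ψ L e f := by
  obtain ⟨a, ha, b, hb, hab⟩ := h.exists_ne hirr
  have h1 : Af ψ L f e ≤ Af ψ L e f := fun a' ha' => h.P4 ha hb ha' hab
  have h2 := h.top hirr v hv hv'
  rwa [sup_eq_left.2 h1] at h2

theorem so_full (hsym : ∀ u v, ψ u v = ψ v u) (L : Submodule K (Module.End K V))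
    (hbr : ∀ x ∈ L, ∀ y ∈ L, x * y - y * x ∈ L)
    (hsk : ∀ x ∈ L, ∀ u v, ψ u v = 0 → ψ (x u) v + ψ u (x v) = 0)
    (e f : V) (hee : ψ e e = 0) (hff : ψ f f = 0) (hef : ψ e f ≠ 0) (hh : XX ψ e f ∈ L)
    (hirr : ∀ W : Submodule K V, (∀ x ∈ L, ∀ w ∈ W, x w ∈ W) → W = ⊥ ∨ W = ⊤) (u w : V) :
    XX ψ u w ∈ L := by
  have h : HP ψ L (ψ e f) e f :=
    ⟨hsym, hbr, fun x hx => exists_mul hef (hsk x hx), hee, hff, rfl, hef, hh⟩
  generalize ψ e f = c at h
  have hA : ∀ v, md ψ c e f v ∈ Af ψ L e f := fun v => h.all hirr _ (h.md_e v) (h.md_f v)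
  have hA' : ∀ v, md ψ c e f v ∈ Af ψ L f e :=
    fun v => h.swap.all hirr _ (h.md_f v) (h.md_e v)
  have h1 : ∀ v, XX ψ e v ∈ L := by
    intro v
    rw [md_dec (ψ := ψ) (c := c) (e := e) (f := f) v, XX_add, XX_add, XX_smul, XX_smul, XX_self,
      smul_zero, zero_add]
    exact L.add_mem (hA' v).2.2 (L.smul_mem _ h.hh)
  have h2 : ∀ v, XX ψ f v ∈ L := by
    intro v
    rw [md_dec (ψ := ψ) (c := c) (e := e) (f := f) v, XX_add, XX_add, XX_smul, XX_smul, XX_self,
      smul_zero, add_zero]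
    exact L.add_mem (L.smul_mem _ h.swap.hh) (hA v).2.2
  have h3 : ∀ v, XX ψ (md ψ c e f u) v ∈ L := by
    intro v
    rw [md_dec (ψ := ψ) (c := c) (e := e) (f := f) v, XX_add, XX_add, XX_smul, XX_smul]
    refine L.add_mem (L.add_mem (L.smul_mem _ ?_) ?_) (L.smul_mem _ ?_)
    · rw [XX_swap]
      exact L.neg_mem (h1 _)
    · exact h.P3 (hA u) (hA' v)
    · rw [XX_swap]
      exact L.neg_mem (h2 _)
  rw [md_dec (ψ := ψ) (c := c) (e := e) (f := f) u, XX_add_left, XX_add_left, XX_smul_left,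
    XX_smul_left]
  exact L.add_mem (L.add_mem (L.smul_mem _ (h1 w)) (h3 w)) (L.smul_mem _ (h2 w))

end Pool.Agent.H91S
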