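import Mathlib

/-! An irreducible Lie algebra of symplectic similitudes containing `e · f` (a hyperbolic pair)
contains the whole symplectic Lie algebra.

PROOF. `c = ψ e f`, `V0 = {v | ψ v e = 0 ∧ ψ v f = 0}`; `v = (ψ v f / c) e + v0 + (ψ e v / c) f`.
`h = (1/c) YY e f`: `h e = e`, `h f = -f`, `h = 0` on `V0`; `h ∈ L`.
Bracket: `(YY a b)(YY u w) - (YY u w)(YY a b) = YY (YY a b u) w + YY u (YY a b w)`.
(P1) `x ∈ L`, `D x = h x - x h ∈ L`; `x⁽⁻¹⁾ = -D(D-1)(D²-4) x / 6 = (1/c) YY f a`, `a` = middle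
part of `x e`, and `x⁽⁻²⁾ = D(D²-1)(D-2) x / 24 = (β/(2c)) YY f f`, `β = ψ(e, x e)/c` (check on
`e`, `f`, `V0`, with `hsk` for `(e,v0)`, `(f,v0)`). So `YY f a ∈ L`, and `YY f f ∈ L` if
`ψ(e, x e) ≠ 0`. Symmetrically with `e`, `f` exchanged.
`A_f = {a ∈ V0 | YY f a ∈ L}`, `A_e = {a ∈ V0 | YY e a ∈ L}`.
(P2) `x ∈ L`, `a ∈ A_f`: middle part of `x a` is in `A_f` ((P1) for `y = [x, YY f a]`:
`y e = c x a - ψ(xe,f) a - ψ(xe,a) f`). Same for `A_e`.
(P3) `[YY f a, YY e a'] = c YY a a' + ψ(a',a) YY e f` for `a ∈ A_f`, `a' ∈ A_e`, so `YY a a' ∈ L`.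
(P4) `[YY f a, YY f b] = ψ(b,a) YY f f`: if `ψ ≠ 0` on `A_f` then `YY f f ∈ L`.
(P5) `[YY f f, YY e a'] = 2c YY f a'`: if `YY f f ∈ L` then `A_e ≤ A_f`; symmetric statement.
(P6) If `YY f f ∉ L`: `K e + A_f` is `L`-stable (`f`-part of `x e` zero by (P1), `f`-part of `x a`
is `-ψ(x e, a)/c = 0` by (P4)), nonzero, does not contain `f`: contradiction. So `YY f f ∈ L`,
symmetrically `YY e e ∈ L`, `A_e = A_f =: A`, `K e + K f + A` is `L`-stable so `= ⊤`, `A = V0`.
Expand `u` and `w`. -/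

set_option linter.unusedSectionVars false

namespace Pool.Agent.H91S

variable {K : Type*} [Field K] [CharZero K] {V : Type*} [AddCommGroup V] [Module K V]

/-- `v ↦ ψ(v,u) w + ψ(v,w) u` -/
noncomputable def YY (ψ : V →ₗ[K] V →ₗ[K] K) (u w : V) : Module.End K V :=
  (ψ.flip u).smulRight w + (ψ.flip w).smulRight u

lemma YY_apply (ψ : V →ₗ[K] V →ₗ[K] K) (u w v : V) :
    YY ψ u w v = ψ v u • w + ψ v w • u := rfl

variable {ψ : V →ₗ[K] V →ₗ[K] K}

/-- graded pieces of an element of a Lie algebra containing a tripotent `h` -/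
theorem graded_mem {A : Type*} [Ring A] [Algebra K A] (L : Submodule K A)
    (hbr : ∀ x ∈ L, ∀ y ∈ L, x * y - y * x ∈ L) {h : A} (hL : h ∈ L) (h3 : h * (h * h) = h)
    {x : A} (hx : x ∈ L) :
    (h * h - h) * x * (h * h + h) ∈ L ∧
      (h * h - h) * x * (1 - h * h) + (1 - h * h) * x * (h * h + h) ∈ L := by
  have h3' : ∀ y, h * (h * (h * y)) = h * y := by
    intro y
    calc h * (h * (h * y)) = h * (h * h) * y := by noncomm_ring
      _ = h * y := by rw [h3]
  have d1 := hbr h hL x hx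
  have d2 := hbr h hL _ d1
  have d3 := hbr h hL _ d2
  have d4 := hbr h hL _ d3
  set D1 := h * x - x * h with hD1
  set D2 := h * D1 - D1 * h with hD2
  set D3 := h * D2 - D2 * h with hD3
  set D4 := h * D3 - D3 * h with hD4
  constructor
  · have key : (h * h - h) * x * (h * h + h) =
        (1 / 6 : K) • (D4 - D2) + (1 / 3 : K) • (D1 - D3) := by
      simp only [hD4, hD3, hD2, hD1, mul_sub, sub_mul, mul_add, mul_assoc, h3', h3]
      module
    rw [key]
    exact L.add_mem (L.smul_mem _ (L.sub_mem d4 d2)) (L.smul_mem _ (L.sub_mem d1 d3))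
  · have key : (h * h - h) * x * (1 - h * h) + (1 - h * h) * x * (h * h + h) =
        D2 - (1 / 3 : K) • (D4 - D2) - D1 - (1 / 3 : K) • (D1 - D3) := by
      simp only [hD4, hD3, hD2, hD1, mul_sub, sub_mul, mul_add, mul_assoc, h3', h3,
        mul_one, one_mul]
      module
    rw [key]
    exact L.sub_mem (L.sub_mem (L.sub_mem d2 (L.smul_mem _ (L.sub_mem d4 d2))) d1)
      (L.smul_mem _ (L.sub_mem d1 d3))

lemma alt_neg (halt : ∀ v, ψ v v = 0) (u v : V) : ψ u v = -ψ v u := by
  have h := halt (u + v)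
  simp only [map_add, LinearMap.add_apply, halt, zero_add, add_zero] at h
  linear_combination h

lemma YY_comm (u w : V) : YY ψ u w = YY ψ w u := by
  unfold YY
  rw [add_comm]

lemma YY_add_right (u w w' : V) : YY ψ u (w + w') = YY ψ u w + YY ψ u w' := by
  ext v
  simp only [YY_apply, LinearMap.add_apply, map_add]
  module

lemma YY_smul_right (u w : V) (a : K) : YY ψ u (a • w) = a • YY ψ u w := by
  ext v
  simp only [YY_apply, LinearMap.smul_apply, map_smul, smul_eq_mul]
  module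

lemma YY_add_left (u u' w : V) : YY ψ (u + u') w = YY ψ u w + YY ψ u' w := by
  rw [YY_comm, YY_add_right, YY_comm w u, YY_comm w u']

lemma YY_smul_left (u w : V) (a : K) : YY ψ (a • u) w = a • YY ψ u w := by
  rw [YY_comm, YY_smul_right, YY_comm w u]

lemma YY_zero_right (u : V) : YY ψ u 0 = 0 := by
  ext v
  simp [YY_apply]

/-- bracket of two elements -/
lemma YY_bracket (halt : ∀ v, ψ v v = 0) (a b u w : V) :
    YY ψ a b * YY ψ u w - YY ψ u w * YY ψ a b =
      YY ψ (YY ψ a b u) w + YY ψ u (YY ψ a b w) := by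
  ext v
  simp only [LinearMap.sub_apply, Module.End.mul_apply, LinearMap.add_apply, YY_apply, map_add,
    map_smul, smul_eq_mul]
  rw [alt_neg halt a u, alt_neg halt a w, alt_neg halt b u, alt_neg halt b w]
  module

/-- the middle part of a vector -/
noncomputable def mid (ψ : V →ₗ[K] V →ₗ[K] K) (e f v : V) : V :=
  v - (ψ v f / ψ e f) • e - (ψ e v / ψ e f) • f

lemma mid_e (halt : ∀ v, ψ v v = 0) {e f : V} (hef : ψ e f ≠ 0) (v : V) :
    ψ e (mid ψ e f v) = 0 := by
  unfold mid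
  simp only [map_sub, map_smul, smul_eq_mul, halt]
  field_simp
  ring

lemma mid_f (halt : ∀ v, ψ v v = 0) {e f : V} (hef : ψ e f ≠ 0) (v : V) :
    ψ f (mid ψ e f v) = 0 := by
  unfold mid
  simp only [map_sub, map_smul, smul_eq_mul, halt]
  rw [alt_neg halt f v, alt_neg halt f e]
  field_simp
  ring

lemma mid_swap (halt : ∀ v, ψ v v = 0) {e f : V} (v : V) :
    mid ψ f e v = mid ψ e f v := by
  unfold mid
  rw [alt_neg halt f e, alt_neg halt v e, alt_neg halt f v, neg_div_neg_eq, neg_div_neg_eq]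
  module

/-- graded pieces of an element of `L`: the two components of negative weight -/
theorem P1 (halt : ∀ v, ψ v v = 0) (L : Submodule K (Module.End K V))
    (hbr : ∀ x ∈ L, ∀ y ∈ L, x * y - y * x ∈ L)
    (hsk : ∀ x ∈ L, ∀ u v, ψ u v = 0 → ψ (x u) v + ψ u (x v) = 0)
    (e f : V) (hef : ψ e f ≠ 0) (hh : YY ψ e f ∈ L) (x : Module.End K V) (hx : x ∈ L) :
    (ψ e (x e) ≠ 0 → YY ψ f f ∈ L) ∧ YY ψ f (mid ψ e f (x e)) ∈ L := by
  set c := ψ e f with hc
  have hfe : ψ f e = -c := alt_neg halt f e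
  set h : Module.End K V := (1 / c) • YY ψ e f with hh'
  have hL : h ∈ L := L.smul_mem _ hh
  have happ : ∀ v, h v = (ψ v f / c) • e - (ψ e v / c) • f := by
    intro v
    rw [hh', LinearMap.smul_apply, YY_apply, alt_neg halt v e]
    module
  have he : h e = e := by
    rw [happ, halt, ← hc, div_self hef, zero_div, one_smul, zero_smul, sub_zero]
  have hf : h f = -f := by
    rw [happ, halt, ← hc, div_self hef, zero_div, one_smul, zero_smul, zero_sub]
  have hhv : ∀ v, h (h v) = (ψ v f / c) • e + (ψ e v / c) • f := by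
    intro v
    rw [happ v, map_sub, map_smul, map_smul, he, hf]
    module
  have h3 : h * (h * h) = h := by
    ext v
    rw [Module.End.mul_apply, Module.End.mul_apply, hhv v, map_add, map_smul, map_smul, he, hf,
      happ v]
    module
  obtain ⟨g1, g2⟩ := graded_mem L hbr hL h3 hx
  constructor
  · intro hne
    have e1 : (h * h - h) * x * (h * h + h) = (2 * ψ e (x e) / c ^ 2) • YY ψ f f := by
      ext v
      have hP : (h * h + h) v = (2 * (ψ v f / c)) • e := by
        rw [LinearMap.add_apply, Module.End.mul_apply, hhv, happ]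
        module
      have hN : ∀ z, (h * h - h) z = (2 * (ψ e z / c)) • f := by
        intro z
        rw [LinearMap.sub_apply, Module.End.mul_apply, hhv, happ]
        module
      rw [Module.End.mul_apply, Module.End.mul_apply, hP, hN, map_smul, map_smul,
        LinearMap.smul_apply, YY_apply, smul_eq_mul, ← two_smul K (ψ v f • f), smul_smul, smul_smul]
      congr 1
      field_simp
    rw [e1] at g1
    have h5 : (2 * ψ e (x e) / c ^ 2) ≠ 0 :=
      div_ne_zero (mul_ne_zero two_ne_zero hne) (pow_ne_zero 2 hef)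
    exact (L.smul_mem_iff h5).1 g1
  · have e2 : (h * h - h) * x * (1 - h * h) + (1 - h * h) * x * (h * h + h) =
        (2 / c) • YY ψ f (mid ψ e f (x e)) := by
      ext v
      have hP : (h * h + h) v = (2 * (ψ v f / c)) • e := by
        rw [LinearMap.add_apply, Module.End.mul_apply, hhv, happ]
        module
      have hN : ∀ z, (h * h - h) z = (2 * (ψ e z / c)) • f := by
        intro z
        rw [LinearMap.sub_apply, Module.End.mul_apply, hhv, happ]
        module
      have hZ : ∀ z, (1 - h * h) z = mid ψ e f z := by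
        intro z
        rw [LinearMap.sub_apply, Module.End.mul_apply, hhv, Module.End.one_apply]
        unfold mid
        module
      have hs : ψ e (x (mid ψ e f v)) = ψ v (mid ψ e f (x e)) := by
        have h6 := hsk x hx e (mid ψ e f v) (mid_e halt hef v)
        have h7 : ψ (x e) (mid ψ e f v) = -ψ v (mid ψ e f (x e)) := by
          unfold mid
          simp only [map_sub, map_smul, smul_eq_mul]
          rw [alt_neg halt (x e) v, alt_neg halt v e, alt_neg halt (x e) e]
          ring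
        rw [h7] at h6
        linear_combination h6
      rw [LinearMap.add_apply, Module.End.mul_apply, Module.End.mul_apply, Module.End.mul_apply,
        Module.End.mul_apply, hP, hN, hZ, map_smul, map_smul, hZ, hs, LinearMap.smul_apply,
        YY_apply]
      module
    rw [e2] at g2
    have h5 : (2 / c) ≠ 0 := div_ne_zero two_ne_zero hef
    exact (L.smul_mem_iff h5).1 g2

lemma mid_decomp (e f v : V) :
    v = (ψ v f / ψ e f) • e + mid ψ e f v + (ψ e v / ψ e f) • f := by
  unfold mid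
  module

lemma mid_add (e f v w : V) : mid ψ e f (v + w) = mid ψ e f v + mid ψ e f w := by
  unfold mid
  rw [map_add, map_add, LinearMap.add_apply, add_div, add_div]
  module

lemma mid_smul (e f v : V) (a : K) : mid ψ e f (a • v) = a • mid ψ e f v := by
  unfold mid
  rw [map_smul, map_smul, LinearMap.smul_apply, smul_eq_mul, smul_eq_mul, mul_div_assoc,
    mul_div_assoc]
  module

lemma mid_sub (e f v w : V) : mid ψ e f (v - w) = mid ψ e f v - mid ψ e f w := by
  unfold mid
  rw [map_sub, map_sub, LinearMap.sub_apply, sub_div, sub_div]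
  module

lemma mid_ff (halt : ∀ v, ψ v v = 0) {e f : V} (hef : ψ e f ≠ 0) : mid ψ e f f = 0 := by
  unfold mid
  rw [halt f, zero_div, div_self hef, zero_smul, one_smul, sub_zero, sub_self]

lemma mid_self {e f : V} (halt : ∀ v, ψ v v = 0) {a : V} (h1 : ψ e a = 0) (h2 : ψ f a = 0) :
    mid ψ e f a = a := by
  unfold mid
  rw [alt_neg halt a f, h1, h2, neg_zero, zero_div, zero_smul, zero_smul, sub_zero, sub_zero]

/-- `a` orthogonal to `e`, `f` with `YY f a ∈ L` -/
def AfS (ψ : V →ₗ[K] V →ₗ[K] K) (e f : V) (L : Submodule K (Module.End K V)) : Submodule K V where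
  carrier := {a | ψ e a = 0 ∧ ψ f a = 0 ∧ YY ψ f a ∈ L}
  add_mem' := by
    rintro a b ⟨h1, h2, h3⟩ ⟨h4, h5, h6⟩
    refine ⟨?_, ?_, ?_⟩
    · rw [map_add, h1, h4, add_zero]
    · rw [map_add, h2, h5, add_zero]
    · rw [YY_add_right]
      exact L.add_mem h3 h6
  zero_mem' := by
    refine ⟨map_zero _, map_zero _, ?_⟩
    rw [YY_zero_right]
    exact L.zero_mem
  smul_mem' := by
    rintro t a ⟨h1, h2, h3⟩
    refine ⟨?_, ?_, ?_⟩
    · rw [map_smul, h1, smul_zero]
    · rw [map_smul, h2, smul_zero]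
    · rw [YY_smul_right]
      exact L.smul_mem _ h3

lemma mem_AfS {e f : V} {L : Submodule K (Module.End K V)} {a : V} :
    a ∈ AfS ψ e f L ↔ ψ e a = 0 ∧ ψ f a = 0 ∧ YY ψ f a ∈ L := Iff.rfl

theorem P1' (halt : ∀ v, ψ v v = 0) (L : Submodule K (Module.End K V))
    (hbr : ∀ x ∈ L, ∀ y ∈ L, x * y - y * x ∈ L)
    (hsk : ∀ x ∈ L, ∀ u v, ψ u v = 0 → ψ (x u) v + ψ u (x v) = 0)
    (e f : V) (hef : ψ e f ≠ 0) (hh : YY ψ e f ∈ L) (x : Module.End K V) (hx : x ∈ L) :
    mid ψ e f (x e) ∈ AfS ψ e f L :=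
  ⟨mid_e halt hef _, mid_f halt hef _, (P1 halt L hbr hsk e f hef hh x hx).2⟩

theorem P2 (halt : ∀ v, ψ v v = 0) (L : Submodule K (Module.End K V))
    (hbr : ∀ x ∈ L, ∀ y ∈ L, x * y - y * x ∈ L)
    (hsk : ∀ x ∈ L, ∀ u v, ψ u v = 0 → ψ (x u) v + ψ u (x v) = 0)
    (e f : V) (hef : ψ e f ≠ 0) (hh : YY ψ e f ∈ L) (x : Module.End K V) (hx : x ∈ L) (a : V)
    (ha : a ∈ AfS ψ e f L) : mid ψ e f (x a) ∈ AfS ψ e f L := by
  obtain ⟨h1, h2, h3⟩ := ha
  refine ⟨mid_e halt hef _, mid_f halt hef _, ?_⟩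
  have h4 := (P1 halt L hbr hsk e f hef hh _ (hbr x hx _ h3)).2
  have h5 : (x * YY ψ f a - YY ψ f a * x) e =
      ψ e f • x a - ψ (x e) f • a - ψ (x e) a • f := by
    rw [LinearMap.sub_apply, Module.End.mul_apply, Module.End.mul_apply, YY_apply, YY_apply, h1,
      zero_smul, add_zero, map_smul]
    module
  rw [h5, mid_sub, mid_sub, mid_smul, mid_smul, mid_smul, mid_ff halt hef, smul_zero, sub_zero,
    mid_self halt h1 h2] at h4
  have h6 : ψ e f • YY ψ f (mid ψ e f (x a)) ∈ L := by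
    have h7 : ψ e f • YY ψ f (mid ψ e f (x a)) =
        YY ψ f (ψ e f • mid ψ e f (x a) - ψ (x e) f • a) + ψ (x e) f • YY ψ f a := by
      rw [sub_eq_add_neg, ← neg_smul, YY_add_right, YY_smul_right, YY_smul_right]
      module
    rw [h7]
    exact L.add_mem h4 (L.smul_mem _ h3)
  exact (L.smul_mem_iff hef).1 h6

/-- (P6) -/
theorem ff_mem (halt : ∀ v, ψ v v = 0) (L : Submodule K (Module.End K V))
    (hbr : ∀ x ∈ L, ∀ y ∈ L, x * y - y * x ∈ L)
    (hsk : ∀ x ∈ L, ∀ u v, ψ u v = 0 → ψ (x u) v + ψ u (x v) = 0)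
    (e f : V) (hef : ψ e f ≠ 0) (hh : YY ψ e f ∈ L)
    (hirr : ∀ W : Submodule K V, (∀ x ∈ L, ∀ w ∈ W, x w ∈ W) → W = ⊥ ∨ W = ⊤) :
    YY ψ f f ∈ L := by
  by_contra hff
  have hiso : ∀ a ∈ AfS ψ e f L, ∀ b ∈ AfS ψ e f L, ψ b a = 0 := by
    intro a ha b hb
    by_contra hne
    apply hff
    have h1 := hbr _ ha.2.2 _ hb.2.2
    rw [YY_bracket halt, YY_apply, YY_apply, halt f, zero_smul, zero_add,
      ha.2.1, zero_smul, alt_neg halt b f, hb.2.1, neg_zero, zero_smul, zero_add, YY_smul_right,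
      YY_comm 0 b, YY_zero_right, zero_add] at h1
    exact (L.smul_mem_iff hne).1 h1
  have hee0 : ∀ x ∈ L, ψ e (x e) = 0 := by
    intro x hx
    by_contra hne
    exact hff ((P1 halt L hbr hsk e f hef hh x hx).1 hne)
  set W : Submodule K V := K ∙ e ⊔ AfS ψ e f L with hW
  have he : e ∈ W := Submodule.mem_sup_left (Submodule.mem_span_singleton_self e)
  have hstab : ∀ x ∈ L, ∀ w ∈ W, x w ∈ W := by
    intro x hx w hw
    obtain ⟨y, hy, a, ha, rfl⟩ := Submodule.mem_sup.1 hw
    obtain ⟨t, rfl⟩ := Submodule.mem_span_singleton.1 hy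
    rw [map_add, map_smul]
    refine W.add_mem (W.smul_mem _ ?_) ?_
    · rw [mid_decomp (ψ := ψ) e f (x e), hee0 x hx, zero_div, zero_smul, add_zero]
      exact W.add_mem (W.smul_mem _ he)
        (Submodule.mem_sup_right (P1' halt L hbr hsk e f hef hh x hx))
    · have h1 : ψ e (x a) = 0 := by
        have h2 := hsk x hx e a ha.1
        have h3 : ψ (x e) a = ψ (mid ψ e f (x e)) a := by
          unfold mid
          rw [hee0 x hx, zero_div, zero_smul, sub_zero, map_sub, map_smul, LinearMap.sub_apply,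
            LinearMap.smul_apply, ha.1, smul_zero, sub_zero]
        rw [h3, hiso a ha _ (P1' halt L hbr hsk e f hef hh x hx), zero_add] at h2
        exact h2
      rw [mid_decomp (ψ := ψ) e f (x a), h1, zero_div, zero_smul, add_zero]
      exact W.add_mem (W.smul_mem _ he)
        (Submodule.mem_sup_right (P2 halt L hbr hsk e f hef hh x hx a ha))
  rcases hirr W hstab with h | h
  · rw [h, Submodule.mem_bot] at he
    apply hef
    rw [he, map_zero, LinearMap.zero_apply]
  · have hf : f ∈ W := by rw [h]; exact Submodule.mem_top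
    obtain ⟨y, hy, a, ha, hya⟩ := Submodule.mem_sup.1 hf
    obtain ⟨t, rfl⟩ := Submodule.mem_span_singleton.1 hy
    apply hef
    rw [← hya, map_add, map_smul, halt e, smul_zero, zero_add]
    exact ha.1

/-- (P5) -/
theorem Af_le (halt : ∀ v, ψ v v = 0) (L : Submodule K (Module.End K V))
    (hbr : ∀ x ∈ L, ∀ y ∈ L, x * y - y * x ∈ L) (e f : V) (hef : ψ e f ≠ 0)
    (hff : YY ψ f f ∈ L) : AfS ψ f e L ≤ AfS ψ e f L := by
  rintro a ⟨h1, h2, h3⟩
  refine ⟨h2, h1, ?_⟩
  have h4 := hbr _ hff _ h3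
  rw [YY_bracket halt, YY_apply, YY_apply, alt_neg halt a f, h1, neg_zero, zero_smul, zero_add,
    YY_zero_right, add_zero, ← two_smul K (ψ e f • f), smul_smul, YY_comm, YY_smul_right,
    YY_comm a f] at h4
  exact (L.smul_mem_iff (mul_ne_zero two_ne_zero hef)).1 h4

theorem sp_full (halt : ∀ v, ψ v v = 0) (L : Submodule K (Module.End K V))
    (hbr : ∀ x ∈ L, ∀ y ∈ L, x * y - y * x ∈ L)
    (hsk : ∀ x ∈ L, ∀ u v, ψ u v = 0 → ψ (x u) v + ψ u (x v) = 0)
    (e f : V) (hef : ψ e f ≠ 0) (hh : YY ψ e f ∈ L)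
    (hirr : ∀ W : Submodule K V, (∀ x ∈ L, ∀ w ∈ W, x w ∈ W) → W = ⊥ ∨ W = ⊤) (u w : V) :
    YY ψ u w ∈ L := by
  have hfe : ψ f e ≠ 0 := by
    rw [alt_neg halt f e]
    exact neg_ne_zero.2 hef
  have hh' : YY ψ f e ∈ L := by
    rw [YY_comm]
    exact hh
  have hff := ff_mem halt L hbr hsk e f hef hh hirr
  have hee := ff_mem halt L hbr hsk f e hfe hh' hirr
  have hle1 := Af_le halt L hbr e f hef hff
  have hle2 := Af_le halt L hbr f e hfe hee
  set W : Submodule K V := (K ∙ e ⊔ K ∙ f) ⊔ AfS ψ e f L with hW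
  have he : e ∈ W :=
    Submodule.mem_sup_left (Submodule.mem_sup_left (Submodule.mem_span_singleton_self e))
  have hf : f ∈ W :=
    Submodule.mem_sup_left (Submodule.mem_sup_right (Submodule.mem_span_singleton_self f))
  have hstab : ∀ x ∈ L, ∀ w ∈ W, x w ∈ W := by
    intro x hx w hw
    obtain ⟨y, hy, a, ha, rfl⟩ := Submodule.mem_sup.1 hw
    obtain ⟨y1, hy1, y2, hy2, rfl⟩ := Submodule.mem_sup.1 hy
    obtain ⟨t, rfl⟩ := Submodule.mem_span_singleton.1 hy1
    obtain ⟨s, rfl⟩ := Submodule.mem_span_singleton.1 hy2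
    rw [map_add, map_add, map_smul, map_smul]
    refine W.add_mem (W.add_mem (W.smul_mem _ ?_) (W.smul_mem _ ?_)) ?_
    · rw [mid_decomp (ψ := ψ) e f (x e)]
      exact W.add_mem (W.add_mem (W.smul_mem _ he)
        (Submodule.mem_sup_right (P1' halt L hbr hsk e f hef hh x hx))) (W.smul_mem _ hf)
    · rw [mid_decomp (ψ := ψ) e f (x f)]
      refine W.add_mem (W.add_mem (W.smul_mem _ he) (Submodule.mem_sup_right ?_)) (W.smul_mem _ hf)
      have h1 := P1' halt L hbr hsk f e hfe hh' x hx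
      rw [mid_swap halt] at h1
      exact hle1 h1
    · rw [mid_decomp (ψ := ψ) e f (x a)]
      exact W.add_mem (W.add_mem (W.smul_mem _ he)
        (Submodule.mem_sup_right (P2 halt L hbr hsk e f hef hh x hx a ha))) (W.smul_mem _ hf)
  have htop : W = ⊤ := by
    rcases hirr W hstab with h | h
    · rw [h, Submodule.mem_bot] at he
      exact absurd (by rw [he, map_zero, LinearMap.zero_apply]) hef
    · exact h
  have hall : ∀ v, mid ψ e f v ∈ AfS ψ e f L := by
    intro v
    have hv : v ∈ W := by rw [htop]; exact Submodule.mem_top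
    obtain ⟨y, hy, a, ha, rfl⟩ := Submodule.mem_sup.1 hv
    obtain ⟨y1, hy1, y2, hy2, rfl⟩ := Submodule.mem_sup.1 hy
    obtain ⟨t, rfl⟩ := Submodule.mem_span_singleton.1 hy1
    obtain ⟨s, rfl⟩ := Submodule.mem_span_singleton.1 hy2
    have hme : mid ψ e f e = 0 := by
      rw [← mid_swap halt]
      exact mid_ff halt hfe
    rw [mid_add, mid_add, mid_smul, mid_smul, hme, mid_ff halt hef, smul_zero, smul_zero, zero_add,
      zero_add, mid_self halt ha.1 ha.2.1]
    exact ha
  have hYe : ∀ v, YY ψ e (mid ψ e f v) ∈ L := fun v => (hle2 (hall v)).2.2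
  have hYf : ∀ v, YY ψ f (mid ψ e f v) ∈ L := fun v => (hall v).2.2
  have hYY : ∀ v v', YY ψ (mid ψ e f v) (mid ψ e f v') ∈ L := by
    intro v v'
    have h1 := hbr _ (hYf v) _ (hYe v')
    have ha := hall v
    have hb := hall v'
    rw [YY_bracket halt, YY_apply, YY_apply, ha.1, zero_smul, add_zero,
      alt_neg halt (mid ψ e f v') f, hb.2.1, neg_zero, zero_smul, zero_add, YY_smul_left,
      YY_smul_right] at h1
    have h2 := L.sub_mem h1 (L.smul_mem (ψ (mid ψ e f v') (mid ψ e f v)) hh)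
    rw [add_sub_cancel_right] at h2
    exact (L.smul_mem_iff hef).1 h2
  have hE : ∀ v, YY ψ e v ∈ L := by
    intro v
    rw [mid_decomp (ψ := ψ) e f v, YY_add_right, YY_add_right, YY_smul_right, YY_smul_right]
    exact L.add_mem (L.add_mem (L.smul_mem _ hee) (hYe v)) (L.smul_mem _ hh)
  have hF : ∀ v, YY ψ f v ∈ L := by
    intro v
    rw [mid_decomp (ψ := ψ) e f v, YY_add_right, YY_add_right, YY_smul_right, YY_smul_right]
    exact L.add_mem (L.add_mem (L.smul_mem _ hh') (hYf v)) (L.smul_mem _ hff)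
  have hM : ∀ v v', YY ψ (mid ψ e f v) v' ∈ L := by
    intro v v'
    rw [mid_decomp (ψ := ψ) e f v', YY_add_right, YY_add_right, YY_smul_right, YY_smul_right,
      YY_comm (mid ψ e f v) e, YY_comm (mid ψ e f v) f]
    exact L.add_mem (L.add_mem (L.smul_mem _ (hYe v)) (hYY v v')) (L.smul_mem _ (hYf v))
  rw [mid_decomp (ψ := ψ) e f u, YY_add_left, YY_add_left, YY_smul_left, YY_smul_left]
  exact L.add_mem (L.add_mem (L.smul_mem _ (hE w)) (hM u w)) (L.smul_mem _ (hF w))

end Pool.Agent.H91S
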