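import Pool.Agent.H91S.Dens
import Pool.Agent.H91S.LieIrr
import Pool.Agent.H91S.SoFull
import Pool.Agent.H91S.SpFull
import Pool.Agent.H91S.GenSp
import Pool.Agent.H91S.GenSo
import Pool.Agent.H91S.EigJ
import Pool.Agent.H91S.Skew

/-! One independent eigenvalue: assembly. -/

set_option linter.unusedSectionVars false

namespace Pool.Agent.H91S

open Polynomial TensorProduct Pool.Agent.H93Tate Pool.Agent.H91.Mono Pool.Agent.H91O

section K

variable {K : Type*} [Field K] [CharZero K] {V : Type*} [AddCommGroup V] [Module K V]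
  [FiniteDimensional K V] {ψ : V →ₗ[K] V →ₗ[K] K} {Γ : Subgroup (V ≃ₗ[K] V)}

/-- the closure as a monoid -/
noncomputable def SC (Γ : Subgroup (V ≃ₗ[K] V)) : Submonoid (Module.End K V) where
  carrier := {f | InCl Γ f}
  mul_mem' := fun hf hg => inCl_mul hf hg
  one_mem' := inCl_one

lemma det_sq_of_iso (hnd : ∀ v, (∀ w, ψ v w = 0) → v = 0) (g : Module.End K V)
    (hg : ∀ x y, ψ (g x) (g y) = ψ x y) : LinearMap.det g ^ 2 = 1 := by
  classical
  let b := Module.finBasis K V
  set J := LinearMap.toMatrix₂ b b ψ with hJ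
  set M := LinearMap.toMatrix b b g with hM
  have hcomp : ψ.compl₁₂ g g = ψ := by
    ext u v
    exact hg u v
  have hmat := LinearMap.toMatrix₂_compl₁₂ b b b b ψ g g
  rw [hcomp, ← hJ, ← hM] at hmat
  have hdet := congrArg Matrix.det hmat
  rw [Matrix.det_mul, Matrix.det_mul, Matrix.det_transpose] at hdet
  have hJ0 : J.det ≠ 0 := by
    have hsep : LinearMap.SeparatingLeft ψ := fun v hv => hnd v hv
    exact (LinearMap.separatingLeft_iff_det_ne_zero b).1 hsep
  have hMdet : M.det = LinearMap.det g := by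
    rw [hM, LinearMap.det_toMatrix]
  rw [← hMdet]
  apply mul_right_cancel₀ hJ0
  rw [one_mul]
  linear_combination -hdet

variable {ι : Type*} [Fintype ι] [DecidableEq ι]

/-- the coordinates in the hyperbolic pair -/
lemma pair_ne (hnd : ∀ v, (∀ w, ψ v w = 0) → v = 0) (b : Module.Basis ι K V) {i j : ι}
    (h1 : ∀ k, k ≠ j → ψ (b i) (b k) = 0) : ψ (b i) (b j) ≠ 0 := by
  intro h0
  apply b.ne_zero i
  apply hnd
  intro w
  rw [← b.sum_repr w, map_sum]
  apply Finset.sum_eq_zero
  intro k _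
  rw [map_smul]
  by_cases hk : k = j
  · rw [hk, h0, smul_zero]
  · rw [h1 k hk, smul_zero]

/-- **Symmetric case over an algebraically closed field.** -/
theorem symK [IsAlgClosed K] (hsym : ∀ u v, ψ u v = ψ v u)
    (hnd : ∀ v, (∀ w, ψ v w = 0) → v = 0)
    (hsim : ∀ γ ∈ Γ, ∃ μ : K, ∀ u v, ψ ((γ : V ≃ₗ[K] V) u) ((γ : V ≃ₗ[K] V) v) = μ * ψ u v)
    (b : Module.Basis ι K V) {i j : ι} (hij : i ≠ j)
    (hh : dg b (fun k => if k = i then 1 else if k = j then -1 else 0) ∈ lie Γ)
    (h1 : ∀ k, k ≠ j → ψ (b i) (b k) = 0) (h2 : ∀ k, k ≠ i → ψ (b j) (b k) = 0)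
    (hirr : ∀ W : Submodule K V, (∀ γ ∈ Γ, ∀ w ∈ W, (γ : V ≃ₗ[K] V) w ∈ W) → W = ⊥ ∨ W = ⊤)
    (hsc : ∀ c : Module.End K V, Comm Γ c → ∃ a : K, c = a • (1 : Module.End K V))
    (g : Module.End K V) (hg : ∀ x y, ψ (g x) (g y) = ψ x y) (hdet : LinearMap.det g = 1) :
    InCl Γ g := by
  have hc := pair_ne hnd b h1
  have hXX : XX ψ (b i) (b j) ∈ lie Γ := by
    have h3 : XX ψ (b i) (b j) = (-ψ (b i) (b j)) •
        dg b (fun k => if k = i then 1 else if k = j then -1 else 0) := by
      apply b.ext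
      intro k
      rw [XX_apply, LinearMap.smul_apply, dg_apply, hsym (b k) (b i), hsym (b k) (b j)]
      by_cases hki : k = i
      · subst hki
        rw [h1 k hij, if_pos rfl, hsym (b j) (b k)]
        module
      · by_cases hkj : k = j
        · subst hkj
          rw [h2 k (Ne.symm hij), if_neg hki, if_pos rfl]
          module
        · rw [h1 k hkj, h2 k hki, if_neg hki, if_neg hkj]
          module
    rw [h3]
    exact (lie Γ).smul_mem _ hh
  have hst : ∀ W : Submodule K V, (∀ x ∈ lie Γ, ∀ w ∈ W, x w ∈ W) → W = ⊥ ∨ W = ⊤ :=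
    fun W hW => stab_irr b hij hh hirr hsc W hW
  have hsk : ∀ x ∈ lie Γ, ∀ u v, ψ u v = 0 → ψ (x u) v + ψ u (x v) = 0 :=
    fun x hx u v huv => lie_skew_gen hsim hx huv
  have hee : ψ (b i) (b i) = 0 := h1 i hij
  have hff : ψ (b j) (b j) = 0 := h2 j (Ne.symm hij)
  have hall : ∀ u w, XX ψ u w ∈ lie Γ := fun u w =>
    so_full hsym (lie Γ) (fun x hx y hy => lie_bracket hx hy) hsk (b i) (b j) hee hff hc hXX hst
      u w
  -- the dimension is at least three
  have h3 : 3 ≤ Module.finrank K V := by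
    by_contra hlt
    have hcard : Fintype.card ι ≤ 2 := by
      rw [← Module.finrank_eq_card_basis b]
      omega
    have hk : ∀ k, k = i ∨ k = j := by
      intro k
      by_contra hcon
      push Not at hcon
      have h4 : ({i, j, k} : Finset ι).card = 3 := by
        rw [Finset.card_insert_of_notMem, Finset.card_insert_of_notMem, Finset.card_singleton]
        · simp only [Finset.mem_singleton]
          exact fun h5 => hcon.2 h5.symm
        · simp only [Finset.mem_insert, Finset.mem_singleton, not_or]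
          exact ⟨hij, fun h5 => hcon.1 h5.symm⟩
      have h5 := Finset.card_le_univ ({i, j, k} : Finset ι)
      omega
    rcases hst (Submodule.span K {b i}) (by
      intro x hx w hw
      obtain ⟨a, rfl⟩ := Submodule.mem_span_singleton.1 hw
      rw [map_smul]
      apply Submodule.smul_mem
      have h4 := hsk x hx (b i) (b i) hee
      rw [hsym (b i) (x (b i))] at h4
      have h5 : ψ (x (b i)) (b i) = 0 := by
        have : (2 : K) * ψ (x (b i)) (b i) = 0 := by linear_combination h4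
        rcases mul_eq_zero.1 this with h6 | h6
        · exact absurd h6 two_ne_zero
        · exact h6
      rw [Submodule.mem_span_singleton]
      refine ⟨b.repr (x (b i)) i, ?_⟩
      conv_rhs => rw [← b.sum_repr (x (b i))]
      rw [Finset.sum_eq_single i]
      · intro k _ hki
        have hkj : k = j := (hk k).resolve_left hki
        have h6 : ψ (x (b i)) (b i) = b.repr (x (b i)) j * ψ (b j) (b i) := by
          conv_lhs => rw [← b.sum_repr (x (b i))]
          rw [map_sum, LinearMap.sum_apply, Finset.sum_eq_single j]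
          · rw [map_smul, LinearMap.smul_apply, smul_eq_mul]
          · intro l _ hl
            rw [map_smul, LinearMap.smul_apply, (hk l).resolve_right hl, hee, smul_zero]
          · simp
        rw [h5, hsym (b j) (b i)] at h6
        rcases mul_eq_zero.1 h6.symm with h7 | h7
        · rw [hkj, h7, zero_smul]
        · exact absurd h7 hc
      · simp) with h4 | h4
    · have h5 := Submodule.mem_span_singleton_self (R := K) (b i)
      rw [h4, Submodule.mem_bot] at h5
      exact b.ne_zero i h5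
    · have h5 : b j ∈ Submodule.span K {b i} := by rw [h4]; trivial
      obtain ⟨a, ha⟩ := Submodule.mem_span_singleton.1 h5
      have h6 := congrArg (fun v => ψ (b i) v) ha
      simp only [map_smul, hee, smul_zero] at h6
      exact hc h6.symm
  have hE : ∀ e w, ψ w e = 0 → ψ w w = 0 → EE ψ e w ∈ SC Γ := fun e w h4 h5 =>
    inCl_exp (hall e w) (XX_cube hsym h4 h5) 1
  exact gen_so hsym hnd h3 (SC Γ) hE g hg hdet

/-- **Alternating case.** -/
theorem altK (halt : ∀ v, ψ v v = 0)
    (hnd : ∀ v, (∀ w, ψ v w = 0) → v = 0)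
    (hsim : ∀ γ ∈ Γ, ∃ μ : K, ∀ u v, ψ ((γ : V ≃ₗ[K] V) u) ((γ : V ≃ₗ[K] V) v) = μ * ψ u v)
    (b : Module.Basis ι K V) {i j : ι} (hij : i ≠ j)
    (hh : dg b (fun k => if k = i then 1 else if k = j then -1 else 0) ∈ lie Γ)
    (h1 : ∀ k, k ≠ j → ψ (b i) (b k) = 0) (h2 : ∀ k, k ≠ i → ψ (b j) (b k) = 0)
    (hirr : ∀ W : Submodule K V, (∀ γ ∈ Γ, ∀ w ∈ W, (γ : V ≃ₗ[K] V) w ∈ W) → W = ⊥ ∨ W = ⊤)
    (hsc : ∀ c : Module.End K V, Comm Γ c → ∃ a : K, c = a • (1 : Module.End K V))
    (g : Module.End K V) (hg : ∀ x y, ψ (g x) (g y) = ψ x y) :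
    InCl Γ g := by
  have hc := pair_ne hnd b h1
  have hsw : ∀ u v, ψ v u = - ψ u v := fun u v => psi_swap halt u v
  have hYY : YY ψ (b i) (b j) ∈ lie Γ := by
    have h3 : YY ψ (b i) (b j) = (ψ (b i) (b j)) •
        dg b (fun k => if k = i then 1 else if k = j then -1 else 0) := by
      apply b.ext
      intro k
      rw [YY_apply, LinearMap.smul_apply, dg_apply]
      by_cases hki : k = i
      · subst hki
        rw [halt, if_pos rfl]
        module
      · by_cases hkj : k = j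
        · subst hkj
          rw [halt, if_neg hki, if_pos rfl, hsw (b i) (b k)]
          module
        · rw [hsw (b i) (b k), hsw (b j) (b k), h1 k hkj, h2 k hki, if_neg hki, if_neg hkj]
          module
    rw [h3]
    exact (lie Γ).smul_mem _ hh
  have hst : ∀ W : Submodule K V, (∀ x ∈ lie Γ, ∀ w ∈ W, x w ∈ W) → W = ⊥ ∨ W = ⊤ :=
    fun W hW => stab_irr b hij hh hirr hsc W hW
  have hsk : ∀ x ∈ lie Γ, ∀ u v, ψ u v = 0 → ψ (x u) v + ψ u (x v) = 0 :=
    fun x hx u v huv => lie_skew_gen hsim hx huv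
  have hall : ∀ u w, YY ψ u w ∈ lie Γ := fun u w =>
    sp_full halt (lie Γ) (fun x hx y hy => lie_bracket hx hy) hsk (b i) (b j) hc hYY hst u w
  have hT : ∀ u s, tr ψ u s ∈ SC Γ := by
    intro u s
    have h3 : ((1 / 2 : K) • YY ψ u u) = (ψ.flip u).smulRight u := by
      ext v
      rw [LinearMap.smul_apply, YY_apply, LinearMap.smulRight_apply, LinearMap.flip_apply]
      module
    have h4 : (ψ.flip u).smulRight u ∈ lie Γ := by
      rw [← h3]
      exact (lie Γ).smul_mem _ (hall u u)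
    have h5 : ((ψ.flip u).smulRight u : Module.End K V) * (ψ.flip u).smulRight u = 0 := by
      ext v
      rw [Module.End.mul_apply, LinearMap.smulRight_apply, LinearMap.smulRight_apply, map_smul,
        LinearMap.flip_apply, LinearMap.flip_apply, halt, smul_zero, zero_smul]
      rfl
    have h6 := inCl_exp h4 (by rw [h5, zero_mul]) s
    rw [h5, smul_zero, add_zero] at h6
    exact h6
  exact gen_sp halt hnd (SC Γ) hT g hg

end K

section E

variable {p n : ℕ} [hp : Fact p.Prime] {P : ℚ[X]}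

/-- **One independent eigenvalue.** -/
theorem strong (hn : 0 < n) (hweil : ∀ z : ℂ, aeval z P = 0 → ‖z‖ ^ 2 = (p : ℝ) ^ n) {x : ℂ}
    (hx : Indep ((p : ℂ) ^ n) P x)
    {E : Type*} [Field E] [CharZero E] (K : Type*) [Field K] [Algebra E K] [IsAlgClosure E K]
    {V : Type*} [AddCommGroup V] [Module E V] [FiniteDimensional E V] (ψ : V →ₗ[E] V →ₗ[E] E)
    (hψ : (∀ v, ψ v v = 0) ∨ (∀ u v, ψ u v = ψ v u)) (hnd : ∀ v, (∀ w, ψ v w = 0) → v = 0)
    (Γ : Subgroup (V ≃ₗ[E] V))
    (hsim : ∀ γ ∈ Γ, ∃ μ : E, ∀ u v, ψ ((γ : V ≃ₗ[E] V) u) ((γ : V ≃ₗ[E] V) v) = μ * ψ u v)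
    (hss : ∀ W : Submodule E V, (∀ γ ∈ Γ, ∀ w ∈ W, (γ : V ≃ₗ[E] V) w ∈ W) →
      ∃ W' : Submodule E V, (∀ γ ∈ Γ, ∀ w ∈ W', (γ : V ≃ₗ[E] V) w ∈ W') ∧ IsCompl W W')
    (hsc : ∀ c : Module.End E V, Comm Γ c → ∃ a : E, c = a • (1 : Module.End E V))
    (F : V ≃ₗ[E] V) (hF : F ∈ Γ)
    (hchar : LinearMap.charpoly (F : V →ₗ[E] V) = P.map (algebraMap ℚ E))
    (hmult : ∀ u v, ψ (F u) (F v) = (p : E) ^ n * ψ u v)
    (g : V ≃ₗ[E] V) (μ : E) (hg : ∀ u v, ψ (g u) (g v) = μ * ψ u v)
    (hdet : (∀ v, ψ v v = 0) ∨ Odd (Module.finrank E V) ∨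
      LinearMap.det (g : V →ₗ[E] V) = μ ^ (Module.finrank E V / 2)) :
    InCl Γ (g : Module.End E V) := by
  classical
  have hac : IsAlgClosed K := IsAlgClosure.isAlgClosed E
  have halg : Algebra.IsAlgebraic E K := IsAlgClosure.isAlgebraic
  have hcz : CharZero K := charZero_of_injective_algebraMap (algebraMap E K).injective
  have hmapP : (P.map (algebraMap ℚ E)).map (algebraMap E K) = P.map (algebraMap ℚ K) := by
    rw [Polynomial.map_map]
    congr 1
    exact Subsingleton.elim _ _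
  have hsimK : ∀ γ ∈ Γ.map (bcE K), ∃ μ : K, ∀ u v, fK K ψ ((γ : K ⊗[E] V ≃ₗ[K] K ⊗[E] V) u)
      ((γ : K ⊗[E] V ≃ₗ[K] K ⊗[E] V) v) = μ * fK K ψ u v := by
    rintro _ ⟨γ, hγ, rfl⟩
    obtain ⟨μ, hμ⟩ := hsim γ hγ
    exact ⟨algebraMap E K μ, fK_sim γ μ hμ⟩
  have hcharK : LinearMap.charpoly ((bcE K F : K ⊗[E] V ≃ₗ[K] K ⊗[E] V) :
      K ⊗[E] V →ₗ[K] K ⊗[E] V) = P.map (algebraMap ℚ K) := by
    rw [bcE_coe, LinearMap.charpoly_baseChange, hchar, hmapP]
  have hmultK : ∀ u v, fK K ψ (bcE K F u) (bcE K F v) = (p : K) ^ n * fK K ψ u v := by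
    intro u v
    rw [fK_sim F _ hmult, map_pow, map_natCast]
  -- irreducibility and scalar commutant over `K`
  have hspan := span_top hss (fun c hc => hsc c ⟨⊤, inferInstance, fun γ _ v => hc γ γ.2 v⟩)
  have hirrK : ∀ W : Submodule K (K ⊗[E] V), (∀ γ ∈ Γ.map (bcE K), ∀ w ∈ W,
      (γ : K ⊗[E] V ≃ₗ[K] K ⊗[E] V) w ∈ W) → W = ⊥ ∨ W = ⊤ := fun W hW => irrK hspan W hW
  have hscK : ∀ c : Module.End K (K ⊗[E] V), Comm (Γ.map (bcE K)) c →
      ∃ a : K, c = a • (1 : Module.End K (K ⊗[E] V)) := fun c hc => scalK hsc c hc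
  obtain ⟨b, i, j, hij, hh, h1, -, h2, -, hscal⟩ := eigJ hn hweil hx (fK K ψ)
    (Γ.map (bcE K)) (bcE K F) ⟨F, hF, rfl⟩ hcharK hmultK
  -- scaling
  have hndK : ∀ v, (∀ w, fK K ψ v w = 0) → v = 0 := by
    rcases hψ with halt | hsym
    · exact fK_nondeg (fun u v => psi_swap halt u v) hnd
    · exact fK_nondeg_sym hsym hnd
  have hμ0 : algebraMap E K μ ≠ 0 := by
    intro h0
    apply b.ne_zero i
    apply hndK
    intro w
    have h3 := fK_sim (K := K) g μ hg (bcE K g⁻¹ (b i)) (bcE K g⁻¹ w)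
    rw [h0, zero_mul] at h3
    have h4 : ∀ y, bcE K g (bcE K g⁻¹ y) = y := by
      intro y
      have h5 : bcE K g * bcE K g⁻¹ = 1 := by rw [← map_mul, mul_inv_cancel, map_one]
      exact DFunLike.congr_fun h5 y
    rwa [h4, h4] at h3
  obtain ⟨ν, hν⟩ := IsAlgClosed.exists_pow_nat_eq (algebraMap E K μ) (n := 2) (by norm_num)
  have hν0 : ν ≠ 0 := by
    rintro rfl
    apply hμ0
    rw [← hν]
    norm_num
  obtain ⟨g', hg'⟩ : ∃ g' : Module.End K (K ⊗[E] V),
      g' = ν⁻¹ • ((bcE K g : K ⊗[E] V ≃ₗ[K] K ⊗[E] V) : Module.End K (K ⊗[E] V)) := ⟨_, rfl⟩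
  have hiso : ∀ x y, fK K ψ (g' x) (g' y) = fK K ψ x y := by
    intro x y
    rw [hg']
    show fK K ψ (ν⁻¹ • bcE K g x) (ν⁻¹ • bcE K g y) = _
    rw [map_smul, map_smul, LinearMap.smul_apply, fK_sim g μ hg, ← hν]
    simp only [smul_eq_mul]
    field_simp
  apply inCl_descend K
  have hfin : ((bcE K g : K ⊗[E] V ≃ₗ[K] K ⊗[E] V) : Module.End K (K ⊗[E] V)) =
      (ν • (1 : Module.End K (K ⊗[E] V))) * g' := by
    rw [hg', smul_mul_smul_comm, mul_inv_cancel₀ hν0, one_mul, one_smul]
  rw [hfin]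
  apply inCl_mul (hscal ν hν0)
  rcases hψ with halt | hsym
  · exact altK (fK_alt halt) hndK hsimK b hij hh h1 h2 hirrK hscK g' hiso
  · have hsymK := fK_sym (K := K) hsym
    have hrank : Module.finrank K (K ⊗[E] V) = Module.finrank E V :=
      Module.finrank_baseChange
    have hmain : LinearMap.det g' = 1 → InCl (Γ.map (bcE K)) g' := fun h3 =>
      symK hsymK hndK hsimK b hij hh h1 h2 hirrK hscK g' hiso h3
    have hdet2 := det_sq_of_iso hndK g' hiso
    by_cases hodd : Odd (Module.finrank E V)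
    · have h3 : (LinearMap.det g' - 1) * (LinearMap.det g' + 1) = 0 := by
        linear_combination hdet2
      rcases mul_eq_zero.1 h3 with h4 | h4
      · exact hmain (sub_eq_zero.1 h4)
      · have h5 : LinearMap.det (-g') = 1 := by
          rw [← neg_one_smul K g', LinearMap.det_smul, hrank, hodd.neg_one_pow,
            eq_neg_of_add_eq_zero_left h4]
          norm_num
        have h6 : InCl (Γ.map (bcE K)) (-g') := symK hsymK hndK hsimK b hij hh h1 h2 hirrK hscK
          (-g') (fun x y => by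
            rw [LinearMap.neg_apply, LinearMap.neg_apply, map_neg, map_neg, LinearMap.neg_apply,
              neg_neg, hiso]) h5
        have h7 := inCl_mul (hscal (-1) (by norm_num)) h6
        have h8 : ((-1 : K) • (1 : Module.End K (K ⊗[E] V))) * -g' = g' := by
          have e1 : (-g' : Module.End K (K ⊗[E] V)) = (-1 : K) • g' := (neg_one_smul K g').symm
          rw [e1, smul_mul_smul_comm, one_mul, neg_mul_neg, one_mul, one_smul]
        rwa [h8] at h7
    · apply hmain
      have hev : Even (Module.finrank E V) := Nat.not_odd_iff_even.1 hodd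
      rcases hdet with halt | h3 | h3
      · exfalso
        apply b.ne_zero i
        apply hndK
        intro w
        have e1 := fK_alt (K := K) halt (b i + w)
        rw [map_add, map_add, LinearMap.add_apply, LinearMap.add_apply, fK_alt halt, fK_alt halt,
          hsymK w (b i)] at e1
        have e2 : (2 : K) * fK K ψ (b i) w = 0 := by linear_combination e1
        rcases mul_eq_zero.1 e2 with e3 | e3
        · exact absurd e3 two_ne_zero
        · exact e3
      · exact absurd h3 hodd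
      · obtain ⟨m, hm⟩ := hev
        have hm2 : Module.finrank E V / 2 = m := by omega
        rw [hg', LinearMap.det_smul, hrank, bcE_coe, LinearMap.det_baseChange, h3, hm2, map_pow,
          ← hν, hm, ← two_mul, ← pow_mul, ← mul_pow, inv_mul_cancel₀ hν0, one_pow]

end E

end Pool.Agent.H91S
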